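import Pool.Agent.H60.FS.NuCount

/-!
# SepI: `Im (A (X + i)²) Im (B (X + i)²)` is squarefree mod `p`

PROOF.  `qA = a2 (X² - 1) + 2 a1 X`, `qB` the same with `b1, b2`.  `a1 qA' - a2 (2 qA - X qA') = 2 (a1² + a2²)`, so `qA` is separable
if `p ∤ 2 (a1² + a2²)`; `X (b2 qA - a2 qB) + 2 (b1 qA - a1 qB) = 2 (a1 b2 - a2 b1)`, so `qA, qB` are coprime if
`p ∤ 2 (a1 b2 - a2 b1)` (identities checked).  The product of coprime separable polynomials is separable (`Separable.mul`).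
`natDegree ≥ 1`: both factors have degree `≥ 1` (their coefficients `a2`, `2 a1` of `X²`, `X` are not both `0`), `natDegree_mul`.
With the sign `e = ±1` in front.  About 70 lines.
-/

set_option autoImplicit false

namespace Pool.Agent.H60.FS

open Polynomial

/-- coefficients of `e Im (A (x + i y)²) Im (B (x + i y)²)` -/
def cI (e a1 a2 b1 b2 : ℤ) : Fin 5 → ℤ :=
  ![e * a2 * b2, -(2 * e * (a2 * b1 + a1 * b2)), e * (4 * a1 * b1 - 2 * a2 * b2), 2 * e * (a2 * b1 + a1 * b2), e * a2 * b2]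

theorem fv_cI (e : ℤ) (A B z : G) :
    fv (cI e A.re A.im B.re B.im) z.re z.im = e * ((A * z ^ 2).im * (B * z ^ 2).im) := by
  simp [fv, cI, pow_succ, Zsqrtd.re_mul, Zsqrtd.im_mul]
  ring

private noncomputable def SepI_q {F : Type} [Field F] (a1 a2 : F) : F[X] :=
  C a2 * (X ^ 2 - 1) + C (2 * a1) * X

private theorem SepI_der {F : Type} [Field F] (a1 a2 : F) :
    derivative (SepI_q a1 a2) = C (2 * a2) * X + C (2 * a1) := by
  unfold SepI_q
  simp only [derivative_add, derivative_mul, derivative_C, zero_mul, zero_add, derivative_sub,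
    derivative_X_pow, derivative_one, sub_zero, derivative_X, mul_one, map_mul, map_ofNat]
  simp
  have h2 : (C (2 : F) : F[X]) = 2 := map_ofNat C 2
  try rw [h2]
  ring

private theorem SepI_sep {F : Type} [Field F] {a1 a2 : F} (h : 2 * (a1 ^ 2 + a2 ^ 2) ≠ 0) :
    (SepI_q a1 a2).Separable := by
  unfold Polynomial.Separable
  refine ⟨C (2 * (a1 ^ 2 + a2 ^ 2))⁻¹ * C (-2 * a2),
    C (2 * (a1 ^ 2 + a2 ^ 2))⁻¹ * (C a1 + C a2 * X), ?_⟩
  rw [SepI_der]
  have h1 : (C (2 * (a1 ^ 2 + a2 ^ 2))⁻¹ : F[X]) * C (2 * (a1 ^ 2 + a2 ^ 2)) = 1 := by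
    rw [← C_mul, inv_mul_cancel₀ h, C_1]
  rw [← h1]
  unfold SepI_q
  simp only [map_mul, map_add, map_pow, map_neg, map_ofNat]
  ring

private theorem SepI_cop {F : Type} [Field F] {a1 a2 b1 b2 : F} (h : 2 * (a1 * b2 - a2 * b1) ≠ 0) :
    IsCoprime (SepI_q a1 a2) (SepI_q b1 b2) := by
  refine ⟨C (2 * (a1 * b2 - a2 * b1))⁻¹ * (C b2 * X + C (2 * b1)),
    - (C (2 * (a1 * b2 - a2 * b1))⁻¹ * (C a2 * X + C (2 * a1))), ?_⟩
  have h1 : (C (2 * (a1 * b2 - a2 * b1))⁻¹ : F[X]) * C (2 * (a1 * b2 - a2 * b1)) = 1 := by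
    rw [← C_mul, inv_mul_cancel₀ h, C_1]
  rw [← h1]
  unfold SepI_q
  simp only [map_mul, map_sub, map_ofNat]
  ring

private theorem SepI_deg {F : Type} [Field F] {a1 a2 : F} (h : 2 * (a1 ^ 2 + a2 ^ 2) ≠ 0) :
    1 ≤ (SepI_q a1 a2).natDegree := by
  by_contra hlt
  have h0 : (SepI_q a1 a2).natDegree = 0 := by omega
  have c1 : (SepI_q a1 a2).coeff 1 = 2 * a1 := by
    unfold SepI_q
    simp [coeff_one]
  have c2 : (SepI_q a1 a2).coeff 2 = a2 := by
    unfold SepI_q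
    simp [coeff_one]
  have e1 : 2 * a1 = 0 := by
    rw [← c1]; exact coeff_eq_zero_of_natDegree_lt (by omega)
  have e2 : a2 = 0 := by
    rw [← c2]; exact coeff_eq_zero_of_natDegree_lt (by omega)
  apply h
  linear_combination a1 * e1 + 2 * a2 * e2

theorem sep_I (e a1 a2 b1 b2 : ℤ) (he : e = 1 ∨ e = -1) (p : ℕ) (hpp : p.Prime) (hp : 1600 ≤ p)
    (ha : ¬ (p : ℤ) ∣ a1 ^ 2 + a2 ^ 2) (hb : ¬ (p : ℤ) ∣ b1 ^ 2 + b2 ^ 2) (hd : ¬ (p : ℤ) ∣ a1 * b2 - a2 * b1) :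
    Squarefree (fp (cI e a1 a2 b1 b2) p) ∧ 1 ≤ (fp (cI e a1 a2 b1 b2) p).natDegree := by
  have : Fact p.Prime := ⟨hpp⟩
  have hcast : ∀ z : ℤ, ¬ (p : ℤ) ∣ z → (z : ZMod p) ≠ 0 := by
    intro z hz h0
    exact hz ((ZMod.intCast_zmod_eq_zero_iff_dvd z p).1 h0)
  have h2 : (2 : ZMod p) ≠ 0 := by
    have := hcast 2 (by
      intro h
      have := Int.le_of_dvd (by norm_num) h
      omega)
    exact_mod_cast this
  have hA : 2 * ((a1 : ZMod p) ^ 2 + (a2 : ZMod p) ^ 2) ≠ 0 := by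
    refine mul_ne_zero h2 ?_
    exact_mod_cast hcast _ ha
  have hB : 2 * ((b1 : ZMod p) ^ 2 + (b2 : ZMod p) ^ 2) ≠ 0 := by
    refine mul_ne_zero h2 ?_
    exact_mod_cast hcast _ hb
  have hD : 2 * ((a1 : ZMod p) * b2 - (a2 : ZMod p) * b1) ≠ 0 := by
    refine mul_ne_zero h2 ?_
    exact_mod_cast hcast _ hd
  have hE : ((e : ZMod p)) * (e : ZMod p) = 1 := by
    rcases he with rfl | rfl <;> simp
  have hE0 : (e : ZMod p) ≠ 0 := by
    intro h; rw [h] at hE; simp at hE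
  set f : (ZMod p)[X] := SepI_q (a1 : ZMod p) a2 * SepI_q (b1 : ZMod p) b2 with hf
  have hfp : fp (cI e a1 a2 b1 b2) p = C (e : ZMod p) * f := by
    rw [hf]
    unfold fp SepI_q cI
    simp only [Matrix.cons_val_zero, Matrix.cons_val_one, Matrix.cons_val, Int.cast_mul, Int.cast_neg,
      Int.cast_add, Int.cast_sub, Int.cast_ofNat, map_mul, map_add, map_sub, map_neg, map_ofNat]
    ring
  have hsf : Squarefree f :=
    ((SepI_sep hA).mul (SepI_sep hB) (SepI_cop hD)).squarefree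
  have hqA : SepI_q (a1 : ZMod p) a2 ≠ 0 := by
    intro h; have := SepI_deg hA; rw [h] at this; simp at this
  have hqB : SepI_q (b1 : ZMod p) b2 ≠ 0 := by
    intro h; have := SepI_deg hB; rw [h] at this; simp at this
  constructor
  · rw [hfp]
    refine Squarefree.squarefree_of_dvd ?_ hsf
    refine ⟨C (e : ZMod p), ?_⟩
    have : (C (e : ZMod p)) * C (e : ZMod p) = (1 : (ZMod p)[X]) := by rw [← C_mul, hE, C_1]
    linear_combination (-f) * this
  · rw [hfp, natDegree_C_mul hE0, hf, natDegree_mul hqA hqB]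
    have := SepI_deg hA
    omega

end Pool.Agent.H60.FS
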