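import Pool.Agent.H60.FS.SieveForm
import Pool.Agent.H60.FS.SepI

/-!
# CountI

PROOF.  As in `CountP` with `c = cI e A.re A.im B'.re B'.im`, `e = ±1`, `Δ = nn A * nn B' * |Im (A B̄')|`
(`Im (A B̄') = A.im B'.re - A.re B'.im`).  About 60 lines.
-/

set_option autoImplicit false

namespace Pool.Agent.H60.FS

open Finset

private theorem countI_inj : Function.Injective (fun z : G => (z.re, z.im)) := by
  intro z w h
  simp only [Prod.mk.injEq] at h
  exact Zsqrtd.ext h.1 h.2

private theorem countI_sq {n : ℤ} (h : IsSquare n.natAbs) (h0 : 0 ≤ n) : IsSquare n := by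
  obtain ⟨r, hr⟩ := h
  refine ⟨(r : ℤ), ?_⟩
  have h1 : ((n.natAbs : ℕ) : ℤ) = n := Int.natAbs_of_nonneg h0
  rw [← h1, hr]
  push_cast
  ring

private theorem countI_dvd {p a : ℕ} {n : ℤ} (h : (p : ℤ) ∣ n) (ha : (a : ℤ) = n ∨ (a : ℤ) = -n) :
    p ∣ a := by
  rcases ha with h1 | h1
  · rw [← h1] at h
    exact_mod_cast h
  · have h2 : (p : ℤ) ∣ -n := (dvd_neg).2 h
    rw [← h1] at h2
    exact_mod_cast h2

theorem count_I : ∃ C : ℝ, 1 ≤ C ∧ ∀ (A D : G), A ≠ 0 → D ≠ 0 → (A * star D).im ≠ 0 →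
    ∀ B : ℝ, 1 ≤ B → ∀ S : Finset G,
    (∀ z ∈ S, Prim z ∧ |(z.re : ℝ)| ≤ B ∧ |(z.im : ℝ)| ≤ B ∧
      IsSquare ((A * z ^ 2).im * (D * z ^ 2).im).natAbs) →
    (S.card : ℝ) ≤ C * B * (1 + Real.log (nn A * nn D * (A * star D).im.natAbs : ℕ)) := by
  obtain ⟨C, hC, hmain⟩ := sieve_form
  refine ⟨2 * C, by linarith, ?_⟩
  intro A D hA hD hAD B hB S hS
  have hΔ : 1 ≤ nn A * nn D * (A * star D).im.natAbs := by
    have h1 : nn A ≠ 0 := fun h => hA (nn_eq_zero.1 h)
    have h2 : nn D ≠ 0 := fun h => hD (nn_eq_zero.1 h)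
    have h3 : (A * star D).im.natAbs ≠ 0 := fun h => hAD (Int.natAbs_eq_zero.1 h)
    exact Nat.one_le_iff_ne_zero.2 (Nat.mul_ne_zero (Nat.mul_ne_zero h1 h2) h3)
  have him : (A * star D).im = -(A.re * D.im - A.im * D.re) := by
    simp [Zsqrtd.im_mul]
    ring
  have key : ∀ e : ℤ, (e = 1 ∨ e = -1) → ∀ T : Finset G, T ⊆ S →
      (∀ z ∈ T, 0 ≤ e * ((A * z ^ 2).im * (D * z ^ 2).im)) →
      (T.card : ℝ) ≤ C * B * (1 + Real.log (nn A * nn D * (A * star D).im.natAbs : ℕ)) := by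
    intro e he T hT hpos
    have h1 := hmain (cI e A.re A.im D.re D.im) (nn A * nn D * (A * star D).im.natAbs) hΔ ?_ B hB
      (T.image (fun z : G => (z.re, z.im))) ?_
    · rw [Finset.card_image_of_injective _ countI_inj] at h1
      exact h1
    · intro p hp hp2 hpd
      refine sep_I e A.re A.im D.re D.im he p hp hp2 ?_ ?_ ?_
      · intro h
        exact hpd (Dvd.dvd.mul_right (Dvd.dvd.mul_right (countI_dvd h (Or.inl (nn_eq A))) _) _)
      · intro h
        exact hpd (Dvd.dvd.mul_right (Dvd.dvd.mul_left (countI_dvd h (Or.inl (nn_eq D))) _) _)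
      · intro h
        refine hpd (Dvd.dvd.mul_left (countI_dvd h ?_) _)
        rw [him]
        rcases Int.natAbs_eq (-(A.re * D.im - A.im * D.re)) with h2 | h2
        · right
          exact h2.symm
        · left
          linarith
    · intro s hs
      rw [Finset.mem_image] at hs
      obtain ⟨z, hz, rfl⟩ := hs
      obtain ⟨g1, g2, g3, g4⟩ := hS z (hT hz)
      refine ⟨g1, g2, g3, ?_⟩
      simp only
      rw [fv_cI]
      refine countI_sq ?_ (hpos z hz)
      have h2 : (e * ((A * z ^ 2).im * (D * z ^ 2).im)).natAbs =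
          ((A * z ^ 2).im * (D * z ^ 2).im).natAbs := by
        rw [Int.natAbs_mul]
        rcases he with rfl | rfl <;> simp
      rw [h2]
      exact g4
  have h1 := key 1 (Or.inl rfl) (S.filter fun z : G => 0 ≤ (A * z ^ 2).im * (D * z ^ 2).im)
    (Finset.filter_subset _ _) (by
      intro z hz
      rw [Finset.mem_filter] at hz
      rw [one_mul]
      exact hz.2)
  have h2 := key (-1) (Or.inr rfl) (S.filter fun z : G => ¬ 0 ≤ (A * z ^ 2).im * (D * z ^ 2).im)
    (Finset.filter_subset _ _) (by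
      intro z hz
      rw [Finset.mem_filter] at hz
      have h3 := not_le.1 hz.2
      linarith)
  have h3 := Finset.card_filter_add_card_filter_not (s := S)
    (fun z : G => 0 ≤ (A * z ^ 2).im * (D * z ^ 2).im)
  have h4 : (S.card : ℝ) = ((S.filter fun z : G => 0 ≤ (A * z ^ 2).im * (D * z ^ 2).im).card : ℝ) +
      ((S.filter fun z : G => ¬ 0 ≤ (A * z ^ 2).im * (D * z ^ 2).im).card : ℝ) := by
    rw [← h3]
    push_cast
    rfl
  rw [h4]
  linarith

end Pool.Agent.H60.FS
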