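import Pool.Agent.H60.FS.NuCount

/-!
# SepP: `k Im (A (X + i)^4)` is squarefree mod `p`

`A = a1 + a2 i`: `Im (A (x + i y)^4) = a2 (x⁴ - 6 x² y² + y⁴) + 4 a1 (x³ y - x y³)`.
PROOF.  With `f = a2 (X⁴ - 6 X² + 1) + 4 a1 (X³ - X)`, `f'` its derivative, `R = 4 f - X f'`:
`-((8 - 3 X²) (a1 f' - a2 R) + 9 X (a1 R + a2 f')) = 32 (a1² + a2²)` (polynomial identity, checked), so `f` is separable if
`p ∤ 2 (a1² + a2²)`, and so is `k f`, `p ∤ k` (`Polynomial.Separable` as `IsCoprime f f'`, then `.squarefree`).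
`natDegree ≥ 3`: the coefficients `k a2`, `4 k a1` of `X⁴`, `X³` are not both zero.  About 60 lines.
-/

set_option autoImplicit false

namespace Pool.Agent.H60.FS

open Polynomial

/-- coefficients of `k Im (A (x + i y)^4)` -/
def cP (k a1 a2 : ℤ) : Fin 5 → ℤ := ![k * a2, -(4 * k * a1), -(6 * k * a2), 4 * k * a1, k * a2]

theorem fv_cP (k : ℤ) (A z : G) : fv (cP k A.re A.im) z.re z.im = k * (A * z ^ 4).im := by
  simp [fv, cP, pow_succ, Zsqrtd.re_mul, Zsqrtd.im_mul]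
  ring

theorem sep_P (k a1 a2 : ℤ) (p : ℕ) (hpp : p.Prime) (hp : 1600 ≤ p)
    (hd : ¬ (p : ℤ) ∣ k * (a1 ^ 2 + a2 ^ 2)) :
    Squarefree (fp (cP k a1 a2) p) ∧ 1 ≤ (fp (cP k a1 a2) p).natDegree := by
  haveI : Fact p.Prime := ⟨hpp⟩
  have hk : ((k : ℤ) : ZMod p) * ((a1 : ZMod p) ^ 2 + (a2 : ZMod p) ^ 2) ≠ 0 := by
    intro h
    apply hd
    rw [← ZMod.intCast_zmod_eq_zero_iff_dvd]
    push_cast
    exact h
  have h2 : (2 : ZMod p) ≠ 0 := by
    intro h
    have h3 : ((2 : ℕ) : ZMod p) = 0 := by exact_mod_cast h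
    rw [ZMod.natCast_eq_zero_iff] at h3
    have := Nat.le_of_dvd (by norm_num) h3
    omega
  have hc : (32 : ZMod p) * ((k : ZMod p) * ((a1 : ZMod p) ^ 2 + (a2 : ZMod p) ^ 2)) ≠ 0 := by
    have h32 : (32 : ZMod p) = 2 ^ 5 := by norm_num
    rw [h32]
    exact mul_ne_zero (pow_ne_zero _ h2) hk
  have hf : fp (cP k a1 a2) p = C (k : ZMod p) * (C (a2 : ZMod p) * (X ^ 4 - 6 * X ^ 2 + 1) +
      4 * C (a1 : ZMod p) * (X ^ 3 - X)) := by
    simp only [fp, cP, Matrix.cons_val_zero, Matrix.cons_val_one, Matrix.cons_val,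
      Int.cast_mul, Int.cast_neg, Int.cast_ofNat, map_mul, map_neg, map_ofNat]
    ring
  have hf' : derivative (fp (cP k a1 a2) p) = C (k : ZMod p) * (C (a2 : ZMod p) * (4 * X ^ 3 - 12 * X) +
      4 * C (a1 : ZMod p) * (3 * X ^ 2 - 1)) := by
    rw [hf]
    simp only [derivative_mul, derivative_add, derivative_sub, derivative_C, derivative_X_pow,
      derivative_X, derivative_one, derivative_ofNat, Nat.cast_ofNat, map_ofNat]
    ring
  constructor
  · apply Polynomial.Separable.squarefree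
    refine ⟨C ((32 : ZMod p) * ((k : ZMod p) * ((a1 : ZMod p) ^ 2 + (a2 : ZMod p) ^ 2)))⁻¹ *
      (4 * C (a2 : ZMod p) * (8 - 3 * X ^ 2) - 36 * C (a1 : ZMod p) * X),
      C ((32 : ZMod p) * ((k : ZMod p) * ((a1 : ZMod p) ^ 2 + (a2 : ZMod p) ^ 2)))⁻¹ *
      (-((8 - 3 * X ^ 2) * (C (a1 : ZMod p) + C (a2 : ZMod p) * X) +
        9 * X * (C (a2 : ZMod p) - C (a1 : ZMod p) * X))), ?_⟩
    have h1 : C ((32 : ZMod p) * ((k : ZMod p) * ((a1 : ZMod p) ^ 2 + (a2 : ZMod p) ^ 2)))⁻¹ *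
        C ((32 : ZMod p) * ((k : ZMod p) * ((a1 : ZMod p) ^ 2 + (a2 : ZMod p) ^ 2))) = 1 := by
      rw [← C_mul, inv_mul_cancel₀ hc, C_1]
    have h3 : C ((32 : ZMod p) * ((k : ZMod p) * ((a1 : ZMod p) ^ 2 + (a2 : ZMod p) ^ 2))) =
        32 * (C (k : ZMod p) * (C (a1 : ZMod p) ^ 2 + C (a2 : ZMod p) ^ 2)) := by
      simp only [C_mul, C_add, C_pow, map_ofNat]
    rw [hf', hf]
    rw [h3] at h1
    linear_combination h1
  · by_contra hn
    have hn0 : (fp (cP k a1 a2) p).natDegree = 0 := by omega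
    have c3 : (fp (cP k a1 a2) p).coeff 3 = 0 := coeff_eq_zero_of_natDegree_lt (by omega)
    have c4 : (fp (cP k a1 a2) p).coeff 4 = 0 := coeff_eq_zero_of_natDegree_lt (by omega)
    have e3 : (4 : ZMod p) * ((k : ZMod p) * (a1 : ZMod p)) = 0 := by
      rw [← c3, fp]
      simp only [coeff_add, coeff_C_mul, coeff_X, coeff_C, coeff_X_pow]
      have v3 : cP k a1 a2 3 = 4 * k * a1 := rfl
      norm_num
      rw [v3]
      push_cast
      ring
    have e4 : (k : ZMod p) * (a2 : ZMod p) = 0 := by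
      rw [← c4, fp]
      simp only [coeff_add, coeff_C_mul, coeff_X, coeff_C, coeff_X_pow]
      have v4 : cP k a1 a2 4 = k * a2 := rfl
      norm_num
      rw [v4]
      push_cast
      ring
    have h4 : (4 : ZMod p) ≠ 0 := by
      have h5 : (4 : ZMod p) = 2 ^ 2 := by norm_num
      rw [h5]
      exact pow_ne_zero _ h2
    have e3' : (k : ZMod p) * (a1 : ZMod p) = 0 := (mul_eq_zero.1 e3).resolve_left h4
    apply hk
    linear_combination (a1 : ZMod p) * e3' + (a2 : ZMod p) * e4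

end Pool.Agent.H60.FS
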