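import Pool.Agent.H60.FS.SieveForm
import Pool.Agent.H60.FS.SepP

/-!
# CountP

PROOF.  `sieve_form` for `c = cP k A.re A.im` and `c = cP (-k) A.re A.im` with `Δ = |k| nn A` (`sep_P`, `fv_cP`), applied to the image of
`{z ∈ S : k Im (A z⁴) ≥ 0}` (resp. `≤ 0`) under the injective map `z ↦ (z.re, z.im)`: `IsSquare` of `natAbs` gives `IsSquare` of
`± k Im`.  Constant `2 C`.  About 50 lines.
-/

set_option autoImplicit false

namespace Pool.Agent.H60.FS

open Finset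

private theorem CountP_sq {x : ℤ} (h : 0 ≤ x) (hs : IsSquare x.natAbs) : IsSquare x := by
  obtain ⟨r, hr⟩ := hs
  refine ⟨(r : ℤ), ?_⟩
  have h1 : ((x.natAbs : ℕ) : ℤ) = x := Int.natAbs_of_nonneg h
  rw [← h1, hr]
  push_cast
  ring

theorem count_P : ∃ C : ℝ, 1 ≤ C ∧ ∀ (A : G) (k : ℤ), A ≠ 0 → k ≠ 0 → ∀ B : ℝ, 1 ≤ B → ∀ S : Finset G,
    (∀ z ∈ S, Prim z ∧ |(z.re : ℝ)| ≤ B ∧ |(z.im : ℝ)| ≤ B ∧ IsSquare (k * (A * z ^ 4).im).natAbs) →
    (S.card : ℝ) ≤ C * B * (1 + Real.log (k.natAbs * nn A : ℕ)) := by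
  obtain ⟨C, hC, hmain⟩ := sieve_form
  refine ⟨2 * C, by linarith, ?_⟩
  intro A k hA hk B hB S hS
  have hinj : Function.Injective (fun z : G => (z.re, z.im)) := by
    intro z w h
    have h1 := congrArg Prod.fst h
    have h2 := congrArg Prod.snd h
    exact Zsqrtd.ext h1 h2
  have key : ∀ l : ℤ, l ≠ 0 → ∀ T : Finset G, (∀ z ∈ T, Prim z ∧ |(z.re : ℝ)| ≤ B ∧
      |(z.im : ℝ)| ≤ B ∧ IsSquare (l * (A * z ^ 4).im)) →
      (T.card : ℝ) ≤ C * B * (1 + Real.log (l.natAbs * nn A : ℕ)) := by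
    intro l hl T hT
    have hpos : 1 ≤ l.natAbs * nn A := by
      have h1 : l.natAbs ≠ 0 := Int.natAbs_ne_zero.2 hl
      have h2 : nn A ≠ 0 := fun h => hA (nn_eq_zero.1 h)
      exact Nat.one_le_iff_ne_zero.2 (Nat.mul_ne_zero h1 h2)
    have h1 := hmain (cP l A.re A.im) (l.natAbs * nn A) hpos ?_ B hB
      (T.image fun z : G => (z.re, z.im)) ?_
    · rw [card_image_of_injective _ hinj] at h1
      exact h1
    · intro p hpp hp hd
      refine sep_P l A.re A.im p hpp hp ?_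
      intro h2
      apply hd
      rw [← nn_eq] at h2
      have h3 := Int.natCast_dvd.1 h2
      rwa [Int.natAbs_mul, Int.natAbs_natCast] at h3
    · intro s hs
      obtain ⟨z, hz, rfl⟩ := mem_image.1 hs
      obtain ⟨h2, h3, h4, h5⟩ := hT z hz
      refine ⟨h2, h3, h4, ?_⟩
      show IsSquare (fv (cP l A.re A.im) z.re z.im)
      rw [fv_cP]
      exact h5
  have h1 := key k hk (S.filter fun z => 0 ≤ k * (A * z ^ 4).im) (by
    intro z hz
    rw [mem_filter] at hz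
    obtain ⟨h2, h3, h4, h5⟩ := hS z hz.1
    exact ⟨h2, h3, h4, CountP_sq hz.2 h5⟩)
  have h2 := key (-k) (neg_ne_zero.2 hk) (S.filter fun z => ¬ 0 ≤ k * (A * z ^ 4).im) (by
    intro z hz
    rw [mem_filter] at hz
    obtain ⟨h2, h3, h4, h5⟩ := hS z hz.1
    refine ⟨h2, h3, h4, CountP_sq ?_ ?_⟩
    · have := hz.2
      rw [neg_mul]
      linarith
    · rw [neg_mul, Int.natAbs_neg]
      exact h5)
  rw [Int.natAbs_neg] at h2
  have h3 := card_filter_add_card_filter_not (s := S) (fun z : G => 0 ≤ k * (A * z ^ 4).im)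
  have h4 : (S.card : ℝ) = ((S.filter fun z : G => 0 ≤ k * (A * z ^ 4).im).card : ℝ)
      + ((S.filter fun z : G => ¬ 0 ≤ k * (A * z ^ 4).im).card : ℝ) := by
    rw [← h3]
    push_cast
    rfl
  rw [h4]
  linarith

end Pool.Agent.H60.FS
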