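import Mathlib

/-!
# Four squares: definitions

`G = ℤ[i]`, `nn z = N(z)` as a natural number, `Prim z`: coprime real and imaginary parts, `Gb X` the box `|x|, |y| ≤ X`,
`Phi u v P M I J = Im (u P⁴ I² J²) Im (v M⁴ I² J̄²)`.
-/

set_option autoImplicit false

namespace Pool.Agent.H60.FS

open Finset

/-- the Gaussian integers -/
abbrev G := GaussianInt

/-- the norm as a natural number -/
def nn (z : G) : ℕ := z.norm.natAbs

/-- coprime real and imaginary parts -/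
def Prim (z : G) : Prop := Int.gcd z.re z.im = 1

instance (z : G) : Decidable (Prim z) := by unfold Prim; infer_instance

/-- `Im (u P⁴ I² J²) Im (v M⁴ I² J̄²)` -/
def Phi (u v P M I J : G) : ℤ := (u * P ^ 4 * I ^ 2 * J ^ 2).im * (v * M ^ 4 * I ^ 2 * (star J) ^ 2).im

/-- the box -/
noncomputable def Gb (X : ℕ) : Finset G :=
  (Icc (-(X : ℤ)) X ×ˢ Icc (-(X : ℤ)) X).image fun p => (⟨p.1, p.2⟩ : G)

theorem nn_eq (z : G) : (nn z : ℤ) = z.re ^ 2 + z.im ^ 2 := by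
  unfold nn
  rw [Int.natAbs_of_nonneg (GaussianInt.norm_nonneg z), Zsqrtd.norm_def]
  ring

theorem nn_mul (z w : G) : nn (z * w) = nn z * nn w := by
  unfold nn
  rw [Zsqrtd.norm_mul, Int.natAbs_mul]

theorem nn_pow (z : G) (n : ℕ) : nn (z ^ n) = nn z ^ n := by
  induction n with
  | zero => simp [nn]
  | succ n ih => rw [pow_succ, nn_mul, ih, pow_succ]

theorem nn_star (z : G) : nn (star z) = nn z := by
  have h : (nn (star z) : ℤ) = nn z := by
    rw [nn_eq, nn_eq]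
    simp
  exact_mod_cast h

theorem nn_eq_zero {z : G} : nn z = 0 ↔ z = 0 := by
  unfold nn
  rw [Int.natAbs_eq_zero, Zsqrtd.norm_eq_zero_iff (by norm_num)]

theorem Prim.ne_zero {z : G} (h : Prim z) : z ≠ 0 := by
  rintro rfl
  simp [Prim] at h

theorem Prim.nn_pos {z : G} (h : Prim z) : 0 < nn z :=
  Nat.pos_of_ne_zero fun h0 => h.ne_zero (nn_eq_zero.1 h0)

theorem prim_star {z : G} : Prim (star z) ↔ Prim z := by
  simp [Prim, Int.gcd_neg]

theorem mem_Gb {X : ℕ} {z : G} : z ∈ Gb X ↔ |z.re| ≤ X ∧ |z.im| ≤ X := by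
  unfold Gb
  simp only [mem_image, mem_product, mem_Icc, Prod.exists, abs_le]
  constructor
  · rintro ⟨a, b, ⟨⟨h1, h2⟩, h3, h4⟩, rfl⟩
    exact ⟨⟨h1, h2⟩, h3, h4⟩
  · rintro ⟨⟨h1, h2⟩, h3, h4⟩
    exact ⟨z.re, z.im, ⟨⟨h1, h2⟩, h3, h4⟩, rfl⟩

theorem mem_Gb_of_nn {X : ℕ} {z : G} (h : nn z ≤ X) : z ∈ Gb X := by
  rw [mem_Gb]
  have h1 := nn_eq z
  have h2 : (nn z : ℤ) ≤ X := by exact_mod_cast h
  have h3 : |z.re| ≤ z.re ^ 2 := by rw [← sq_abs]; nlinarith [abs_nonneg z.re, Int.one_le_abs (z := z.re), sq_nonneg (|z.re| - 1), (Int.le_self_sq |z.re|)]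
  have h4 : |z.im| ≤ z.im ^ 2 := by rw [← sq_abs]; nlinarith [abs_nonneg z.im, Int.le_self_sq |z.im|]
  constructor <;> nlinarith [sq_nonneg z.re, sq_nonneg z.im]

end Pool.Agent.H60.FS
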