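import Pool.Agent.H41.Eis.Divisor

/-!
# Fiber: few solutions of `x² = y² + n`

PROOF.  `x² = y² + n`, `n ≥ 1`: `(x - y)(x + y) = n`, `x - y ∈ n.divisors`, and `x - y` determines `x + y = n/(x - y)`, so `x` and `y`.
(1) `{x ∈ S : ∃ y, x² = y² + n}` injects into `n.divisors` by `x ↦ x - y` (the chosen `y`); (2) `{y}` likewise.
(3) `Pool.Agent.H41.Eis.divisor_bound`.  About 50 lines.
-/

set_option autoImplicit false

namespace Pool.Agent.H60.FS

open Finset

private theorem Fiber_fac (n x y : ℕ) (h : x ^ 2 = y ^ 2 + n) : y ≤ x ∧ (x - y) * (x + y) = n := by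
  have h1 : y ≤ x := by
    by_contra hc
    push Not at hc
    have : x ^ 2 ≤ y ^ 2 := Nat.pow_le_pow_left hc.le 2
    nlinarith
  obtain ⟨d, rfl⟩ := Nat.exists_eq_add_of_le h1
  refine ⟨h1, ?_⟩
  have : y + d - y = d := by omega
  rw [this]
  nlinarith

private theorem Fiber_uniq (n x y x' y' : ℕ) (hn : 1 ≤ n) (h : x ^ 2 = y ^ 2 + n) (h' : x' ^ 2 = y' ^ 2 + n)
    (he : x - y = x' - y') : x = x' ∧ y = y' := by
  obtain ⟨h1, h2⟩ := Fiber_fac n x y h
  obtain ⟨h3, h4⟩ := Fiber_fac n x' y' h'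
  rw [← he] at h4
  have hpos : 0 < x - y := by
    rcases Nat.eq_zero_or_pos (x - y) with h0 | h0
    · rw [h0] at h2; simp at h2; omega
    · exact h0
  have h5 : x + y = x' + y' := Nat.eq_of_mul_eq_mul_left hpos (h2.trans h4.symm)
  omega

theorem fiber_x (n : ℕ) (hn : 1 ≤ n) (S : Finset ℕ) (hS : ∀ x ∈ S, ∃ y : ℕ, x ^ 2 = y ^ 2 + n) :
    S.card ≤ n.divisors.card := by
  classical
  choose! f hf using hS
  refine Finset.card_le_card_of_injOn (fun x => x - f x) ?_ ?_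
  · intro x hx
    have h := Fiber_fac n x (f x) (hf x hx)
    simp only [Finset.mem_coe, Nat.mem_divisors]
    exact ⟨⟨x + f x, h.2.symm⟩, by omega⟩
  · intro x hx x' hx' he
    exact (Fiber_uniq n x (f x) x' (f x') hn (hf x hx) (hf x' hx') he).1

theorem fiber_y (n : ℕ) (hn : 1 ≤ n) (S : Finset ℕ) (hS : ∀ y ∈ S, ∃ x : ℕ, x ^ 2 = y ^ 2 + n) :
    S.card ≤ n.divisors.card := by
  classical
  choose! f hf using hS
  refine Finset.card_le_card_of_injOn (fun y => f y - y) ?_ ?_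
  · intro y hy
    have h := Fiber_fac n (f y) y (hf y hy)
    simp only [Finset.mem_coe, Nat.mem_divisors]
    exact ⟨⟨f y + y, h.2.symm⟩, by omega⟩
  · intro y hy y' hy' he
    exact (Fiber_uniq n (f y) y (f y') y' hn (hf y hy) (hf y' hy') he).2

end Pool.Agent.H60.FS
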