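import Pool.Agent.H60.FS.Defs

/-!
# GcdDec: `ζ = P M I`, `ξ = P M̄ J`

PROOF.  (0) A primitive `ζ` of odd norm is coprime to `ζ̄`: the ideal `(ζ, ζ̄)` contains `ζ + ζ̄ = 2x`, `i (ζ̄ - ζ) = 2y`, so `2`
(Bezout for `gcd(x,y) = 1`), and `ζ ζ̄ = N(ζ)`, odd; so it contains `1`.  Divisors of a primitive Gaussian integer are primitive
(an integer dividing the divisor divides `ζ`), and have odd norm.
(1) `P` = gcd of `ζ, ξ` (`EuclideanDomain.gcd` or `gcd`), `M` = gcd of `ζ, ξ̄`.  `P, M` are coprime (`P ∣ ξ`, `M ∣ ξ̄`), so `P M ∣ ζ`;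
`P, M̄` are coprime (`P ∣ ζ`, `M̄ ∣ ζ̄`) so `P M̄ ∣ ξ` (`M̄ ∣ ξ` by conjugation).  This defines `I`, `J`.
(2) `gcd(P M I, P M̄ J) = P` gives `IsCoprime (M I) (M̄ J)` so `IsCoprime I J`; `gcd(P M I, P̄ M J̄) = M` gives
`IsCoprime (P I) (P̄ J̄)` so `IsCoprime I J̄`.  By conjugation `Ī, J̄` and `Ī, J` are coprime.  Hence
`N(I) = I Ī` and `N(J) = J J̄` are coprime in `ℤ[i]`, so `nn I, nn J` are coprime in `ℕ` (a common divisor `n` divides `1` in `ℤ[i]`).
(3) `lcm (nn P nn M nn I) (nn P nn M nn J) = nn P nn M lcm(nn I, nn J) = nn P nn M nn I nn J`.  About 120 lines.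
-/

set_option autoImplicit false

namespace Pool.Agent.H60.FS

private theorem gcdDec_two_bez (z : G) (h : Prim z) (ho : Odd (nn z)) : IsCoprime z (star z) := by
  obtain ⟨x, y⟩ := z
  obtain ⟨k, hk⟩ := ho
  have h0 : IsCoprime x y := by
    rw [Int.isCoprime_iff_gcd_eq_one]
    exact h
  obtain ⟨u, v, huv⟩ := h0
  have h1 : x ^ 2 + y ^ 2 = 2 * (k : ℤ) + 1 := by
    have h2 := nn_eq (⟨x, y⟩ : G)
    rw [hk] at h2
    push_cast at h2
    simpa using h2.symm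
  refine ⟨⟨x - k * u, -y + k * v⟩, ⟨-(k * u), -(k * v)⟩, ?_⟩
  apply Zsqrtd.ext
  · simp only [Zsqrtd.re_add, Zsqrtd.re_mul, Zsqrtd.re_star, Zsqrtd.im_star, Zsqrtd.re_one]
    linear_combination h1 - 2 * k * huv
  · simp only [Zsqrtd.im_add, Zsqrtd.im_mul, Zsqrtd.re_star, Zsqrtd.im_star, Zsqrtd.im_one]
    ring

private theorem gcdDec_prim_dvd {z w : G} (h : Prim w) (hd : z ∣ w) : Prim z := by
  have h1 : ((Int.gcd z.re z.im : ℤ) : G) ∣ z := by
    rw [Zsqrtd.intCast_dvd]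
    exact ⟨Int.gcd_dvd_left _ _, Int.gcd_dvd_right _ _⟩
  have h2 := h1.trans hd
  rw [Zsqrtd.intCast_dvd] at h2
  have h3 : (Int.gcd z.re z.im : ℤ) ∣ (Int.gcd w.re w.im : ℤ) := Int.dvd_coe_gcd h2.1 h2.2
  have h4 : Int.gcd z.re z.im ∣ Int.gcd w.re w.im := by exact_mod_cast h3
  unfold Prim at h ⊢
  rw [h] at h4
  exact Nat.dvd_one.1 h4

private theorem gcdDec_gcd (z w : G) : ∃ d a b : G, d ∣ z ∧ d ∣ w ∧ d = z * a + w * b :=
  ⟨EuclideanDomain.gcd z w, EuclideanDomain.gcdA z w, EuclideanDomain.gcdB z w,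
    EuclideanDomain.gcd_dvd_left z w, EuclideanDomain.gcd_dvd_right z w, EuclideanDomain.gcd_eq_gcd_ab z w⟩

private theorem gcdDec_star_dvd {z w : G} (h : z ∣ w) : star z ∣ star w := by
  obtain ⟨t, rfl⟩ := h
  exact ⟨star t, by rw [star_mul, mul_comm]⟩

private theorem gcdDec_star_cop {z w : G} (h : IsCoprime z w) : IsCoprime (star z) (star w) := by
  obtain ⟨a, b, hab⟩ := h
  refine ⟨star a, star b, ?_⟩
  have h1 := congrArg star hab
  rw [star_add, star_mul, star_mul, star_one] at h1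
  rw [mul_comm (star a), mul_comm (star b)]
  exact h1

private theorem gcdDec_nn (z : G) : ((nn z : ℕ) : G) = z * star z := by
  have h := nn_eq z
  apply Zsqrtd.ext
  · rw [Zsqrtd.re_natCast, h, Zsqrtd.re_mul, Zsqrtd.re_star, Zsqrtd.im_star]
    ring
  · rw [Zsqrtd.im_natCast, Zsqrtd.im_mul, Zsqrtd.re_star, Zsqrtd.im_star]
    ring

private theorem gcdDec_nat {m n : ℕ} (h : IsCoprime (m : G) (n : G)) : Nat.Coprime m n := by
  have h1 : ((Nat.gcd m n : ℕ) : G) ∣ (m : G) := Nat.cast_dvd_cast (Nat.gcd_dvd_left m n)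
  have h2 : ((Nat.gcd m n : ℕ) : G) ∣ (n : G) := Nat.cast_dvd_cast (Nat.gcd_dvd_right m n)
  have h3 : IsUnit ((Nat.gcd m n : ℕ) : G) := h.isUnit_of_dvd' h1 h2
  obtain ⟨t, ht⟩ := isUnit_iff_dvd_one.1 h3
  have h4 : nn ((Nat.gcd m n : ℕ) : G) * nn t = 1 := by
    rw [← nn_mul, ← ht]
    simp [nn]
  have h5 : nn ((Nat.gcd m n : ℕ) : G) = 1 := Nat.eq_one_of_mul_eq_one_right h4
  have h6 := nn_eq ((Nat.gcd m n : ℕ) : G)
  rw [h5, Zsqrtd.re_natCast, Zsqrtd.im_natCast] at h6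
  have h7 : ((Nat.gcd m n : ℕ) : ℤ) ^ 2 = 1 := by simpa using h6.symm
  have h8 : (Nat.gcd m n) ^ 2 = 1 := by exact_mod_cast h7
  have h9 : Nat.gcd m n = 1 := by
    rcases Nat.eq_zero_or_pos (Nat.gcd m n) with h0 | h0
    · rw [h0] at h8
      norm_num at h8
    · nlinarith
  exact h9

theorem gcd_dec (ζ ξ : G) (h1 : Prim ζ) (h2 : Prim ξ) (h3 : Odd (nn ζ)) (h4 : Odd (nn ξ)) :
    ∃ P M I J : G, Prim P ∧ Prim M ∧ Prim I ∧ Prim J ∧ ζ = P * M * I ∧ ξ = P * star M * J ∧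
      Nat.Coprime (nn I) (nn J) := by
  obtain ⟨P, a, b, hP1, hP2, hP⟩ := gcdDec_gcd ζ ξ
  obtain ⟨M, c, d, hM1, hM2, hM⟩ := gcdDec_gcd ζ (star ξ)
  have hM3 : star M ∣ ξ := by
    have h := gcdDec_star_dvd hM2
    rwa [star_star] at h
  have hM4 : star M ∣ star ζ := gcdDec_star_dvd hM1
  have hc1 : IsCoprime ζ (star ζ) := gcdDec_two_bez ζ h1 h3
  have hc2 : IsCoprime ξ (star ξ) := gcdDec_two_bez ξ h2 h4
  have hPM : IsCoprime P M := IsCoprime.of_isCoprime_of_dvd_left (IsCoprime.of_isCoprime_of_dvd_right hc2 hM2) hP2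
  have hPM' : IsCoprime P (star M) :=
    IsCoprime.of_isCoprime_of_dvd_left (IsCoprime.of_isCoprime_of_dvd_right hc1 hM4) hP1
  obtain ⟨I, hI⟩ := hPM.mul_dvd hP1 hM1
  obtain ⟨J, hJ⟩ := hPM'.mul_dvd hP2 hM3
  have hPp : Prim P := gcdDec_prim_dvd h1 hP1
  have hMp : Prim M := gcdDec_prim_dvd h1 hM1
  have hP0 : P ≠ 0 := hPp.ne_zero
  have hM0 : M ≠ 0 := hMp.ne_zero
  have hIp : Prim I := gcdDec_prim_dvd h1 (Dvd.intro_left (P * M) hI.symm)
  have hJp : Prim J := gcdDec_prim_dvd h2 (Dvd.intro_left (P * star M) hJ.symm)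
  have hJs : star ξ = star P * M * star J := by
    rw [hJ, star_mul, star_mul, star_star]
    ring
  have e1 : IsCoprime I J := by
    have h5 : P * (M * I * a + star M * J * b) = P * 1 := by
      have h6 : P = P * M * I * a + P * star M * J * b := by
        conv_lhs => rw [hP]
        rw [← hI, ← hJ]
      rw [mul_one]
      conv_rhs => rw [h6]
      ring
    have h7 := mul_left_cancel₀ hP0 h5
    exact ⟨a * M, b * star M, by rw [← h7]; ring⟩
  have e2 : IsCoprime I (star J) := by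
    have h5 : M * (P * I * c + star P * star J * d) = M * 1 := by
      have h6 : M = P * M * I * c + star P * M * star J * d := by
        conv_lhs => rw [hM]
        rw [← hI, ← hJs]
      rw [mul_one]
      conv_rhs => rw [h6]
      ring
    have h7 := mul_left_cancel₀ hM0 h5
    exact ⟨c * P, d * star P, by rw [← h7]; ring⟩
  have e3 : IsCoprime (star I) (star J) := gcdDec_star_cop e1
  have e4 : IsCoprime (star I) J := by
    have h := gcdDec_star_cop e2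
    rwa [star_star] at h
  refine ⟨P, M, I, J, hPp, hMp, hIp, hJp, hI, hJ, gcdDec_nat ?_⟩
  rw [gcdDec_nn, gcdDec_nn]
  exact IsCoprime.mul_left (IsCoprime.mul_right e1 e2) (IsCoprime.mul_right e4 e3)

end Pool.Agent.H60.FS
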