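import Pool.Agent.H60.FS.Defs

/-!
# Larger: Gallagher's larger sieve on the projective line

PROOF.  For `s = (x, y)` let `cls p s` be `none` if `p ∣ y`, else `x/y ∈ ZMod p`.  If `cls p s = cls p t` then
`p ∣ det(s,t) = s.1 t.2 - s.2 t.1`.  Let `W = ∑_{p ∈ Ps} log p * #{(s,t) ∈ S × S : cls p s = cls p t}`.
Upper bound: the diagonal gives `|S| ∑ log p`; for `s ≠ t` the primes with `p ∣ det`, `det ≠ 0`, `|det| ≤ 2 B²` satisfy
`∑ log p ≤ log |det| ≤ log (2 B²)` (a product of distinct primes dividing `det` divides it, `Finset.prod_primes_dvd`).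
So `W ≤ |S| ∑ log p + |S|² log (2B²)` (note `log (2B²) ≥ 0`).
Lower bound (Cauchy-Schwarz over the fibres of `cls p`, at most `ν p` of them): `#{(s,t)} ≥ |S|²/ν p`
(`Finset.card_eq_sum_card_image`, `inner_mul_le_norm_mul_norm` / `sq_sum_le_card_mul_sum_sq`).
So `|S|² (log(2B²) + 1) ≤ |S| ∑ log p + |S|² log(2B²)`, i.e. `|S| ≤ ∑ log p`.  About 110 lines.
-/

set_option autoImplicit false

namespace Pool.Agent.H60.FS

open Finset

/-- the class of an integer vector in the projective line over `ZMod p` -/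
def cls (p : ℕ) (s : ℤ × ℤ) : Option (ZMod p) :=
  if (s.2 : ZMod p) = 0 then none else some ((s.1 : ZMod p) * (s.2 : ZMod p)⁻¹)

private theorem Larger_dvd {p : ℕ} (hp : p.Prime) {s t : ℤ × ℤ} (h : cls p s = cls p t) :
    (p : ℤ) ∣ s.1 * t.2 - s.2 * t.1 := by
  have := Fact.mk hp
  have h0 : ((s.1 * t.2 - s.2 * t.1 : ℤ) : ZMod p) = 0 := by
    push_cast
    unfold cls at h
    by_cases hs : (s.2 : ZMod p) = 0
    · by_cases ht : (t.2 : ZMod p) = 0
      · rw [hs, ht]; ring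
      · rw [if_pos hs, if_neg ht] at h
        exact absurd h (by simp)
    · by_cases ht : (t.2 : ZMod p) = 0
      · rw [if_neg hs, if_pos ht] at h
        exact absurd h (by simp)
      · rw [if_neg hs, if_neg ht] at h
        have h1 := Option.some.inj h
        have h2 : (s.1 : ZMod p) * (t.2 : ZMod p) = (t.1 : ZMod p) * (s.2 : ZMod p) := by
          have h3 : (s.1 : ZMod p) * (s.2 : ZMod p)⁻¹ * ((s.2 : ZMod p) * (t.2 : ZMod p)) =
              (t.1 : ZMod p) * (t.2 : ZMod p)⁻¹ * ((s.2 : ZMod p) * (t.2 : ZMod p)) := by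
            rw [h1]
          calc (s.1 : ZMod p) * (t.2 : ZMod p)
              = (s.1 : ZMod p) * ((s.2 : ZMod p)⁻¹ * (s.2 : ZMod p)) * (t.2 : ZMod p) := by
                rw [inv_mul_cancel₀ hs, mul_one]
            _ = (s.1 : ZMod p) * (s.2 : ZMod p)⁻¹ * ((s.2 : ZMod p) * (t.2 : ZMod p)) := by ring
            _ = (t.1 : ZMod p) * (t.2 : ZMod p)⁻¹ * ((s.2 : ZMod p) * (t.2 : ZMod p)) := h3
            _ = (t.1 : ZMod p) * ((t.2 : ZMod p)⁻¹ * (t.2 : ZMod p)) * (s.2 : ZMod p) := by ring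
            _ = (t.1 : ZMod p) * (s.2 : ZMod p) := by rw [inv_mul_cancel₀ ht, mul_one]
        rw [h2]; ring
  exact (ZMod.intCast_zmod_eq_zero_iff_dvd _ p).mp h0

private theorem Larger_upper {B : ℝ} {s t : ℤ × ℤ}
    (hs : |(s.1 : ℝ)| ≤ B ∧ |(s.2 : ℝ)| ≤ B) (ht : |(t.1 : ℝ)| ≤ B ∧ |(t.2 : ℝ)| ≤ B)
    (hdet : s.1 * t.2 - s.2 * t.1 ≠ 0) (Ps : Finset ℕ) (hP : ∀ p ∈ Ps, p.Prime) :
    ∑ p ∈ Ps, (if cls p s = cls p t then Real.log p else 0) ≤ Real.log (2 * B ^ 2) := by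
  classical
  rw [← Finset.sum_filter]
  set F := Ps.filter (fun p => cls p s = cls p t) with hF
  have hB0 : 0 ≤ B := le_trans (abs_nonneg _) hs.1
  set D : ℤ := s.1 * t.2 - s.2 * t.1 with hD
  have hprod : (∏ p ∈ F, p) ∣ D.natAbs := by
    apply Finset.prod_primes_dvd
    · intro p hp
      exact Nat.prime_iff.mp (hP p (Finset.mem_filter.mp hp).1)
    · intro p hp
      have h1 := Finset.mem_filter.mp hp
      exact Int.natCast_dvd.mp (Larger_dvd (hP p h1.1) h1.2)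
  have hle : ((∏ p ∈ F, p : ℕ) : ℝ) ≤ |(D : ℝ)| := by
    have h1 := Nat.le_of_dvd (Int.natAbs_pos.mpr hdet) hprod
    calc ((∏ p ∈ F, p : ℕ) : ℝ) ≤ ((D.natAbs : ℕ) : ℝ) := by exact_mod_cast h1
      _ = |(D : ℝ)| := by rw [Nat.cast_natAbs]; push_cast; rfl
  have hDle : |(D : ℝ)| ≤ 2 * B ^ 2 := by
    rw [hD]
    push_cast
    calc |(s.1 : ℝ) * t.2 - s.2 * t.1| ≤ |(s.1 : ℝ) * t.2| + |(s.2 : ℝ) * t.1| := abs_sub _ _
      _ = |(s.1 : ℝ)| * |(t.2 : ℝ)| + |(s.2 : ℝ)| * |(t.1 : ℝ)| := by rw [abs_mul, abs_mul]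
      _ ≤ B * B + B * B := add_le_add
          (mul_le_mul hs.1 ht.2 (abs_nonneg _) hB0) (mul_le_mul hs.2 ht.1 (abs_nonneg _) hB0)
      _ = 2 * B ^ 2 := by ring
  have hpos : ∀ p ∈ F, (0 : ℝ) < (p : ℝ) := fun p hp => by
    exact_mod_cast (hP p (Finset.mem_filter.mp hp).1).pos
  have hlog : ∑ p ∈ F, Real.log p = Real.log (∏ p ∈ F, (p : ℝ)) := by
    rw [Real.log_prod]
    intro p hp
    exact (hpos p hp).ne'
  rw [hlog]
  apply Real.log_le_log (Finset.prod_pos hpos)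
  have e : ((∏ p ∈ F, p : ℕ) : ℝ) = ∏ p ∈ F, (p : ℝ) := by push_cast; rfl
  rw [← e]
  exact hle.trans hDle

private theorem Larger_lower (S : Finset (ℤ × ℤ)) (p : ℕ) {ν : ℝ} (hν : 0 < ν)
    (hcl : ((S.image (cls p)).card : ℝ) ≤ ν) :
    (S.card : ℝ) ^ 2 / ν ≤ ∑ s ∈ S, ∑ t ∈ S, (if cls p s = cls p t then (1 : ℝ) else 0) := by
  classical
  rw [div_le_iff₀ hν]
  set f : Option (ZMod p) → ℝ := fun c => ((S.filter (fun t => cls p t = c)).card : ℝ) with hf
  have h1 : ∑ s ∈ S, ∑ t ∈ S, (if cls p s = cls p t then (1 : ℝ) else 0) =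
      ∑ c ∈ S.image (cls p), f c ^ 2 := by
    have h2 : ∀ s ∈ S, ∑ t ∈ S, (if cls p s = cls p t then (1 : ℝ) else 0) = f (cls p s) := by
      intro s _
      rw [← Finset.sum_filter, Finset.sum_const, nsmul_eq_mul, mul_one, hf]
      congr 2
      ext t
      simp only [Finset.mem_filter]
      constructor
      · rintro ⟨a, b⟩; exact ⟨a, b.symm⟩
      · rintro ⟨a, b⟩; exact ⟨a, b.symm⟩
    rw [Finset.sum_congr rfl h2]
    rw [← Finset.sum_fiberwise_of_maps_to (g := cls p) (t := S.image (cls p))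
      (fun s hs => Finset.mem_image_of_mem _ hs)]
    apply Finset.sum_congr rfl
    intro c _
    have h3 : ∀ s ∈ S.filter (fun t => cls p t = c), f (cls p s) = f c := by
      intro s hs
      rw [(Finset.mem_filter.mp hs).2]
    rw [Finset.sum_congr rfl h3, Finset.sum_const, nsmul_eq_mul, sq]
  have h4 : (S.card : ℝ) = ∑ c ∈ S.image (cls p), f c := by
    have h5 := Finset.card_eq_sum_card_image (cls p) S
    show (S.card : ℝ) = ∑ c ∈ S.image (cls p), ((S.filter (fun t => cls p t = c)).card : ℝ)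
    exact_mod_cast h5
  rw [h1, h4]
  calc (∑ c ∈ S.image (cls p), f c) ^ 2
      ≤ ((S.image (cls p)).card : ℝ) * ∑ c ∈ S.image (cls p), f c ^ 2 :=
        sq_sum_le_card_mul_sum_sq
    _ ≤ ν * ∑ c ∈ S.image (cls p), f c ^ 2 :=
        mul_le_mul_of_nonneg_right hcl (Finset.sum_nonneg fun c _ => sq_nonneg _)
    _ = _ := mul_comm _ _

theorem larger (S : Finset (ℤ × ℤ)) (B : ℝ) (hB : 1 ≤ B)
    (hbox : ∀ s ∈ S, |(s.1 : ℝ)| ≤ B ∧ |(s.2 : ℝ)| ≤ B)
    (hdet : ∀ s ∈ S, ∀ t ∈ S, s ≠ t → s.1 * t.2 - s.2 * t.1 ≠ 0)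
    (Ps : Finset ℕ) (hP : ∀ p ∈ Ps, p.Prime) (ν : ℕ → ℝ) (hν : ∀ p ∈ Ps, 0 < ν p)
    (hcl : ∀ p ∈ Ps, ((S.image (cls p)).card : ℝ) ≤ ν p)
    (hsum : Real.log (2 * B ^ 2) + 1 ≤ ∑ p ∈ Ps, Real.log p / ν p) :
    (S.card : ℝ) ≤ ∑ p ∈ Ps, Real.log p := by
  classical
  have hlogp : ∀ p ∈ Ps, 0 ≤ Real.log (p : ℝ) := fun p hp =>
    Real.log_nonneg (by exact_mod_cast (hP p hp).one_lt.le)
  set Z0 : ℝ := ∑ p ∈ Ps, Real.log p with hS0
  have hZ0 : 0 ≤ Z0 := Finset.sum_nonneg hlogp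
  set lg : ℝ := Real.log (2 * B ^ 2) with hlg
  have hlg0 : 0 ≤ lg := Real.log_nonneg (by nlinarith)
  set n : ℝ := (S.card : ℝ) with hn
  have hn0 : 0 ≤ n := Nat.cast_nonneg _
  set W : ℝ := ∑ p ∈ Ps, Real.log p *
    ∑ s ∈ S, ∑ t ∈ S, (if cls p s = cls p t then (1 : ℝ) else 0) with hW
  have hlow : n ^ 2 * (lg + 1) ≤ W := by
    calc n ^ 2 * (lg + 1) ≤ n ^ 2 * ∑ p ∈ Ps, Real.log p / ν p :=
          mul_le_mul_of_nonneg_left hsum (sq_nonneg _)
      _ = ∑ p ∈ Ps, Real.log p * (n ^ 2 / ν p) := by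
          rw [Finset.mul_sum]
          apply Finset.sum_congr rfl
          intro p _
          ring
      _ ≤ W := by
          rw [hW]
          apply Finset.sum_le_sum
          intro p hp
          exact mul_le_mul_of_nonneg_left (Larger_lower S p (hν p hp) (hcl p hp)) (hlogp p hp)
  have hup : W ≤ n * Z0 + n ^ 2 * lg := by
    have e1 : W = ∑ s ∈ S, ∑ t ∈ S, ∑ p ∈ Ps, (if cls p s = cls p t then Real.log p else 0) := by
      rw [hW]
      simp only [Finset.mul_sum]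
      rw [Finset.sum_comm]
      apply Finset.sum_congr rfl
      intro s _
      rw [Finset.sum_comm]
      apply Finset.sum_congr rfl
      intro t _
      apply Finset.sum_congr rfl
      intro p _
      split_ifs <;> simp
    rw [e1]
    have e2 : ∀ s ∈ S, ∑ t ∈ S, ∑ p ∈ Ps, (if cls p s = cls p t then Real.log p else 0) ≤
        Z0 + n * lg := by
      intro s hs
      have e3 : ∀ t ∈ S, ∑ p ∈ Ps, (if cls p s = cls p t then Real.log p else 0) ≤
          (if t = s then Z0 else 0) + lg := by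
        intro t ht
        by_cases hst : t = s
        · subst hst
          rw [if_pos rfl]
          have : ∑ p ∈ Ps, (if cls p t = cls p t then Real.log (p : ℝ) else 0) = Z0 := by
            rw [hS0]
            apply Finset.sum_congr rfl
            intro p _
            rw [if_pos rfl]
          rw [this]
          linarith
        · rw [if_neg hst, zero_add]
          exact Larger_upper (hbox s hs) (hbox t ht) (hdet s hs t ht (fun h => hst h.symm)) Ps hP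
      calc ∑ t ∈ S, ∑ p ∈ Ps, (if cls p s = cls p t then Real.log p else 0)
          ≤ ∑ t ∈ S, ((if t = s then Z0 else 0) + lg) := Finset.sum_le_sum e3
        _ = Z0 + n * lg := by
            rw [Finset.sum_add_distrib, Finset.sum_ite_eq' S s, if_pos hs, Finset.sum_const,
              nsmul_eq_mul]
    calc ∑ s ∈ S, ∑ t ∈ S, ∑ p ∈ Ps, (if cls p s = cls p t then Real.log p else 0)
        ≤ ∑ s ∈ S, (Z0 + n * lg) := Finset.sum_le_sum e2
      _ = n * Z0 + n ^ 2 * lg := by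
          rw [Finset.sum_const, nsmul_eq_mul, ← hn]
          ring
  have hfin : n ^ 2 ≤ n * Z0 := by nlinarith
  rcases hn0.eq_or_lt with h | h
  · rw [← h]; exact hZ0
  · nlinarith

end Pool.Agent.H60.FS
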