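import Mathlib

/-!
# Lcm3: the smallest of the three cofactors

PROOF.  `d = lcm(n1,n2,n3)` for primitive data: `L = lcm(lcm n1 n2) n3 ∣ d`; if `L ≠ d` take a prime `p ∣ d / L`; then `p ∣ g_i` for
all `i` (`g_i n_i = d = L (d/L)`, `n_i ∣ L`, so `p ∣ g_i`), contradiction.
`l3 = d/lcm(n1,n2)` etc.  `l1 = d / lcm(n2,n3) = lcm(n1, L')/L' = n1/gcd(n1,L')`, `L' = lcm(n2,n3)`, divides `n1/gcd(n1,n2)`
as `gcd(n1,n2) ∣ gcd(n1,L')`.  Let `l` be the smallest of `l1, l2, l3`: if it is `l3`: `l3 ≤ l1 ≤ n1/gcd(n1,n2)`, that is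
`l3 * gcd(n1,n2) ≤ n1` and `l3 * lcm(n1,n2) = d`.  Similarly in the other cases (pair `(1,3)`: `l2 ≤ l1`; pair `(2,3)`: `l1 ≤ l2`).
About 70 lines.
-/

set_option autoImplicit false

namespace Pool.Agent.H60.FS

theorem lcm3 (d n1 n2 n3 g1 g2 g3 : ℕ) (hd : 0 < d) (h1 : g1 * n1 = d) (h2 : g2 * n2 = d) (h3 : g3 * n3 = d)
    (hp : ∀ p : ℕ, p.Prime → ¬ (p ∣ g1 ∧ p ∣ g2 ∧ p ∣ g3)) :
    (∃ l, l * Nat.lcm n1 n2 = d ∧ l * Nat.gcd n1 n2 ≤ n1) ∨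
    (∃ l, l * Nat.lcm n1 n3 = d ∧ l * Nat.gcd n1 n3 ≤ n1) ∨
    (∃ l, l * Nat.lcm n2 n3 = d ∧ l * Nat.gcd n2 n3 ≤ n2) := by
  have hn1 : 0 < n1 := Nat.pos_of_ne_zero (by rintro rfl; omega)
  have hn2 : 0 < n2 := Nat.pos_of_ne_zero (by rintro rfl; omega)
  have hn3 : 0 < n3 := Nat.pos_of_ne_zero (by rintro rfl; omega)
  have e1 : n1 ∣ d := ⟨g1, by rw [← h1, mul_comm]⟩
  have e2 : n2 ∣ d := ⟨g2, by rw [← h2, mul_comm]⟩
  have e3 : n3 ∣ d := ⟨g3, by rw [← h3, mul_comm]⟩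
  -- the lcm of the three is `d`
  have hL : Nat.lcm n1 (Nat.lcm n2 n3) = d := by
    have hdv : Nat.lcm n1 (Nat.lcm n2 n3) ∣ d := Nat.lcm_dvd e1 (Nat.lcm_dvd e2 e3)
    obtain ⟨q, hq⟩ := hdv
    by_cases hq1 : q = 1
    · rw [hq, hq1, mul_one]
    · exfalso
      obtain ⟨p, hpp, hpq⟩ := Nat.exists_prime_and_dvd hq1
      have key : ∀ g n : ℕ, 0 < n → g * n = d → n ∣ Nat.lcm n1 (Nat.lcm n2 n3) → p ∣ g := by
        intro g n hn hg hdv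
        obtain ⟨m, hm⟩ := hdv
        have : n * g = n * (m * q) := by
          rw [mul_comm n g, hg, hq, hm, mul_assoc]
        have h4 : g = m * q := Nat.eq_of_mul_eq_mul_left hn this
        rw [h4]
        exact hpq.mul_left m
      refine hp p hpp ⟨key g1 n1 hn1 h1 (Nat.dvd_lcm_left _ _), key g2 n2 hn2 h2 ?_, key g3 n3 hn3 h3 ?_⟩
      · exact (Nat.dvd_lcm_left _ _).trans (Nat.dvd_lcm_right _ _)
      · exact (Nat.dvd_lcm_right _ _).trans (Nat.dvd_lcm_right _ _)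
  have hL2 : Nat.lcm n2 (Nat.lcm n1 n3) = d := by
    rw [← hL, ← Nat.lcm_assoc, ← Nat.lcm_assoc, Nat.lcm_comm n2 n1]
  -- cofactors
  have cof : ∀ a b : ℕ, 0 < a → 0 < b → Nat.lcm a b = d →
      ∃ l, l * b = d ∧ l * Nat.gcd a b = a := by
    intro a b ha hb hab
    refine ⟨a / Nat.gcd a b, ?_, Nat.div_mul_cancel (Nat.gcd_dvd_left a b)⟩
    have hg : 0 < Nat.gcd a b := Nat.gcd_pos_of_pos_left b ha
    apply Nat.eq_of_mul_eq_mul_left hg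
    rw [← mul_assoc, mul_comm (Nat.gcd a b), Nat.div_mul_cancel (Nat.gcd_dvd_left a b), ← hab, Nat.gcd_mul_lcm]
  obtain ⟨l1, a1, b1⟩ := cof n1 (Nat.lcm n2 n3) hn1 (Nat.lcm_pos hn2 hn3) hL
  obtain ⟨l2, a2, b2⟩ := cof n2 (Nat.lcm n1 n3) hn2 (Nat.lcm_pos hn1 hn3) hL2
  rcases le_total l2 l1 with h | h
  · right; left
    refine ⟨l2, a2, ?_⟩
    calc l2 * Nat.gcd n1 n3 ≤ l1 * Nat.gcd n1 n3 := Nat.mul_le_mul_right _ h
      _ ≤ l1 * Nat.gcd n1 (Nat.lcm n2 n3) :=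
          Nat.mul_le_mul_left _ (Nat.le_of_dvd (Nat.gcd_pos_of_pos_left _ hn1)
            (Nat.gcd_dvd_gcd_of_dvd_right _ (Nat.dvd_lcm_right _ _)))
      _ = n1 := b1
  · right; right
    refine ⟨l1, a1, ?_⟩
    calc l1 * Nat.gcd n2 n3 ≤ l2 * Nat.gcd n2 n3 := Nat.mul_le_mul_right _ h
      _ ≤ l2 * Nat.gcd n2 (Nat.lcm n1 n3) :=
          Nat.mul_le_mul_left _ (Nat.le_of_dvd (Nat.gcd_pos_of_pos_left _ hn2)
            (Nat.gcd_dvd_gcd_of_dvd_right _ (Nat.dvd_lcm_right _ _)))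
      _ = n2 := b2

end Pool.Agent.H60.FS
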