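import Mathlib

/-!
# PosProp: a thin set of divisors leaves a positive proportion
-/

set_option autoImplicit false

namespace Pool.Agent.H60.FS

open Finset

private theorem pp_low (M : ℕ) (k : ℕ) :
    ((Ico 1 (1 + M * k)).filter (fun n => M.Coprime n)).card = k * M.totient := by
  induction k with
  | zero => simp
  | succ k ih =>
    have hsplit : Ico 1 (1 + M * (k + 1)) = Ico 1 (1 + M * k) ∪ Ico (1 + M * k) (1 + M * k + M) := by
      ext x
      simp only [mem_union, mem_Ico]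
      have : M * (k + 1) = M * k + M := by ring
      omega
    have hdis : Disjoint ((Ico 1 (1 + M * k)).filter (fun n => M.Coprime n))
        ((Ico (1 + M * k) (1 + M * k + M)).filter (fun n => M.Coprime n)) := by
      rw [Finset.disjoint_left]
      intro x hx hx'
      simp only [mem_filter, mem_Ico] at hx hx'
      omega
    rw [hsplit, filter_union, card_union_of_disjoint hdis, ih]
    have := Nat.filter_coprime_Ico_eq_totient M (1 + M * k)
    rw [this]
    ring

private theorem pp_up (M x : ℕ) (hM : 0 < M) :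
    (((Icc 1 x).filter (fun n => M.Coprime n)).card : ℝ) ≤
      (M.totient : ℝ) * ((x : ℝ) / M + 1) := by
  have h := Nat.Ico_filter_coprime_le (a := M) 1 x hM.ne'
  have he : Icc 1 x = Ico 1 (1 + x) := by
    ext y; simp only [mem_Icc, mem_Ico]; omega
  rw [he]
  have h2 : (((Ico 1 (1 + x)).filter (fun n => M.Coprime n)).card : ℝ) ≤
      (M.totient : ℝ) * (((x / M : ℕ) : ℝ) + 1) := by exact_mod_cast h
  refine h2.trans ?_
  have h3 : ((x / M : ℕ) : ℝ) ≤ (x : ℝ) / M := Nat.cast_div_le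
  have h4 : (0 : ℝ) ≤ M.totient := Nat.cast_nonneg _
  nlinarith

open Classical in
private theorem pp_dy (D : Set ℕ) (C θ : ℝ)
    (hD : ∀ X : ℕ, 1 ≤ X → (((Icc 1 X).filter (· ∈ D)).card : ℝ) ≤ C * (X : ℝ) ^ θ) (J L : ℕ) :
    ∑ d ∈ (Ioc (2 ^ J) (2 ^ (J + L))).filter (· ∈ D), (1 : ℝ) / d ≤
      ∑ j ∈ range L, C * (2 : ℝ) ^ θ * ((2 : ℝ) ^ (θ - 1)) ^ (J + j) := by
  induction L with
  | zero => simp
  | succ L ih =>
    rw [Finset.sum_range_succ]
    have hsub : (Ioc (2 ^ J) (2 ^ (J + (L + 1)))).filter (· ∈ D) =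
        (Ioc (2 ^ J) (2 ^ (J + L))).filter (· ∈ D) ∪
          (Ioc (2 ^ (J + L)) (2 ^ (J + L + 1))).filter (· ∈ D) := by
      rw [← filter_union]
      congr 1
      ext x
      simp only [mem_union, mem_Ioc]
      have h1 : 2 ^ J ≤ 2 ^ (J + L) := Nat.pow_le_pow_right (by norm_num) (by omega)
      have h2 : 2 ^ (J + L) ≤ 2 ^ (J + L + 1) := Nat.pow_le_pow_right (by norm_num) (by omega)
      have h3 : J + (L + 1) = J + L + 1 := by ring
      rw [h3]
      omega
    have hdis : Disjoint ((Ioc (2 ^ J) (2 ^ (J + L))).filter (· ∈ D))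
        ((Ioc (2 ^ (J + L)) (2 ^ (J + L + 1))).filter (· ∈ D)) := by
      rw [Finset.disjoint_left]
      intro x hx hx'
      simp only [mem_filter, mem_Ioc] at hx hx'
      omega
    rw [hsub, Finset.sum_union hdis]
    refine add_le_add ih ?_
    have hpos : (0 : ℝ) < (2 : ℝ) ^ (J + L) := by positivity
    have hcard : ((((Ioc (2 ^ (J + L)) (2 ^ (J + L + 1))).filter (· ∈ D)).card : ℕ) : ℝ) ≤
        C * (((2 ^ (J + L + 1) : ℕ) : ℝ)) ^ θ := by
      refine le_trans ?_ (hD (2 ^ (J + L + 1)) Nat.one_le_two_pow)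
      exact_mod_cast Finset.card_le_card (Finset.filter_subset_filter _ (by
        intro x hx
        simp only [mem_Ioc, mem_Icc] at hx ⊢
        exact ⟨by have := Nat.one_le_two_pow (n := J + L); omega, hx.2⟩))
    calc ∑ d ∈ (Ioc (2 ^ (J + L)) (2 ^ (J + L + 1))).filter (· ∈ D), (1 : ℝ) / d
        ≤ ∑ _d ∈ (Ioc (2 ^ (J + L)) (2 ^ (J + L + 1))).filter (· ∈ D), (1 : ℝ) / (2 : ℝ) ^ (J + L) := by
          refine Finset.sum_le_sum fun d hd => ?_
          simp only [mem_filter, mem_Ioc] at hd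
          have : ((2 : ℝ) ^ (J + L)) ≤ (d : ℝ) := by exact_mod_cast hd.1.1.le
          exact one_div_le_one_div_of_le hpos this
      _ = (((Ioc (2 ^ (J + L)) (2 ^ (J + L + 1))).filter (· ∈ D)).card : ℝ) *
            ((1 : ℝ) / (2 : ℝ) ^ (J + L)) := by rw [Finset.sum_const, nsmul_eq_mul]
      _ ≤ (C * (((2 ^ (J + L + 1) : ℕ) : ℝ)) ^ θ) * ((1 : ℝ) / (2 : ℝ) ^ (J + L)) :=
          mul_le_mul_of_nonneg_right hcard (by positivity)
      _ = C * (2 : ℝ) ^ θ * ((2 : ℝ) ^ (θ - 1)) ^ (J + L) := by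
          have e1 : (((2 ^ (J + L + 1) : ℕ) : ℝ)) ^ θ = (2 : ℝ) ^ θ * ((2 : ℝ) ^ θ) ^ (J + L) := by
            push_cast
            rw [← Real.rpow_natCast (2 : ℝ) (J + L + 1), ← Real.rpow_natCast ((2 : ℝ) ^ θ) (J + L),
              ← Real.rpow_mul (by norm_num), ← Real.rpow_mul (by norm_num),
              ← Real.rpow_add (by norm_num)]
            congr 1
            push_cast
            ring
          have e2 : ((2 : ℝ) ^ (θ - 1)) = (2 : ℝ) ^ θ / 2 := by
            rw [Real.rpow_sub (by norm_num), Real.rpow_one]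
          rw [e1, e2, div_pow]
          field_simp

open Classical in
theorem pos_prop (D : Set ℕ) (h0 : 0 ∉ D) (h1 : 1 ∉ D) (C θ : ℝ) (hθ0 : 0 < θ) (hθ : θ < 1)
    (hD : ∀ X : ℕ, 1 ≤ X → (((Icc 1 X).filter (· ∈ D)).card : ℝ) ≤ C * (X : ℝ) ^ θ) :
    ∃ c : ℝ, 0 < c ∧ ∃ N0 : ℕ, ∀ N : ℕ, N0 ≤ N →
      c * (N : ℝ) ≤ (((Icc 1 N).filter fun n => ∀ d ∈ D, ¬ d ∣ n).card : ℝ) := by
  have hC : 0 ≤ C := by
    have h := hD 1 le_rfl
    have h' : (0 : ℝ) ≤ (((Icc 1 1).filter (· ∈ D)).card : ℝ) := Nat.cast_nonneg _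
    simpa using h'.trans h
  set r : ℝ := (2 : ℝ) ^ (θ - 1) with hr
  have hr0 : 0 < r := by rw [hr]; positivity
  have hr1 : r < 1 := by
    rw [hr]
    exact Real.rpow_lt_one_of_one_lt_of_neg (by norm_num) (by linarith)
  -- choice of J
  obtain ⟨J, hJ⟩ : ∃ J : ℕ, C * (2 : ℝ) ^ θ * (r ^ J * (1 - r)⁻¹) ≤ 1 / 4 := by
    have ht : Filter.Tendsto (fun J : ℕ => C * (2 : ℝ) ^ θ * (r ^ J * (1 - r)⁻¹)) Filter.atTop
        (nhds (C * (2 : ℝ) ^ θ * (0 * (1 - r)⁻¹))) :=
      ((tendsto_pow_atTop_nhds_zero_of_lt_one hr0.le hr1).mul_const _).const_mul _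
    have : (C * (2 : ℝ) ^ θ * (0 * (1 - r)⁻¹)) < 1 / 4 := by simp
    obtain ⟨J, hJ⟩ := (ht.eventually (gt_mem_nhds this)).exists
    exact ⟨J, hJ.le⟩
  have hsum : ∀ N : ℕ, ∑ d ∈ (Ioc (2 ^ J) N).filter (· ∈ D), (1 : ℝ) / d ≤ 1 / 4 := by
    intro N
    have hN : N ≤ 2 ^ (J + N) :=
      (Nat.lt_two_pow_self (n := N)).le.trans (Nat.pow_le_pow_right (by norm_num) (by omega))
    calc ∑ d ∈ (Ioc (2 ^ J) N).filter (· ∈ D), (1 : ℝ) / d
        ≤ ∑ d ∈ (Ioc (2 ^ J) (2 ^ (J + N))).filter (· ∈ D), (1 : ℝ) / d := by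
          refine Finset.sum_le_sum_of_subset_of_nonneg (Finset.filter_subset_filter _
            (Finset.Ioc_subset_Ioc_right hN)) (fun i _ _ => by positivity)
      _ ≤ ∑ j ∈ range N, C * (2 : ℝ) ^ θ * r ^ (J + j) := pp_dy D C θ hD J N
      _ = C * (2 : ℝ) ^ θ * (r ^ J * ∑ j ∈ range N, r ^ j) := by
          rw [Finset.mul_sum, Finset.mul_sum]
          refine Finset.sum_congr rfl fun j _ => by rw [pow_add]
      _ ≤ C * (2 : ℝ) ^ θ * (r ^ J * (1 - r)⁻¹) := by
          refine mul_le_mul_of_nonneg_left (mul_le_mul_of_nonneg_left ?_ (by positivity))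
            (by positivity)
          have h := (summable_geometric_of_lt_one hr0.le hr1).sum_le_tsum (range N)
            (fun i _ => by positivity)
          rwa [tsum_geometric_of_lt_one hr0.le hr1] at h
      _ ≤ 1 / 4 := hJ
  set T : ℕ := 2 ^ J with hT
  set M : ℕ := T.factorial with hM
  have hMpos : 0 < M := Nat.factorial_pos _
  have hMR : (0 : ℝ) < M := by exact_mod_cast hMpos
  have hφ : 0 < M.totient := Nat.totient_pos.2 hMpos
  have hφR : (0 : ℝ) < M.totient := by exact_mod_cast hφ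
  refine ⟨M.totient / M / 2, by positivity, ?_⟩
  -- N0
  have hev : ∀ᶠ N : ℕ in Filter.atTop, C * M * (N : ℝ) ^ (θ - 1) ≤ 1 / 8 := by
    have ht : Filter.Tendsto (fun N : ℕ => C * M * (N : ℝ) ^ (θ - 1)) Filter.atTop
        (nhds (C * M * 0)) := by
      have h := (tendsto_rpow_neg_atTop (y := 1 - θ) (by linarith)).comp
        (tendsto_natCast_atTop_atTop (R := ℝ))
      have e : (fun N : ℕ => (N : ℝ) ^ (θ - 1)) = (fun x : ℝ => x ^ (-(1 - θ))) ∘ (Nat.cast : ℕ → ℝ) := by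
        funext N
        simp only [Function.comp]
        congr 1
        ring
      rw [← e] at h
      exact h.const_mul _
    have h' : C * M * 0 < (1 / 8 : ℝ) := by simp
    exact (ht.eventually (gt_mem_nhds h')).mono fun N h => h.le
  obtain ⟨N1, hN1⟩ := Filter.eventually_atTop.1 hev
  refine ⟨max N1 (8 * M), fun N hN => ?_⟩
  have hN1' : N1 ≤ N := (le_max_left _ _).trans hN
  have hN8 : 8 * M ≤ N := (le_max_right _ _).trans hN
  have hNpos : 0 < N := by omega
  have hNR : (0 : ℝ) < N := by exact_mod_cast hNpos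
  -- the set of coprime n
  set S : Finset ℕ := (Icc 1 N).filter (fun n => M.Coprime n) with hS
  have hSlow : (M.totient : ℝ) * ((N : ℝ) / M - 1) ≤ (S.card : ℝ) := by
    have h := pp_low M (N / M)
    have hsub : (Ico 1 (1 + M * (N / M))).filter (fun n => M.Coprime n) ⊆ S := by
      refine Finset.filter_subset_filter _ ?_
      intro x hx
      simp only [mem_Ico, mem_Icc] at hx ⊢
      have := Nat.mul_div_le N M
      omega
    have h2 := Finset.card_le_card hsub
    rw [h] at h2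
    have h3 : (N : ℝ) / M - 1 ≤ ((N / M : ℕ) : ℝ) := by
      have h5 : N < M * (N / M) + M := by
        have h6 := Nat.mod_lt N hMpos
        have h7 := Nat.div_add_mod N M
        omega
      have h8 : (N : ℝ) < M * ((N / M : ℕ) : ℝ) + M := by exact_mod_cast h5
      rw [sub_le_iff_le_add, div_le_iff₀ hMR]
      nlinarith
    have h4 : (((N / M : ℕ) : ℝ)) * M.totient ≤ (S.card : ℝ) := by exact_mod_cast h2
    nlinarith
  -- bad
  set B : Finset ℕ := (Ioc T N).filter (· ∈ D) with hB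
  have hcov : S ⊆ ((Icc 1 N).filter fun n => ∀ d ∈ D, ¬ d ∣ n) ∪
      B.biUnion (fun d => S.filter (fun n => d ∣ n)) := by
    intro n hn
    have hn' := hn
    simp only [hS, mem_filter, mem_Icc] at hn'
    rw [mem_union]
    by_cases hg : ∀ d ∈ D, ¬ d ∣ n
    · left
      simp only [mem_filter, mem_Icc]
      exact ⟨hn'.1, hg⟩
    · right
      push Not at hg
      obtain ⟨d, hdD, hdn⟩ := hg
      rw [mem_biUnion]
      refine ⟨d, ?_, by simp only [mem_filter]; exact ⟨hn, hdn⟩⟩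
      have hdN : d ≤ N := (Nat.le_of_dvd (by omega) hdn).trans hn'.1.2
      have hd0 : d ≠ 0 := fun h => h0 (h ▸ hdD)
      have hd1 : d ≠ 1 := fun h => h1 (h ▸ hdD)
      have hTd : T < d := by
        by_contra hle
        have hdM : d ∣ M := Nat.dvd_factorial (by omega) (by omega)
        have := Nat.dvd_gcd hdM hdn
        rw [hn'.2.gcd_eq_one] at this
        exact hd1 (Nat.dvd_one.1 this)
      simp only [hB, mem_filter, mem_Ioc]
      exact ⟨⟨hTd, hdN⟩, hdD⟩
  have hbad : ∀ d ∈ B, ((S.filter (fun n => d ∣ n)).card : ℝ) ≤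
      (M.totient : ℝ) * ((N : ℝ) / M * (1 / d) + 1) := by
    intro d hd
    simp only [hB, mem_filter, mem_Ioc] at hd
    have hd0 : 0 < d := lt_of_le_of_lt (Nat.zero_le _) hd.1.1
    have hle : (S.filter (fun n => d ∣ n)).card ≤ ((Icc 1 (N / d)).filter (fun n => M.Coprime n)).card := by
      refine Finset.card_le_card_of_injOn (fun n => n / d) ?_ ?_
      · intro n hn
        simp only [Finset.coe_filter, Set.mem_ofPred_eq, hS, mem_filter, mem_Icc] at hn ⊢
        obtain ⟨⟨⟨hn1, hnN⟩, hco⟩, hdn⟩ := hn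
        obtain ⟨m, rfl⟩ := hdn
        rw [Nat.mul_div_cancel_left _ hd0]
        refine ⟨⟨?_, ?_⟩, hco.coprime_dvd_right (Dvd.intro_left d rfl)⟩
        · rcases Nat.eq_zero_or_pos m with h | h
          · rw [h] at hn1; simp at hn1
          · exact h
        · rw [Nat.le_div_iff_mul_le hd0]
          linarith [mul_comm m d]
      · intro a ha b hb hab
        simp only [Finset.coe_filter, Set.mem_ofPred_eq] at ha hb
        obtain ⟨a', rfl⟩ := ha.2
        obtain ⟨b', rfl⟩ := hb.2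
        simp only [Nat.mul_div_cancel_left _ hd0] at hab
        rw [hab]
    have h2 := pp_up M (N / d) hMpos
    have h3 : ((N / d : ℕ) : ℝ) ≤ (N : ℝ) / d := Nat.cast_div_le
    have h4 : ((S.filter (fun n => d ∣ n)).card : ℝ) ≤
        (((Icc 1 (N / d)).filter (fun n => M.Coprime n)).card : ℝ) := by exact_mod_cast hle
    refine h4.trans (h2.trans ?_)
    refine mul_le_mul_of_nonneg_left ?_ hφR.le
    have h5 : ((N / d : ℕ) : ℝ) / M ≤ (N : ℝ) / d / M := div_le_div_of_nonneg_right h3 hMR.le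
    have h6 : (N : ℝ) / M * (1 / d) = (N : ℝ) / d / M := by ring
    rw [h6]
    linarith
  have hBcard : (B.card : ℝ) ≤ C * (N : ℝ) ^ θ := by
    refine le_trans ?_ (hD N hNpos)
    exact_mod_cast Finset.card_le_card (Finset.filter_subset_filter _ (by
      intro x hx
      simp only [mem_Ioc, mem_Icc] at hx ⊢
      exact ⟨Nat.one_le_iff_ne_zero.2 (Nat.ne_zero_of_lt hx.1), hx.2⟩))
  have htot : ((B.biUnion (fun d => S.filter (fun n => d ∣ n))).card : ℝ) ≤
      (M.totient : ℝ) * ((N : ℝ) / M * (1 / 4) + C * (N : ℝ) ^ θ) := by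
    calc ((B.biUnion (fun d => S.filter (fun n => d ∣ n))).card : ℝ)
        ≤ ((∑ d ∈ B, (S.filter (fun n => d ∣ n)).card : ℕ) : ℝ) := by
          exact_mod_cast Finset.card_biUnion_le
      _ = ∑ d ∈ B, ((S.filter (fun n => d ∣ n)).card : ℝ) := by push_cast; rfl
      _ ≤ ∑ d ∈ B, (M.totient : ℝ) * ((N : ℝ) / M * (1 / d) + 1) := Finset.sum_le_sum hbad
      _ = (M.totient : ℝ) * ((N : ℝ) / M * (∑ d ∈ B, (1 : ℝ) / d) + B.card) := by
          rw [← Finset.mul_sum, Finset.sum_add_distrib, ← Finset.mul_sum]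
          simp
      _ ≤ (M.totient : ℝ) * ((N : ℝ) / M * (1 / 4) + C * (N : ℝ) ^ θ) := by
          refine mul_le_mul_of_nonneg_left (add_le_add (mul_le_mul_of_nonneg_left (hsum N)
            (by positivity)) hBcard) hφR.le
  have hfin : (S.card : ℝ) ≤ (((Icc 1 N).filter fun n => ∀ d ∈ D, ¬ d ∣ n).card : ℝ) +
      ((B.biUnion (fun d => S.filter (fun n => d ∣ n))).card : ℝ) := by
    exact_mod_cast (Finset.card_le_card hcov).trans (Finset.card_union_le _ _)
  have hpow : C * (N : ℝ) ^ θ ≤ (N : ℝ) / M * (1 / 8) := by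
    have h := hN1 N hN1'
    have e : (N : ℝ) ^ θ = (N : ℝ) ^ (θ - 1) * N := by
      rw [Real.rpow_sub_one hNR.ne']
      field_simp
    rw [e]
    rw [div_mul_eq_mul_div, le_div_iff₀ hMR]
    nlinarith
  have hM8 : (1 : ℝ) ≤ (N : ℝ) / M * (1 / 8) := by
    have h : (8 : ℝ) * M ≤ N := by exact_mod_cast hN8
    rw [div_mul_eq_mul_div, le_div_iff₀ hMR]
    linarith
  have hkey : (M.totient : ℝ) * ((N : ℝ) / M * (1 / 2)) ≤
      (M.totient : ℝ) * ((N : ℝ) / M - 1) - (M.totient : ℝ) * ((N : ℝ) / M * (1 / 4) + C * (N : ℝ) ^ θ) := by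
    rw [← mul_sub]
    refine mul_le_mul_of_nonneg_left ?_ hφR.le
    linarith
  have e : (M.totient : ℝ) / M / 2 * (N : ℝ) = (M.totient : ℝ) * ((N : ℝ) / M * (1 / 2)) := by ring
  rw [e]
  linarith

end Pool.Agent.H60.FS
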