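import Pool.Agent.H60.FS.QuadCount
import Pool.Agent.H60.FS.PosProp

/-!
# Main: a positive proportion of the integers is not the largest member of a solution
-/

set_option autoImplicit false

namespace Pool.Agent.H60.FS

open Finset

/-- all solutions of Q1 -/
def Sol0 (a b c d : ℕ) : Prop :=
  0 < a ∧ a < b ∧ b < c ∧ c < d ∧
    (∃ t, b ^ 2 = a ^ 2 + t ^ 2) ∧ (∃ t, c ^ 2 = a ^ 2 + t ^ 2) ∧ (∃ t, d ^ 2 = a ^ 2 + t ^ 2) ∧
    (∃ t, c ^ 2 = b ^ 2 + t ^ 2) ∧ (∃ t, d ^ 2 = b ^ 2 + t ^ 2) ∧ (∃ t, d ^ 2 = c ^ 2 + t ^ 2)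

private theorem sq_div {g x y : ℕ} (hg : 0 < g) (h : ∃ t, (g * x) ^ 2 = (g * y) ^ 2 + t ^ 2) :
    ∃ t, x ^ 2 = y ^ 2 + t ^ 2 := by
  obtain ⟨t, ht⟩ := h
  have h1 : g ^ 2 ∣ t ^ 2 := by
    have h2 : g ^ 2 ∣ (g * y) ^ 2 + t ^ 2 := by
      rw [← ht, mul_pow]
      exact dvd_mul_right _ _
    have h3 : g ^ 2 ∣ (g * y) ^ 2 := by
      rw [mul_pow]
      exact dvd_mul_right _ _
    exact (Nat.dvd_add_right h3).1 h2
  obtain ⟨s, rfl⟩ := (Nat.pow_dvd_pow_iff (by norm_num)).1 h1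
  refine ⟨s, ?_⟩
  have h4 : g ^ 2 * x ^ 2 = g ^ 2 * (y ^ 2 + s ^ 2) := by
    rw [mul_pow, mul_pow, mul_pow] at ht
    rw [ht]
    ring
  exact Nat.eq_of_mul_eq_mul_left (by positivity) h4

/-- a solution is a multiple of a primitive one -/
theorem prim_of (a b c d : ℕ) (h : Sol0 a b c d) : ∃ a' b' c' d', Sol a' b' c' d' ∧ d' ∣ d := by
  obtain ⟨ha, hab, hbc, hcd, e1, e2, e3, e4, e5, e6⟩ := h
  set g := Nat.gcd (Nat.gcd a b) (Nat.gcd c d) with hg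
  have hg0 : 0 < g := Nat.gcd_pos_of_pos_left _ (Nat.gcd_pos_of_pos_left _ ha)
  obtain ⟨a', h1⟩ : g ∣ a := (Nat.gcd_dvd_left _ _).trans (Nat.gcd_dvd_left _ _)
  obtain ⟨b', h2⟩ : g ∣ b := (Nat.gcd_dvd_left _ _).trans (Nat.gcd_dvd_right _ _)
  obtain ⟨c', h3⟩ : g ∣ c := (Nat.gcd_dvd_right _ _).trans (Nat.gcd_dvd_left _ _)
  obtain ⟨d', h4⟩ : g ∣ d := (Nat.gcd_dvd_right _ _).trans (Nat.gcd_dvd_right _ _)
  have hgg : g = g * Nat.gcd (Nat.gcd a' b') (Nat.gcd c' d') := by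
    conv_lhs => rw [hg, h1, h2, h3, h4]
    rw [Nat.gcd_mul_left, Nat.gcd_mul_left, Nat.gcd_mul_left]
  have hg1 : Nat.gcd (Nat.gcd a' b') (Nat.gcd c' d') = 1 := by
    have h5 : g * Nat.gcd (Nat.gcd a' b') (Nat.gcd c' d') = g * 1 := by rw [← hgg, mul_one]
    exact Nat.eq_of_mul_eq_mul_left hg0 h5
  rw [h1] at ha hab e1 e2 e3
  rw [h2] at hab hbc e1 e4 e5
  rw [h3] at hbc hcd e2 e4 e6
  rw [h4] at hcd e3 e5 e6
  refine ⟨a', b', c', d', ⟨Nat.pos_of_ne_zero fun h0 => by rw [h0] at ha; simp at ha,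
    Nat.lt_of_mul_lt_mul_left hab, Nat.lt_of_mul_lt_mul_left hbc, Nat.lt_of_mul_lt_mul_left hcd, hg1, sq_div hg0 e1,
    sq_div hg0 e2, sq_div hg0 e3, sq_div hg0 e4, sq_div hg0 e5, sq_div hg0 e6⟩, ⟨g, by rw [h4]; ring⟩⟩

open Classical in
theorem main_thm :
    (∀ ε : ℝ, 0 < ε → ∃ C : ℝ, ∀ X : ℕ, 1 ≤ X →
      (((Icc 1 X ×ˢ Icc 1 X ×ˢ Icc 1 X ×ˢ Icc 1 X).filter
        fun q : ℕ × ℕ × ℕ × ℕ => Sol q.1 q.2.1 q.2.2.1 q.2.2.2).card : ℝ) ≤ C * (X : ℝ) ^ (9 / 10 + ε)) ∧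
    ∃ κ : ℝ, 0 < κ ∧ ∃ N0 : ℕ, ∀ N : ℕ, N0 ≤ N →
      κ * (N : ℝ) ≤ (((Icc 1 N).filter fun d => ¬ ∃ a b c, Sol0 a b c d).card : ℝ) := by
  refine ⟨fun ε hε => ?_, ?_⟩
  · obtain ⟨C, -, h⟩ := quad_count ε hε
    refine ⟨C, fun X hX => h X hX _ fun q hq => ?_⟩
    obtain ⟨h1, h2⟩ := Finset.mem_filter.1 hq
    simp only [Finset.mem_product, Finset.mem_Icc] at h1
    exact ⟨h2, h1.2.2.2.2⟩
  · obtain ⟨C, hC, h⟩ := quad_count (1 / 20) (by norm_num)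
    set D : Set ℕ := {d | ∃ a b c, Sol a b c d} with hD
    have hlt : ∀ {a b c d : ℕ}, Sol a b c d → 3 < d := by
      intro a b c d hs
      have h1 := hs.1
      have h2 := hs.2.1
      have h3 := hs.2.2.1
      have h4 := hs.2.2.2.1
      omega
    obtain ⟨κ, hκ, N0, hN0⟩ := pos_prop D (by
        rintro ⟨a, b, c, hs⟩
        have := hlt hs
        omega) (by
        rintro ⟨a, b, c, hs⟩
        have := hlt hs
        omega) C (9 / 10 + 1 / 20) (by norm_num) (by norm_num) (by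
        intro X hX
        have hex : ∀ d ∈ (Icc 1 X).filter (· ∈ D), ∃ q : ℕ × ℕ × ℕ × ℕ, Sol q.1 q.2.1 q.2.2.1 q.2.2.2 ∧
            q.2.2.2 = d := by
          intro d hd
          obtain ⟨a, b, c, hs⟩ := (Finset.mem_filter.1 hd).2
          exact ⟨(a, b, c, d), hs, rfl⟩
        choose! f hf using hex
        have hinj : Set.InjOn f (((Icc 1 X).filter (· ∈ D) : Finset ℕ) : Set ℕ) := by
          intro d hd d' hd' hdd
          rw [← (hf d hd).2, ← (hf d' hd').2, hdd]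
        rw [← Finset.card_image_of_injOn hinj]
        refine h X hX _ fun q hq => ?_
        obtain ⟨d, hd, rfl⟩ := Finset.mem_image.1 hq
        refine ⟨(hf d hd).1, ?_⟩
        rw [(hf d hd).2]
        exact (Finset.mem_Icc.1 (Finset.mem_filter.1 hd).1).2)
    refine ⟨κ, hκ, N0, fun N hN => (hN0 N hN).trans ?_⟩
    have hsub : ((Icc 1 N).filter fun n => ∀ d ∈ D, ¬ d ∣ n) ⊆ (Icc 1 N).filter fun d => ¬ ∃ a b c, Sol0 a b c d := by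
      intro n hn
      obtain ⟨h1, h2⟩ := Finset.mem_filter.1 hn
      refine Finset.mem_filter.2 ⟨h1, ?_⟩
      rintro ⟨a, b, c, hs⟩
      obtain ⟨a', b', c', d', hs', hdvd⟩ := prim_of a b c n hs
      exact h2 d' ⟨a', b', c', hs'⟩ hdvd
    exact_mod_cast Finset.card_le_card hsub

end Pool.Agent.H60.FS
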