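import Pool.Agent.H60.FS.Larger
import Pool.Agent.H45.WB.Chs

/-!
# NuCount: a quartic form is a square in at most half of the classes mod `p`

PROOF.  (1) `nu_count`: for `x` in the field `ZMod p` the indicator of `IsSquare x` is `(1 + χ x + [x = 0])/2`, `χ` the
quadratic character (`quadraticChar_one_iff_isSquare`, `quadraticChar_eq_zero_iff`); sum over `t` with
`Pool.Agent.H45.WB.char_sum` (`|∑ χ (f t)| ≤ 11 deg f √p ≤ 44 √p`; `64 (deg + 1)^2 ≤ 1600 ≤ p`) and at most `4` roots:
`≤ (p + 44 √p + 4)/2`.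
(2) `classes`: if `p ∤ y` and `fv c x y` is a square then `(fp c p).eval (x/y) = fv c x y / y^4` is a square mod `p`; so the image of
`cls p` is contained in `{none} ∪ some '' {t | IsSquare ((fp c p).eval t)}`.  About 80 lines.
-/

set_option autoImplicit false

namespace Pool.Agent.H60.FS

open Finset Polynomial

/-- binary quartic form -/
def fv (c : Fin 5 → ℤ) (x y : ℤ) : ℤ :=
  c 0 * y ^ 4 + c 1 * (x * y ^ 3) + c 2 * (x ^ 2 * y ^ 2) + c 3 * (x ^ 3 * y) + c 4 * x ^ 4

/-- its dehomogenisation mod `p` -/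
noncomputable def fp (c : Fin 5 → ℤ) (p : ℕ) : (ZMod p)[X] :=
  C (c 0 : ZMod p) + C (c 1 : ZMod p) * X + C (c 2 : ZMod p) * X ^ 2 + C (c 3 : ZMod p) * X ^ 3 + C (c 4 : ZMod p) * X ^ 4

private theorem NuCount_pt {p : ℕ} [Fact p.Prime] [DecidableEq (ZMod p)] (hp : ringChar (ZMod p) ≠ 2) (x : ZMod p)
    [Decidable (IsSquare x)] :
    (2 : ℝ) * (if IsSquare x then (1 : ℝ) else 0) =
      1 + ((quadraticChar (ZMod p) x : ℤ) : ℝ) + (if x = 0 then (1 : ℝ) else 0) := by
  by_cases hx : x = 0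
  · subst hx
    have h1 : IsSquare (0 : ZMod p) := ⟨0, by simp⟩
    have h2 : quadraticChar (ZMod p) (0 : ZMod p) = 0 := quadraticChar_eq_zero_iff.2 rfl
    rw [if_pos h1, if_pos rfl, h2]
    norm_num
  · by_cases hs : IsSquare x
    · have h2 : quadraticChar (ZMod p) x = 1 := (quadraticChar_one_iff_isSquare hx).2 hs
      rw [if_pos hs, if_neg hx, h2]
      norm_num
    · have h2 : quadraticChar (ZMod p) x = -1 := quadraticChar_neg_one_iff_not_isSquare.2 hs
      rw [if_neg hs, if_neg hx, h2]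
      norm_num

open Classical in
theorem nu_count (p : ℕ) [Fact p.Prime] (hp : 1600 ≤ p) (f : (ZMod p)[X]) (hf : Squarefree f)
    (h1 : 1 ≤ f.natDegree) (h4 : f.natDegree ≤ 4) :
    ((univ.filter fun t : ZMod p => IsSquare (f.eval t)).card : ℝ) ≤ (p : ℝ) / 2 + 22 * √(p : ℝ) + 2 := by
  have hodd : ringChar (ZMod p) ≠ 2 := by
    rw [ZMod.ringChar_zmod_n]
    omega
  have hcard : Fintype.card (ZMod p) = p := ZMod.card p
  have hQ : 64 * (f.natDegree + 1) ^ 2 ≤ Fintype.card (ZMod p) := by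
    rw [hcard]
    have h5 : (f.natDegree + 1) ^ 2 ≤ 5 ^ 2 := Nat.pow_le_pow_left (by omega) 2
    omega
  have hcs := Pool.Agent.H45.WB.char_sum hodd f hf h1 hQ
  rw [hcard] at hcs
  have hf0 : f ≠ 0 := hf.ne_zero
  have hroots : ((univ.filter fun t : ZMod p => f.eval t = 0).card : ℝ) ≤ 4 := by
    have h2 : (univ.filter fun t : ZMod p => f.eval t = 0) ⊆ f.roots.toFinset := by
      intro t ht
      rw [Multiset.mem_toFinset, mem_roots hf0]
      exact (mem_filter.1 ht).2
    have h3 : (univ.filter fun t : ZMod p => f.eval t = 0).card ≤ 4 :=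
      (Finset.card_le_card h2).trans ((Multiset.toFinset_card_le _).trans ((card_roots' f).trans h4))
    exact_mod_cast h3
  have hN : ((univ.filter fun t : ZMod p => IsSquare (f.eval t)).card : ℝ) =
      ∑ t : ZMod p, (if IsSquare (f.eval t) then (1 : ℝ) else 0) := by
    rw [Finset.card_filter]
    push_cast
    rfl
  have hZ : ((univ.filter fun t : ZMod p => f.eval t = 0).card : ℝ) =
      ∑ t : ZMod p, (if f.eval t = 0 then (1 : ℝ) else 0) := by
    rw [Finset.card_filter]
    push_cast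
    rfl
  have hsum : 2 * ((univ.filter fun t : ZMod p => IsSquare (f.eval t)).card : ℝ) =
      (p : ℝ) + ∑ t : ZMod p, ((quadraticChar (ZMod p) (f.eval t) : ℤ) : ℝ) +
        ((univ.filter fun t : ZMod p => f.eval t = 0).card : ℝ) := by
    rw [hN, hZ, Finset.mul_sum, Finset.sum_congr rfl fun t _ => NuCount_pt hodd (f.eval t),
      Finset.sum_add_distrib, Finset.sum_add_distrib]
    congr 2
    rw [Finset.sum_const, Finset.card_univ, hcard, nsmul_eq_mul, mul_one]
  have hs : (0 : ℝ) ≤ √(p : ℝ) := Real.sqrt_nonneg _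
  have hd : (11 : ℝ) * f.natDegree * √(p : ℝ) ≤ 44 * √(p : ℝ) := by
    have h5 : (f.natDegree : ℝ) ≤ 4 := by exact_mod_cast h4
    nlinarith
  have h6 : (∑ t : ZMod p, ((quadraticChar (ZMod p) (f.eval t) : ℤ) : ℝ)) ≤ 44 * √(p : ℝ) :=
    (le_abs_self _).trans ((le_of_eq (by congr!)).trans (hcs.trans hd))
  linarith

private theorem NuCount_deg (c : Fin 5 → ℤ) (p : ℕ) : (fp c p).natDegree ≤ 4 := by
  unfold fp
  compute_degree

private theorem NuCount_eval (c : Fin 5 → ℤ) (p : ℕ) [Fact p.Prime] (x y : ℤ) (hy : (y : ZMod p) ≠ 0) :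
    (fp c p).eval ((x : ZMod p) * (y : ZMod p)⁻¹) * (y : ZMod p) ^ 4 = ((fv c x y : ℤ) : ZMod p) := by
  unfold fp fv
  simp only [eval_add, eval_mul, eval_C, eval_X, eval_pow]
  push_cast
  field_simp

theorem classes (c : Fin 5 → ℤ) (p : ℕ) (hpp : p.Prime) (hp : 1600 ≤ p) (hsq : Squarefree (fp c p))
    (h1 : 1 ≤ (fp c p).natDegree) (S : Finset (ℤ × ℤ)) (hS : ∀ s ∈ S, IsSquare (fv c s.1 s.2)) :
    ((S.image (cls p)).card : ℝ) ≤ (p : ℝ) / 2 + 22 * √(p : ℝ) + 3 := by
  classical
  haveI : Fact p.Prime := ⟨hpp⟩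
  have hn := nu_count p hp (fp c p) hsq h1 (NuCount_deg c p)
  have hsub : S.image (cls p) ⊆ insert none
      ((univ.filter fun t : ZMod p => IsSquare ((fp c p).eval t)).image some) := by
    intro o ho
    obtain ⟨s, hs, rfl⟩ := Finset.mem_image.1 ho
    unfold cls
    split_ifs with h0
    · exact Finset.mem_insert_self _ _
    · refine Finset.mem_insert_of_mem (Finset.mem_image.2 ⟨_, ?_, rfl⟩)
      rw [Finset.mem_filter]
      refine ⟨Finset.mem_univ _, ?_⟩
      obtain ⟨r, hr⟩ := hS s hs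
      have he := NuCount_eval c p s.1 s.2 h0
      rw [hr] at he
      push_cast at he
      refine ⟨(r : ZMod p) * ((s.2 : ZMod p)⁻¹) ^ 2, ?_⟩
      have h4 : ((s.2 : ZMod p)) ^ 4 ≠ 0 := pow_ne_zero _ h0
      apply mul_right_cancel₀ h4
      rw [he]
      field_simp
  have h2 := Finset.card_le_card hsub
  have h3 := h2.trans (Finset.card_insert_le _ _)
  have h4 : ((univ.filter fun t : ZMod p => IsSquare ((fp c p).eval t)).image some).card ≤
      (univ.filter fun t : ZMod p => IsSquare ((fp c p).eval t)).card := Finset.card_image_le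
  have h5 : ((S.image (cls p)).card : ℝ) ≤
      ((univ.filter fun t : ZMod p => IsSquare ((fp c p).eval t)).card : ℝ) + 1 := by
    exact_mod_cast h3.trans (Nat.add_le_add_right h4 1)
  linarith

end Pool.Agent.H60.FS
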