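import Pool.Agent.H60.FS.Defs

/-!
# PhiSq: the condition `b² - a² = □` for the pair

PROOF.  Let `α = r ζ²`, `β = s ξ²` (`r, s` units), so `α.re² + α.im² = nn(ζ)²`, same for `β`.  From `a = g α.re`, `g nn ζ = d`:
`a nn ζ = d α.re`, `b nn ξ = d β.re`.  So `(b² - a²) (nn ζ nn ξ)² = d² (β.re² nn(ζ)² - α.re² nn(ξ)²)
= d² (β.re α.im - α.re β.im)(β.re α.im + α.re β.im) = d² Im(α β̄) Im(α β)`, and with `ζ = P M I`, `ξ = P M̄ J`:
`α β = r s P⁴ I² J² (M M̄)²`, `α β̄ = r s̄ M⁴ I² J̄² (P P̄)²`, so `Im(αβ) Im(αβ̄) = (nn M nn P)² Phi (r s) (r s̄) P M I J`.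
So `(b² - a²) (nn ζ nn ξ)² = (d nn M nn P)² Phi`.  As `b² - a² = t² > 0`, `Phi > 0` and `Phi V² = W²` with `V ≠ 0`, so `Phi` is a
square (`V² ∣ W²` implies `V ∣ W`, `Int.pow_dvd_pow_iff`).
(c1) `(r s P⁴ J²) * star (r s̄ M⁴ J̄²) = (s P² M̄² J²)² * (r r̄) = (s ξ²)² = β²` (`r r̄ = 1`), imaginary part `2 β.re β.im ≠ 0`
because `β.re ≠ 0` (`b > 0`) and `β.im ≠ 0` (`|β.re| < nn ξ` as `b < d`).  (c2) `r s * (r s̄) P⁴ M⁴ I⁴ = (r ζ²)² = α²`, same.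
About 110 lines.
-/

set_option autoImplicit false

namespace Pool.Agent.H60.FS

private theorem PhiSq_ms (z : G) : z * star z = (((nn z : ℕ) : ℤ) : G) := by
  rw [← Zsqrtd.norm_eq_mul_conj]
  unfold nn
  rw [Int.natAbs_of_nonneg (GaussianInt.norm_nonneg z)]

private theorem PhiSq_im (z : G) (k : ℤ) : (z * (k : G)).im = z.im * k := by
  rw [Zsqrtd.im_mul]
  simp

private theorem PhiSq_sq (z : G) : (z ^ 2).im = 2 * (z.re * z.im) := by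
  rw [sq, Zsqrtd.im_mul]
  ring

private theorem PhiSq_prod (z w : G) :
    (z * w).im * (z * star w).im = (w.re * z.im) ^ 2 - (z.re * w.im) ^ 2 := by
  rw [Zsqrtd.im_mul, Zsqrtd.im_mul, Zsqrtd.re_star, Zsqrtd.im_star]
  ring

theorem phi_sq (a b d g h t : ℕ) (ha : 0 < a) (hab : a < b) (hbd : b < d) (ζ ξ r s P M I J : G)
    (hr : nn r = 1) (hs : nn s = 1) (h1 : g * nn ζ = d) (h2 : h * nn ξ = d)
    (h3 : (a : ℤ) = g * (r * ζ ^ 2).re) (h4 : (b : ℤ) = h * (s * ξ ^ 2).re)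
    (h5 : ζ = P * M * I) (h6 : ξ = P * star M * J) (h7 : b ^ 2 = a ^ 2 + t ^ 2) :
    (((r * s) * P ^ 4 * J ^ 2) * star ((r * star s) * M ^ 4 * (star J) ^ 2)).im ≠ 0 ∧
    ((r * s) * (r * star s) * P ^ 4 * M ^ 4 * I ^ 4).im ≠ 0 ∧
    Phi (r * s) (r * star s) P M I J ≠ 0 ∧ IsSquare (Phi (r * s) (r * star s) P M I J).natAbs := by
  have h7z : (b : ℤ) ^ 2 = (a : ℤ) ^ 2 + (t : ℤ) ^ 2 := by exact_mod_cast h7
  have haz : (0 : ℤ) < a := by exact_mod_cast ha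
  have habz : (a : ℤ) < b := by exact_mod_cast hab
  have hbdz : (b : ℤ) < d := by exact_mod_cast hbd
  have hd0 : (0 : ℤ) < d := by linarith
  obtain ⟨α, hα⟩ : ∃ α : G, α = r * ζ ^ 2 := ⟨_, rfl⟩
  obtain ⟨β, hβ⟩ : ∃ β : G, β = s * ξ ^ 2 := ⟨_, rfl⟩
  rw [← hα] at h3
  rw [← hβ] at h4
  have hnα : nn α = nn ζ ^ 2 := by rw [hα, nn_mul, hr, one_mul, nn_pow]
  have hnβ : nn β = nn ξ ^ 2 := by rw [hβ, nn_mul, hs, one_mul, nn_pow]
  have eα : ((nn ζ : ℕ) : ℤ) ^ 2 = α.re ^ 2 + α.im ^ 2 := by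
    rw [← nn_eq, hnα]; push_cast; rfl
  have eβ : ((nn ξ : ℕ) : ℤ) ^ 2 = β.re ^ 2 + β.im ^ 2 := by
    rw [← nn_eq, hnβ]; push_cast; rfl
  have h1z : (g : ℤ) * (nn ζ : ℕ) = d := by exact_mod_cast h1
  have h2z : (h : ℤ) * (nn ξ : ℕ) = d := by exact_mod_cast h2
  have ea : (a : ℤ) * (nn ζ : ℕ) = d * α.re := by rw [h3, ← h1z]; ring
  have eb : (b : ℤ) * (nn ξ : ℕ) = d * β.re := by rw [h4, ← h2z]; ring
  have hζ0 : ((nn ζ : ℕ) : ℤ) ≠ 0 := by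
    intro h0
    rw [h0, mul_zero] at h1z
    exact hd0.ne h1z
  have hξ0 : ((nn ξ : ℕ) : ℤ) ≠ 0 := by
    intro h0
    rw [h0, mul_zero] at h2z
    exact hd0.ne h2z
  have hP0 : ((nn P : ℕ) : ℤ) ≠ 0 := by
    intro h0
    apply hζ0
    rw [h5, nn_mul, nn_mul]
    push_cast
    rw [h0]; ring
  have hM0 : ((nn M : ℕ) : ℤ) ≠ 0 := by
    intro h0
    apply hζ0
    rw [h5, nn_mul, nn_mul]
    push_cast
    rw [h0]; ring
  have hαre : α.re ≠ 0 := by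
    intro h0
    rw [h0, mul_zero] at ea
    rcases mul_eq_zero.mp ea with h | h
    · exact haz.ne' h
    · exact hζ0 h
  have hβre : β.re ≠ 0 := by
    intro h0
    rw [h0, mul_zero] at eb
    rcases mul_eq_zero.mp eb with h | h
    · linarith
    · exact hξ0 h
  have hαim : α.im ≠ 0 := by
    intro h0
    rw [h0] at eα
    have e1 : ((a : ℤ) ^ 2 - d ^ 2) * ((nn ζ : ℕ) : ℤ) ^ 2 = 0 := by
      linear_combination ((a : ℤ) * (nn ζ : ℕ) + d * α.re) * ea - (d : ℤ) ^ 2 * eα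
    rcases mul_eq_zero.mp e1 with h | h
    · nlinarith
    · exact hζ0 (pow_eq_zero_iff two_ne_zero |>.mp h)
  have hβim : β.im ≠ 0 := by
    intro h0
    rw [h0] at eβ
    have e1 : ((b : ℤ) ^ 2 - d ^ 2) * ((nn ξ : ℕ) : ℤ) ^ 2 = 0 := by
      linear_combination ((b : ℤ) * (nn ξ : ℕ) + d * β.re) * eb - (d : ℤ) ^ 2 * eβ
    rcases mul_eq_zero.mp e1 with h | h
    · nlinarith
    · exact hξ0 (pow_eq_zero_iff two_ne_zero |>.mp h)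
  have hrr : r * star r = 1 := by rw [PhiSq_ms, hr]; simp
  have hss : s * star s = 1 := by rw [PhiSq_ms, hs]; simp
  have hMM := PhiSq_ms M
  have hPP := PhiSq_ms P
  -- the products
  have p1 : α * β = (r * s * P ^ 4 * I ^ 2 * J ^ 2) * ((((nn M : ℕ) : ℤ) ^ 2 : ℤ) : G) := by
    push_cast
    have e : (((nn M : ℕ) : ℤ) : G) = M * star M := hMM.symm
    push_cast at e
    rw [e, hα, hβ, h5, h6]
    ring
  have p2 : α * star β =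
      (r * star s * M ^ 4 * I ^ 2 * (star J) ^ 2) * ((((nn P : ℕ) : ℤ) ^ 2 : ℤ) : G) := by
    push_cast
    have e : (((nn P : ℕ) : ℤ) : G) = P * star P := hPP.symm
    push_cast at e
    rw [e, hα, hβ, h5, h6]
    simp only [star_mul, star_pow, star_star]
    ring
  have hPhi : (β.re * α.im) ^ 2 - (α.re * β.im) ^ 2 =
      (((nn M : ℕ) : ℤ) * ((nn P : ℕ) : ℤ)) ^ 2 * Phi (r * s) (r * star s) P M I J := by
    rw [← PhiSq_prod, p1, p2, PhiSq_im, PhiSq_im]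
    unfold Phi
    ring
  have hmain : ((t : ℤ) * ((nn ζ : ℕ) * (nn ξ : ℕ))) ^ 2 =
      ((d : ℤ) * ((nn M : ℕ) * (nn P : ℕ))) ^ 2 * Phi (r * s) (r * star s) P M I J := by
    have e2 : ((d : ℤ) * ((nn M : ℕ) * (nn P : ℕ))) ^ 2 * Phi (r * s) (r * star s) P M I J =
        (d : ℤ) ^ 2 * ((β.re * α.im) ^ 2 - (α.re * β.im) ^ 2) := by
      rw [hPhi]; ring
    rw [e2]
    have e3 : ((t : ℤ) * ((nn ζ : ℕ) * (nn ξ : ℕ))) ^ 2 =
        ((b : ℤ) * (nn ξ : ℕ)) ^ 2 * ((nn ζ : ℕ) : ℤ) ^ 2 -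
          ((a : ℤ) * (nn ζ : ℕ)) ^ 2 * ((nn ξ : ℕ) : ℤ) ^ 2 := by
      linear_combination (-(((nn ζ : ℕ) : ℤ) ^ 2 * ((nn ξ : ℕ) : ℤ) ^ 2)) * h7z
    rw [e3, ea, eb, eα, eβ]
    ring
  have ht0 : (0 : ℤ) < (t : ℤ) ^ 2 := by nlinarith
  have ht : (t : ℤ) ≠ 0 := fun h0 => by rw [h0] at ht0; simp at ht0
  have hW : ((d : ℤ) * ((nn M : ℕ) * (nn P : ℕ))) ≠ 0 :=
    mul_ne_zero hd0.ne' (mul_ne_zero hM0 hP0)
  have hV : ((t : ℤ) * ((nn ζ : ℕ) * (nn ξ : ℕ))) ≠ 0 :=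
    mul_ne_zero ht (mul_ne_zero hζ0 hξ0)
  have hPhi0 : Phi (r * s) (r * star s) P M I J ≠ 0 := by
    intro h0
    rw [h0, mul_zero] at hmain
    exact hV (pow_eq_zero_iff two_ne_zero |>.mp hmain)
  refine ⟨?_, ?_, hPhi0, ?_⟩
  · have e : ((r * s) * P ^ 4 * J ^ 2) * star ((r * star s) * M ^ 4 * (star J) ^ 2) = β ^ 2 := by
      simp only [star_mul, star_pow, star_star]
      calc r * s * P ^ 4 * J ^ 2 * (J ^ 2 * (star M ^ 4 * (s * star r)))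
          = (r * star r) * (s * (P * star M * J) ^ 2) ^ 2 := by ring
        _ = β ^ 2 := by rw [hrr, one_mul, ← h6, ← hβ]
    rw [e, PhiSq_sq]
    exact mul_ne_zero two_ne_zero (mul_ne_zero hβre hβim)
  · have e : (r * s) * (r * star s) * P ^ 4 * M ^ 4 * I ^ 4 = α ^ 2 := by
      calc (r * s) * (r * star s) * P ^ 4 * M ^ 4 * I ^ 4
          = (s * star s) * (r * (P * M * I) ^ 2) ^ 2 := by ring
        _ = α ^ 2 := by rw [hss, one_mul, ← h5, ← hα]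
    rw [e, PhiSq_sq]
    exact mul_ne_zero two_ne_zero (mul_ne_zero hαre hαim)
  · have hdvd : ((d : ℤ) * ((nn M : ℕ) * (nn P : ℕ))) ^ 2 ∣
        ((t : ℤ) * ((nn ζ : ℕ) * (nn ξ : ℕ))) ^ 2 := ⟨_, hmain⟩
    obtain ⟨k, hk⟩ := (Int.pow_dvd_pow_iff two_ne_zero).mp hdvd
    have hk2 : Phi (r * s) (r * star s) P M I J = k ^ 2 := by
      have e : ((d : ℤ) * ((nn M : ℕ) * (nn P : ℕ))) ^ 2 * Phi (r * s) (r * star s) P M I J =
          ((d : ℤ) * ((nn M : ℕ) * (nn P : ℕ))) ^ 2 * k ^ 2 := by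
        rw [← hmain, hk]; ring
      exact mul_left_cancel₀ (pow_ne_zero 2 hW) e
    rw [hk2, Int.natAbs_pow]
    exact ⟨k.natAbs, sq _⟩

end Pool.Agent.H60.FS
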