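import Pool.Agent.H34.NA.Primes

/-!
# PrimeSum: the choice of the sieving primes

PROOF.  `Pool.Agent.H34.NA.mertens_window`: `∑_{y < p ≤ x} log p/p = log x - log y + O(1)`, `theta_le_two_mul`: `θ(x) ≤ 2x`.
Let `P0 = ⌈1600 + log Δ⌉`, `Q = ⌈K B P0⌉` with a large constant `K`, `Ps` = primes in `(P0, Q]` not dividing `Δ`.
`ν p := p/2 + 22 √p + 3 ≤ p/2 + 25 √p`, so `1/ν p ≥ (2/p) (1 - 50/√p)`, and `∑_p 100 log p/p^(3/2) ≤ C1` (e.g. `log p ≤ 4 p^(1/4)`,
`∑ n^(-5/4)` converges).  `∑_{p ∣ Δ, p > P0} log p/p ≤ (1/P0) ∑_{p ∣ Δ} log p ≤ log Δ/P0 ≤ 1`.  So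
`∑_{Ps} log p/ν p ≥ 2 (log Q - log P0) - C2 ≥ 2 log (K B) - C2 ≥ log (2 B²) + 1` for `K` large.
`∑_{Ps} log p ≤ θ(Q) ≤ 2 Q ≤ C B (1 + log Δ)`.  About 120 lines.
-/

set_option autoImplicit false

namespace Pool.Agent.H60.FS

open Finset

private theorem PrimeSum_dvd (Δ : ℕ) (hΔ : 1 ≤ Δ) (S : Finset ℕ) (hS : ∀ p ∈ S, p.Prime ∧ p ∣ Δ) :
    ∑ p ∈ S, Real.log p ≤ Real.log Δ := by
  have h1 : S ⊆ Δ.primeFactors := by
    intro p hp
    rw [Nat.mem_primeFactors]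
    exact ⟨(hS p hp).1, (hS p hp).2, by omega⟩
  have h2 : ∑ p ∈ S, Real.log p ≤ ∑ p ∈ Δ.primeFactors, Real.log p :=
    Finset.sum_le_sum_of_subset_of_nonneg h1 fun p _ _ => Real.log_natCast_nonneg p
  have h3 : ∑ p ∈ Δ.primeFactors, Real.log (p : ℝ) = Real.log (∏ p ∈ Δ.primeFactors, (p : ℝ)) := by
    rw [Real.log_prod]
    intro p hp
    have := (Nat.prime_of_mem_primeFactors hp).pos
    positivity
  have h4 : (∏ p ∈ Δ.primeFactors, (p : ℝ)) ≤ Δ := by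
    have h5 := Nat.le_of_dvd (by omega) (Nat.prod_primeFactors_dvd Δ)
    have h6 : ((∏ p ∈ Δ.primeFactors, p : ℕ) : ℝ) ≤ (Δ : ℝ) := Nat.cast_le.2 h5
    rwa [Nat.cast_prod] at h6
  have h6 : (0 : ℝ) < ∏ p ∈ Δ.primeFactors, (p : ℝ) :=
    Finset.prod_pos fun p hp => by
      have := (Nat.prime_of_mem_primeFactors hp).pos
      positivity
  rw [h3] at h2
  exact h2.trans (Real.log_le_log h6 h4)

private theorem PrimeSum_term (x : ℝ) (hx : 1600 ≤ x) :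
    2 * (Real.log x / x) - 400 * (1 / x ^ (5 / 4 : ℝ)) ≤ Real.log x / (x / 2 + 22 * √x + 3) := by
  have hx0 : 0 < x := by linarith
  set s := √x with hs
  have hs2 : s * s = x := Real.mul_self_sqrt hx0.le
  have hs1 : 1 ≤ s := by
    rw [hs]
    exact Real.one_le_sqrt.2 (by linarith)
  have hL : 0 ≤ Real.log x := Real.log_nonneg (by linarith)
  have hLr : Real.log x ≤ 4 * x ^ (1 / 4 : ℝ) := by
    have := Real.log_le_rpow_div hx0.le (show (0 : ℝ) < 1 / 4 by norm_num)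
    linarith
  have h1 : Real.log x / (x * s) ≤ 4 * (1 / x ^ (5 / 4 : ℝ)) := by
    have hxs : x * s = x ^ (1 / 4 : ℝ) * x ^ (5 / 4 : ℝ) := by
      rw [hs, Real.sqrt_eq_rpow, ← Real.rpow_add hx0]
      nth_rewrite 1 [← Real.rpow_one x]
      rw [← Real.rpow_add hx0]
      norm_num
    rw [hxs]
    have e1 : 0 < x ^ (1 / 4 : ℝ) := Real.rpow_pos_of_pos hx0 _
    have e2 : 0 < x ^ (5 / 4 : ℝ) := Real.rpow_pos_of_pos hx0 _
    calc Real.log x / (x ^ (1 / 4 : ℝ) * x ^ (5 / 4 : ℝ))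
        ≤ (4 * x ^ (1 / 4 : ℝ)) / (x ^ (1 / 4 : ℝ) * x ^ (5 / 4 : ℝ)) :=
          div_le_div_of_nonneg_right hLr (by positivity)
      _ = 4 * (1 / x ^ (5 / 4 : ℝ)) := by field_simp
  have h2 : 2 / x - 100 / (x * s) ≤ 1 / (x / 2 + 22 * s + 3) := by
    have hd : 0 < x / 2 + 22 * s + 3 := by positivity
    rw [le_div_iff₀ hd]
    have e1 : 2 / x - 100 / (x * s) = (2 * s - 100) / (x * s) := by
      field_simp
    rw [e1, div_mul_eq_mul_div, div_le_iff₀ (by positivity)]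
    have hs40 : 40 ≤ s := by
      rw [hs]
      exact Real.le_sqrt_of_sq_le (by linarith)
    rw [← hs2]
    nlinarith [mul_nonneg (sub_nonneg.2 hs40) (sub_nonneg.2 hs1)]
  have h3 : Real.log x / (x / 2 + 22 * s + 3) = Real.log x * (1 / (x / 2 + 22 * s + 3)) := by
    ring
  have h4 : 2 * (Real.log x / x) - 100 * (Real.log x / (x * s)) =
      Real.log x * (2 / x - 100 / (x * s)) := by ring
  rw [h3]
  have h5 := mul_le_mul_of_nonneg_left h2 hL
  linarith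

theorem prime_sum : ∃ C : ℝ, 1 ≤ C ∧ ∀ (B : ℝ) (Δ : ℕ), 1 ≤ B → 1 ≤ Δ → ∃ Ps : Finset ℕ,
    (∀ p ∈ Ps, p.Prime ∧ 1600 ≤ p ∧ ¬ p ∣ Δ) ∧
    Real.log (2 * B ^ 2) + 1 ≤ ∑ p ∈ Ps, Real.log p / ((p : ℝ) / 2 + 22 * √(p : ℝ) + 3) ∧
    ∑ p ∈ Ps, Real.log p ≤ C * B * (1 + Real.log Δ) := by
  obtain ⟨C0, hC0, hM⟩ := Pool.Agent.H34.NA.mertens_window
  have hsum : Summable fun n : ℕ => 1 / (n : ℝ) ^ (5 / 4 : ℝ) :=
    Real.summable_one_div_nat_rpow.2 (by norm_num)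
  set C1 : ℝ := ∑' n : ℕ, 1 / (n : ℝ) ^ (5 / 4 : ℝ) with hC1
  have hC10 : 0 ≤ C1 := tsum_nonneg fun n => by positivity
  set K : ℝ := Real.exp (2 + C0 + 400 * C1) with hK
  have hK1 : 1 ≤ K := Real.one_le_exp (by positivity)
  refine ⟨3204 * K, by linarith, fun B Δ hB hΔ => ?_⟩
  have hΔr : (1 : ℝ) ≤ Δ := by exact_mod_cast hΔ
  have hlΔ : 0 ≤ Real.log Δ := Real.log_nonneg hΔr
  set P0 : ℕ := ⌈1600 + Real.log Δ⌉₊ with hP0
  have hP1 : 1600 + Real.log Δ ≤ P0 := Nat.le_ceil _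
  have hP2 : (P0 : ℝ) < 1600 + Real.log Δ + 1 := Nat.ceil_lt_add_one (by positivity)
  have hP3 : (1600 : ℝ) ≤ P0 := by linarith
  have hP3' : 1600 ≤ P0 := by exact_mod_cast hP3
  have hP0pos : (0 : ℝ) < P0 := by linarith
  set Q : ℕ := ⌈K * B * P0⌉₊ with hQ
  have hKB : 1 ≤ K * B := by nlinarith
  have hKB0 : 0 < K * B := by linarith
  have hQ1 : K * B * P0 ≤ Q := Nat.le_ceil _
  have hQ2 : (Q : ℝ) < K * B * P0 + 1 := Nat.ceil_lt_add_one (by positivity)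
  have hPQ : P0 ≤ Q := by
    have : (P0 : ℝ) ≤ Q := by nlinarith
    exact_mod_cast this
  classical
  set A : Finset ℕ := (Ioc P0 Q).filter Nat.Prime with hA
  have hmemA : ∀ p ∈ A, P0 < p ∧ p ≤ Q ∧ p.Prime := by
    intro p hp
    rw [hA, mem_filter, mem_Ioc] at hp
    exact ⟨hp.1.1, hp.1.2, hp.2⟩
  refine ⟨A.filter fun p => ¬ p ∣ Δ, ?_, ?_, ?_⟩
  · intro p hp
    rw [mem_filter] at hp
    obtain ⟨h1, -, h3⟩ := hmemA p hp.1
    exact ⟨h3, by omega, hp.2⟩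
  · have hsplit : ∑ p ∈ A.filter (fun p => ¬ p ∣ Δ), Real.log p / p =
        ∑ p ∈ A, Real.log p / p - ∑ p ∈ A.filter (fun p => p ∣ Δ), Real.log p / p := by
      rw [← Finset.sum_filter_add_sum_filter_not A (fun p => p ∣ Δ)]
      ring
    have hm := (abs_le.1 (hM P0 Q (by omega) hPQ)).1
    have hdiv : ∑ p ∈ A.filter (fun p => p ∣ Δ), Real.log p / p ≤ 1 := by
      have e1 : ∑ p ∈ A.filter (fun p => p ∣ Δ), Real.log p / p ≤
          ∑ p ∈ A.filter (fun p => p ∣ Δ), Real.log p / P0 := by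
        refine Finset.sum_le_sum fun p hp => ?_
        have hp' := hmemA p (mem_filter.1 hp).1
        have : (P0 : ℝ) ≤ p := by exact_mod_cast hp'.1.le
        exact div_le_div_of_nonneg_left (Real.log_natCast_nonneg p) hP0pos this
      rw [← Finset.sum_div] at e1
      have e2 := PrimeSum_dvd Δ hΔ (A.filter fun p => p ∣ Δ) (fun p hp =>
        ⟨(hmemA p (mem_filter.1 hp).1).2.2, (mem_filter.1 hp).2⟩)
      refine e1.trans ?_
      rw [div_le_one hP0pos]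
      linarith
    have hQlog : Real.log K + Real.log B + Real.log P0 ≤ Real.log Q := by
      rw [← Real.log_mul (by positivity) (by positivity), ← Real.log_mul (by positivity)
        (by positivity)]
      exact Real.log_le_log (by positivity) hQ1
    have hKlog : Real.log K = 2 + C0 + 400 * C1 := by rw [hK, Real.log_exp]
    have hterm : ∑ p ∈ A.filter (fun p => ¬ p ∣ Δ),
        (2 * (Real.log p / p) - 400 * (1 / (p : ℝ) ^ (5 / 4 : ℝ))) ≤
        ∑ p ∈ A.filter (fun p => ¬ p ∣ Δ), Real.log p / ((p : ℝ) / 2 + 22 * √(p : ℝ) + 3) := by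
      refine Finset.sum_le_sum fun p hp => ?_
      have hp' := hmemA p (mem_filter.1 hp).1
      have : (P0 : ℝ) ≤ p := by exact_mod_cast hp'.1.le
      exact PrimeSum_term p (by linarith)
    refine le_trans ?_ hterm
    rw [Finset.sum_sub_distrib, ← Finset.mul_sum, ← Finset.mul_sum, hsplit]
    have hc1 : ∑ p ∈ A.filter (fun p => ¬ p ∣ Δ), 1 / (p : ℝ) ^ (5 / 4 : ℝ) ≤ C1 :=
      hsum.sum_le_tsum _ fun n _ => by positivity
    have hl2 : Real.log (2 * B ^ 2) = Real.log 2 + 2 * Real.log B := by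
      rw [Real.log_mul (by norm_num) (by positivity), Real.log_pow]
      push_cast
      ring
    have hlog2 : Real.log 2 ≤ 1 := by
      have := Real.log_two_lt_d9
      linarith
    rw [hl2]
    linarith
  · have h1 : ∑ p ∈ A.filter (fun p => ¬ p ∣ Δ), Real.log p ≤ Chebyshev.theta Q := by
      rw [Chebyshev.theta]
      refine Finset.sum_le_sum_of_subset_of_nonneg ?_ fun p _ _ => Real.log_natCast_nonneg p
      intro p hp
      obtain ⟨a1, a2, a3⟩ := hmemA p (mem_filter.1 hp).1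
      rw [Nat.floor_natCast, mem_filter, mem_Ioc]
      exact ⟨⟨a3.pos, a2⟩, a3⟩
    have h2 := Pool.Agent.H34.NA.theta_le_two_mul Q (Nat.cast_nonneg Q)
    have h3 : (Q : ℝ) ≤ 1602 * (K * B) * (1 + Real.log Δ) := by
      have e1 : K * B * P0 ≤ K * B * (1601 + Real.log Δ) :=
        mul_le_mul_of_nonneg_left (by linarith) hKB0.le
      nlinarith [mul_nonneg hKB0.le hlΔ]
    have e4 : 3204 * K * B * (1 + Real.log Δ) = 2 * (1602 * (K * B) * (1 + Real.log Δ)) := by ring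
    rw [e4]
    linarith

end Pool.Agent.H60.FS
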