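import Pool.Agent.H60.FS.Defs

/-!
# Pyth: `a² + w² = d²` in terms of a Gaussian integer

PROOF.  `g = gcd a w`, `g ∣ d` (`g² ∣ d²`), `a = g a'`, `w = g w'`, `d = g n`, `a'² + w'² = n²`, coprime.
`PythagoreanTriple.coprime_classification`: `a' = x² - y²` (then `ζ = x + i y`, `u = 1`, `re (ζ²) = x² - y²`) or `a' = 2 x y` (then
`u = -i`, `re (-i ζ²) = im (ζ²) = 2xy`), `n = ±(x² + y²)`, `gcd x y = 1`, opposite parity, so `nn ζ = x² + y² = n` is odd.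
About 60 lines.
-/

set_option autoImplicit false

namespace Pool.Agent.H60.FS

theorem pyth (a w d : ℕ) (ha : 0 < a) (hw : 0 < w) (h : a ^ 2 + w ^ 2 = d ^ 2) :
    ∃ ζ u : G, Prim ζ ∧ Odd (nn ζ) ∧ nn u = 1 ∧ (u = 1 ∨ u = ⟨0, -1⟩) ∧ Nat.gcd a w * nn ζ = d ∧
      (a : ℤ) = Nat.gcd a w * (u * ζ ^ 2).re := by
  obtain ⟨g, a', w', hg, hco, hga, hgw, hgg⟩ : ∃ g a' w' : ℕ, 0 < g ∧ Nat.Coprime a' w' ∧
      a = a' * g ∧ w = w' * g ∧ Nat.gcd a w = g := by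
    obtain ⟨a', w', h1, h2, h3⟩ := Nat.exists_coprime a w
    exact ⟨Nat.gcd a w, a', w', Nat.gcd_pos_of_pos_left _ ha, h1, h2, h3, rfl⟩
  rw [hgg]
  have hgd : g ∣ d := by
    rw [← Nat.pow_dvd_pow_iff (n := 2) two_ne_zero, ← h, hga, hgw]
    exact ⟨a' ^ 2 + w' ^ 2, by ring⟩
  obtain ⟨n, rfl⟩ := hgd
  have hn : a' ^ 2 + w' ^ 2 = n ^ 2 := by
    have h1 : g ^ 2 * (a' ^ 2 + w' ^ 2) = g ^ 2 * n ^ 2 := by
      rw [hga, hgw] at h
      linarith [h]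
    exact Nat.eq_of_mul_eq_mul_left (by positivity) h1
  have hP : PythagoreanTriple (a' : ℤ) (w' : ℤ) (n : ℤ) := by
    unfold PythagoreanTriple
    have h1 : ((a' ^ 2 + w' ^ 2 : ℕ) : ℤ) = ((n ^ 2 : ℕ) : ℤ) := by rw [hn]
    push_cast at h1
    linarith [h1]
  have hgcd : Int.gcd (a' : ℤ) (w' : ℤ) = 1 := by
    rw [Int.gcd_natCast_natCast]
    exact hco
  obtain ⟨x, y, hxy, hz, hxg, hpar⟩ := PythagoreanTriple.coprime_classification.1 ⟨hP, hgcd⟩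
  have hnn : ((nn (⟨x, y⟩ : G) : ℕ) : ℤ) = n := by
    have h1 := nn_eq (⟨x, y⟩ : G)
    dsimp only at h1
    rw [h1]
    rcases hz with hz | hz
    · exact hz.symm
    · have h2 : (0 : ℤ) ≤ n := Int.natCast_nonneg n
      have h3 : 0 ≤ x ^ 2 + y ^ 2 := by positivity
      linarith
  have hnn' : nn (⟨x, y⟩ : G) = n := by exact_mod_cast hnn
  have hodd : Odd (nn (⟨x, y⟩ : G)) := by
    have h1 := nn_eq (⟨x, y⟩ : G)
    dsimp only at h1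
    have h2 : Odd ((nn (⟨x, y⟩ : G) : ℕ) : ℤ) := by
      rw [h1]
      rcases hpar with ⟨h3, h4⟩ | ⟨h3, h4⟩
      · have h5 : Even x := Int.even_iff.2 h3
        have h6 : Odd y := Int.odd_iff.2 h4
        exact (h5.pow_of_ne_zero two_ne_zero).add_odd h6.pow
      · have h5 : Odd x := Int.odd_iff.2 h3
        have h6 : Even y := Int.even_iff.2 h4
        exact h5.pow.add_even (h6.pow_of_ne_zero two_ne_zero)
    exact_mod_cast h2
  have hga' : (a : ℤ) = (a' : ℤ) * g := by exact_mod_cast hga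
  rcases hxy with ⟨h1, h2⟩ | ⟨h1, h2⟩
  · refine ⟨⟨x, y⟩, 1, hxg, hodd, ?_, Or.inl rfl, ?_, ?_⟩
    · simp [nn]
    · rw [hnn']
    · rw [hga', h1, one_mul, sq (⟨x, y⟩ : G)]
      simp only [Zsqrtd.re_mul]
      ring
  · refine ⟨⟨x, y⟩, ⟨0, -1⟩, hxg, hodd, ?_, Or.inr rfl, ?_, ?_⟩
    · have h3 := nn_eq (⟨0, -1⟩ : G)
      norm_num at h3
      exact_mod_cast h3
    · rw [hnn']
    · rw [hga', h1, sq (⟨x, y⟩ : G)]
      simp only [Zsqrtd.re_mul, Zsqrtd.im_mul]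
      ring

end Pool.Agent.H60.FS
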