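import Pool.Agent.H60.FS.Trip
import Pool.Agent.H60.FS.Fiber

/-!
# QuadCount: the number of primitive solutions
-/

set_option autoImplicit false

namespace Pool.Agent.H60.FS

open Finset

/-- primitive solutions of Q1 -/
def Sol (a b c d : ℕ) : Prop :=
  0 < a ∧ a < b ∧ b < c ∧ c < d ∧ Nat.gcd (Nat.gcd a b) (Nat.gcd c d) = 1 ∧
    (∃ t, b ^ 2 = a ^ 2 + t ^ 2) ∧ (∃ t, c ^ 2 = a ^ 2 + t ^ 2) ∧ (∃ t, d ^ 2 = a ^ 2 + t ^ 2) ∧
    (∃ t, c ^ 2 = b ^ 2 + t ^ 2) ∧ (∃ t, d ^ 2 = b ^ 2 + t ^ 2) ∧ (∃ t, d ^ 2 = c ^ 2 + t ^ 2)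

private theorem pos_of_lt {x w d : ℕ} (hxd : x < d) (h : x ^ 2 + w ^ 2 = d ^ 2) : 0 < w := by
  rcases Nat.eq_zero_or_pos w with h0 | h0
  · subst h0
    have : x = d := by
      have : x ^ 2 = d ^ 2 := by simpa using h
      exact Nat.pow_left_injective (n := 2) (by norm_num) this
    omega
  · exact h0

private theorem gcd_mul_div {x w d : ℕ} (hx : 0 < x) (hxd : x < d) (h : x ^ 2 + w ^ 2 = d ^ 2) :
    Nat.gcd x w * (d / Nat.gcd x w) = d := by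
  obtain ⟨ζ, r, -, -, -, -, z5, -⟩ := pyth x w d hx (pos_of_lt hxd h) h
  exact Nat.mul_div_cancel' ⟨nn ζ, z5.symm⟩

theorem three_cases (X a b c d : ℕ) (h : Sol a b c d) (hd : d ≤ X) :
    IsTrip X (a, b, d) ∨ IsTrip X (a, c, d) ∨ IsTrip X (b, c, d) := by
  obtain ⟨ha, hab, hbc, hcd, hg, ⟨t1, e1⟩, ⟨t2, e2⟩, ⟨wa, e3⟩, ⟨t4, e4⟩, ⟨wb, e5⟩, ⟨wc, e6⟩⟩ := h
  have k1 := gcd_mul_div ha (by omega) e3.symm
  have k2 := gcd_mul_div (by omega) (by omega) e5.symm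
  have k3 := gcd_mul_div (by omega) hcd e6.symm
  have hp : ∀ p : ℕ, p.Prime → ¬ (p ∣ Nat.gcd a wa ∧ p ∣ Nat.gcd b wb ∧ p ∣ Nat.gcd c wc) := by
    rintro p hp ⟨p1, p2, p3⟩
    have q1 : p ∣ a := p1.trans (Nat.gcd_dvd_left _ _)
    have q2 : p ∣ b := p2.trans (Nat.gcd_dvd_left _ _)
    have q3 : p ∣ c := p3.trans (Nat.gcd_dvd_left _ _)
    have q4 : p ∣ d := p1.trans ⟨_, k1.symm⟩
    have q5 : p ∣ Nat.gcd (Nat.gcd a b) (Nat.gcd c d) := Nat.dvd_gcd (Nat.dvd_gcd q1 q2) (Nat.dvd_gcd q3 q4)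
    rw [hg] at q5
    exact hp.one_lt.ne' (Nat.dvd_one.1 q5)
  rcases lcm3 d _ _ _ _ _ _ (by omega) k1 k2 k3 hp with ⟨l, l1, l2⟩ | ⟨l, l1, l2⟩ | ⟨l, l1, l2⟩
  · exact Or.inl (trip_of X a b d wa wb t1 _ _ l hd ha hab (by omega) e3.symm e5.symm e1 rfl rfl l1 l2)
  · exact Or.inr (Or.inl (trip_of X a c d wa wc t2 _ _ l hd ha (by omega) hcd e3.symm e6.symm e2 rfl rfl l1 l2))
  · exact Or.inr (Or.inr (trip_of X b c d wb wc t4 _ _ l hd (by omega) hbc hcd e5.symm e6.symm e4 rfl rfl l1 l2))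

private theorem log_pow_le (δ : ℝ) (hδ : 0 < δ) (X : ℕ) (hX : 1 ≤ X) :
    1 + Real.log X ≤ (1 + 1 / δ) * (X : ℝ) ^ δ := by
  have hX1 : (1 : ℝ) ≤ X := by exact_mod_cast hX
  have h1 := Real.log_le_rpow_div (x := (X : ℝ)) (by positivity) hδ
  have h2 : (1 : ℝ) ≤ (X : ℝ) ^ δ := Real.one_le_rpow hX1 hδ.le
  have e : (1 + 1 / δ) * (X : ℝ) ^ δ = (X : ℝ) ^ δ + (X : ℝ) ^ δ / δ := by ring
  rw [e]
  linarith

theorem quad_count (ε : ℝ) (hε : 0 < ε) : ∃ C : ℝ, 0 < C ∧ ∀ (X : ℕ), 1 ≤ X → ∀ S : Finset (ℕ × ℕ × ℕ × ℕ),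
    (∀ q ∈ S, Sol q.1 q.2.1 q.2.2.1 q.2.2.2 ∧ q.2.2.2 ≤ X) →
    (S.card : ℝ) ≤ C * (X : ℝ) ^ (9 / 10 + ε) := by
  classical
  obtain ⟨C1, hC1, h1⟩ := card_trip
  obtain ⟨C2, hC2, h2⟩ := Pool.Agent.H41.Eis.divisor_bound (ε / 4) (by positivity)
  set K : ℝ := 1 + 1 / (ε / 16) with hK
  have hKpos : 0 < K := by positivity
  refine ⟨3 * C2 * C1 * K ^ 8, by positivity, fun X hX S hS => ?_⟩
  have hX1 : (1 : ℝ) ≤ X := by exact_mod_cast hX
  have hX0 : (0 : ℝ) < X := by linarith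
  set N : ℕ := ⌊C2 * ((X : ℝ) ^ 2) ^ (ε / 4)⌋₊ with hN
  have hNle : (N : ℝ) ≤ C2 * ((X : ℝ) ^ 2) ^ (ε / 4) := Nat.floor_le (by positivity)
  have hdiv : ∀ m : ℕ, 1 ≤ m → m ≤ X ^ 2 → m.divisors.card ≤ N := by
    intro m hm hmX
    apply Nat.le_floor
    refine (h2 m hm).trans (mul_le_mul_of_nonneg_left ?_ (by linarith))
    apply Real.rpow_le_rpow (by positivity) _ (by positivity)
    exact_mod_cast hmX
  -- the bound for the number of triples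
  set Bd : ℝ := C1 * (X : ℝ) ^ (9 / 10 : ℝ) * (1 + Real.log X) ^ 8 with hBd
  have hlog0 : 0 ≤ Real.log X := Real.log_nonneg hX1
  have hBd0 : 0 ≤ Bd := by positivity
  -- general step
  have step : ∀ (f : ℕ × ℕ × ℕ × ℕ → ℕ × ℕ × ℕ) (S' : Finset (ℕ × ℕ × ℕ × ℕ)),
      (∀ q ∈ S', IsTrip X (f q)) → (∀ k ∈ S'.image f, (S'.filter fun q => f q = k).card ≤ N) →
      (S'.card : ℝ) ≤ N * Bd := by
    intro f S' hf hfib
    have a1 := Finset.card_le_mul_card_image S' N hfib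
    have a2 : ((S'.image f).card : ℝ) ≤ Bd := by
      refine h1 X hX _ ?_
      intro k hk
      obtain ⟨q, hq, rfl⟩ := Finset.mem_image.1 hk
      exact hf q hq
    calc (S'.card : ℝ) ≤ (N : ℝ) * ((S'.image f).card : ℝ) := by exact_mod_cast a1
      _ ≤ N * Bd := mul_le_mul_of_nonneg_left a2 (Nat.cast_nonneg _)
  let f1 : ℕ × ℕ × ℕ × ℕ → ℕ × ℕ × ℕ := fun q => (q.1, q.2.1, q.2.2.2)
  let f2 : ℕ × ℕ × ℕ × ℕ → ℕ × ℕ × ℕ := fun q => (q.1, q.2.2.1, q.2.2.2)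
  let f3 : ℕ × ℕ × ℕ × ℕ → ℕ × ℕ × ℕ := fun q => (q.2.1, q.2.2.1, q.2.2.2)
  set S1 := S.filter fun q => IsTrip X (f1 q) with hS1
  set S2 := S.filter fun q => IsTrip X (f2 q) with hS2
  set S3 := S.filter fun q => IsTrip X (f3 q) with hS3
  have hcover : S ⊆ S1 ∪ (S2 ∪ S3) := by
    intro q hq
    have := three_cases X q.1 q.2.1 q.2.2.1 q.2.2.2 (hS q hq).1 (hS q hq).2
    simp only [hS1, hS2, hS3, Finset.mem_union, Finset.mem_filter]
    rcases this with h | h | h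
    · exact Or.inl ⟨hq, h⟩
    · exact Or.inr (Or.inl ⟨hq, h⟩)
    · exact Or.inr (Or.inr ⟨hq, h⟩)
  have b1 : (S1.card : ℝ) ≤ N * Bd := by
    refine step f1 S1 (fun q hq => (Finset.mem_filter.1 hq).2) ?_
    rintro k hk
    obtain ⟨q0, hq0, rfl⟩ := Finset.mem_image.1 hk
    have hq0S := (Finset.mem_filter.1 hq0).1
    obtain ⟨hsol0, hX0'⟩ := hS q0 hq0S
    set T := S1.filter fun q => f1 q = f1 q0 with hT
    have hinj : Set.InjOn (fun q : ℕ × ℕ × ℕ × ℕ => q.2.2.1) (T : Set (ℕ × ℕ × ℕ × ℕ)) := by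
      intro q hq q' hq' hqq
      have m1 := (Finset.mem_filter.1 hq).2
      have m2 := (Finset.mem_filter.1 hq').2
      simp only [f1, Prod.mk.injEq] at m1 m2 hqq
      obtain ⟨q1, q2, q3, q4⟩ := q
      obtain ⟨r1, r2, r3, r4⟩ := q'
      simp only at m1 m2 hqq
      simp only [Prod.mk.injEq]
      exact ⟨by omega, by omega, by omega, by omega⟩
    rw [← Finset.card_image_of_injOn hinj]
    refine (fiber_x (q0.1 ^ 2) ?_ _ ?_).trans (hdiv _ ?_ ?_)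
    · have := hsol0.1
      exact Nat.one_le_pow _ _ this
    · intro x hx
      obtain ⟨q, hq, rfl⟩ := Finset.mem_image.1 hx
      have m1 := (Finset.mem_filter.1 hq).2
      have m3 := (hS q (Finset.mem_filter.1 (Finset.mem_filter.1 hq).1).1).1
      simp only [f1, Prod.mk.injEq] at m1
      obtain ⟨t, ht⟩ := m3.2.2.2.2.2.2.1
      exact ⟨t, by rw [ht, m1.1]; ring⟩
    · have := hsol0.1
      exact Nat.one_le_pow _ _ this
    · have h3 : q0.1 ≤ X := by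
        have h4 := hsol0.2.1
        have h5 := hsol0.2.2.1
        have h6 := hsol0.2.2.2.1
        omega
      exact Nat.pow_le_pow_left h3 2
  have b2 : (S2.card : ℝ) ≤ N * Bd := by
    refine step f2 S2 (fun q hq => (Finset.mem_filter.1 hq).2) ?_
    rintro k hk
    obtain ⟨q0, hq0, rfl⟩ := Finset.mem_image.1 hk
    have hq0S := (Finset.mem_filter.1 hq0).1
    obtain ⟨hsol0, hX0'⟩ := hS q0 hq0S
    set T := S2.filter fun q => f2 q = f2 q0 with hT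
    have hinj : Set.InjOn (fun q : ℕ × ℕ × ℕ × ℕ => q.2.1) (T : Set (ℕ × ℕ × ℕ × ℕ)) := by
      intro q hq q' hq' hqq
      have m1 := (Finset.mem_filter.1 hq).2
      have m2 := (Finset.mem_filter.1 hq').2
      simp only [f2, Prod.mk.injEq] at m1 m2 hqq
      obtain ⟨q1, q2, q3, q4⟩ := q
      obtain ⟨r1, r2, r3, r4⟩ := q'
      simp only at m1 m2 hqq
      simp only [Prod.mk.injEq]
      exact ⟨by omega, by omega, by omega, by omega⟩
    rw [← Finset.card_image_of_injOn hinj]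
    refine (fiber_x (q0.1 ^ 2) ?_ _ ?_).trans (hdiv _ ?_ ?_)
    · have := hsol0.1
      exact Nat.one_le_pow _ _ this
    · intro x hx
      obtain ⟨q, hq, rfl⟩ := Finset.mem_image.1 hx
      have m1 := (Finset.mem_filter.1 hq).2
      have m3 := (hS q (Finset.mem_filter.1 (Finset.mem_filter.1 hq).1).1).1
      simp only [f2, Prod.mk.injEq] at m1
      obtain ⟨t, ht⟩ := m3.2.2.2.2.2.1
      exact ⟨t, by rw [ht, m1.1]; ring⟩
    · have := hsol0.1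
      exact Nat.one_le_pow _ _ this
    · have h3 : q0.1 ≤ X := by
        have h4 := hsol0.2.1
        have h5 := hsol0.2.2.1
        have h6 := hsol0.2.2.2.1
        omega
      exact Nat.pow_le_pow_left h3 2
  have b3 : (S3.card : ℝ) ≤ N * Bd := by
    refine step f3 S3 (fun q hq => (Finset.mem_filter.1 hq).2) ?_
    rintro k hk
    obtain ⟨q0, hq0, rfl⟩ := Finset.mem_image.1 hk
    have hq0S := (Finset.mem_filter.1 hq0).1
    obtain ⟨hsol0, hX0'⟩ := hS q0 hq0S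
    set T := S3.filter fun q => f3 q = f3 q0 with hT
    have hbc : q0.2.1 < q0.2.2.1 := hsol0.2.2.1
    have hbc2 := Nat.pow_lt_pow_left hbc (n := 2) (by norm_num)
    -- the number `s` with `b² = a² + s²`
    have hs : ∀ q ∈ T, ∃ s : ℕ, q0.2.1 ^ 2 = q.1 ^ 2 + s ^ 2 ∧
        ∃ x : ℕ, x ^ 2 = s ^ 2 + (q0.2.2.1 ^ 2 - q0.2.1 ^ 2) := by
      intro q hq
      have m1 := (Finset.mem_filter.1 hq).2
      have m3 := (hS q (Finset.mem_filter.1 (Finset.mem_filter.1 hq).1).1).1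
      simp only [f3, Prod.mk.injEq] at m1
      obtain ⟨s, hs⟩ := m3.2.2.2.2.2.1
      obtain ⟨t, ht⟩ := m3.2.2.2.2.2.2.1
      rw [m1.1] at hs
      rw [m1.2.1] at ht
      exact ⟨s, hs, t, by omega⟩
    choose! s hs using hs
    have hinj : Set.InjOn s (T : Set (ℕ × ℕ × ℕ × ℕ)) := by
      intro q hq q' hq' hqq
      have m1 := (Finset.mem_filter.1 hq).2
      have m2 := (Finset.mem_filter.1 hq').2
      have n1 := (hs q hq).1
      have n2 := (hs q' hq').1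
      rw [hqq] at n1
      have n3 : q.1 ^ 2 = q'.1 ^ 2 := by omega
      have n4 : q.1 = q'.1 := Nat.pow_left_injective (n := 2) (by norm_num) n3
      simp only [f3, Prod.mk.injEq] at m1 m2
      obtain ⟨q1, q2, q3, q4⟩ := q
      obtain ⟨r1, r2, r3, r4⟩ := q'
      simp only at m1 m2 n4
      simp only [Prod.mk.injEq]
      exact ⟨by omega, by omega, by omega, by omega⟩
    have hpos : 1 ≤ q0.2.2.1 ^ 2 - q0.2.1 ^ 2 := by
      have := Nat.pow_lt_pow_left hbc (n := 2) (by norm_num)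
      omega
    rw [← Finset.card_image_of_injOn hinj]
    refine (fiber_y (q0.2.2.1 ^ 2 - q0.2.1 ^ 2) hpos _ ?_).trans (hdiv _ hpos ?_)
    · intro x hx
      obtain ⟨q, hq, rfl⟩ := Finset.mem_image.1 hx
      exact (hs q hq).2
    · have h3 : q0.2.2.1 ≤ X := by
        have h6 := hsol0.2.2.2.1
        omega
      exact (Nat.sub_le _ _).trans (Nat.pow_le_pow_left h3 2)
  have hc : S.card ≤ S1.card + (S2.card + S3.card) :=
    (Finset.card_le_card hcover).trans ((Finset.card_union_le _ _).trans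
      (Nat.add_le_add le_rfl (Finset.card_union_le _ _)))
  have hc' : (S.card : ℝ) ≤ S1.card + (S2.card + S3.card) := by exact_mod_cast hc
  have htot : (S.card : ℝ) ≤ 3 * (N * Bd) := by linarith
  have hlog := log_pow_le (ε / 16) (by positivity) X hX
  rw [← hK] at hlog
  have hl8 : (1 + Real.log X) ^ 8 ≤ K ^ 8 * (X : ℝ) ^ (ε / 2) := by
    calc (1 + Real.log X) ^ 8 ≤ (K * (X : ℝ) ^ (ε / 16)) ^ 8 := pow_le_pow_left₀ (by linarith) hlog 8
      _ = K ^ 8 * (X : ℝ) ^ (ε / 2) := by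
        rw [mul_pow, ← Real.rpow_natCast ((X : ℝ) ^ (ε / 16)) 8, ← Real.rpow_mul hX0.le]
        congr 2
        push_cast
        ring
  have hN2 : (N : ℝ) ≤ C2 * (X : ℝ) ^ (ε / 2) := by
    refine hNle.trans (le_of_eq ?_)
    rw [← Real.rpow_natCast (X : ℝ) 2, ← Real.rpow_mul hX0.le]
    congr 2
    push_cast
    ring
  calc (S.card : ℝ) ≤ 3 * (N * Bd) := htot
    _ ≤ 3 * ((C2 * (X : ℝ) ^ (ε / 2)) * (C1 * (X : ℝ) ^ (9 / 10 : ℝ) * (K ^ 8 * (X : ℝ) ^ (ε / 2)))) := by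
        gcongr
        rw [hBd]
        gcongr
    _ = 3 * C2 * C1 * K ^ 8 * ((X : ℝ) ^ (9 / 10 : ℝ) * (X : ℝ) ^ (ε / 2) * (X : ℝ) ^ (ε / 2)) := by ring
    _ = 3 * C2 * C1 * K ^ 8 * (X : ℝ) ^ (9 / 10 + ε) := by
        rw [← Real.rpow_add hX0, ← Real.rpow_add hX0]
        congr 2
        ring

end Pool.Agent.H60.FS
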