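import Pool.Agent.H60.FS.NuCount
import Pool.Agent.H60.FS.PrimeSum

/-!
# SieveForm: square values of binary quartic forms

PROOF.  Let `S' ⊆ S` be the vectors with `x > 0` or (`x = 0` and `y > 0`), `S''` the rest (their negatives are of this kind).
Two different primitive vectors of `S'` have `det ≠ 0` (proportional primitive vectors are equal up to sign); same for `S''`.
`larger` with the primes of `prime_sum` and `ν p = p/2 + 22 √p + 3` (`classes`, hypothesis on `fp c p` for `p ∤ Δ`, `p ≥ 1600`)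
for `S'` and `S''`: `|S| ≤ 2 C B (1 + log Δ)`.  About 70 lines.
-/

set_option autoImplicit false

namespace Pool.Agent.H60.FS

open Finset

private theorem SieveForm_prop (a b c d : ℤ) (h1 : Int.gcd a b = 1) (h2 : Int.gcd c d = 1)
    (h : a * d - b * c = 0) : (a = c ∧ b = d) ∨ (a = -c ∧ b = -d) := by
  have hab : IsCoprime a b := Int.isCoprime_iff_gcd_eq_one.2 h1
  have hcd : IsCoprime c d := Int.isCoprime_iff_gcd_eq_one.2 h2
  have hac : a ∣ c := by
    have : a ∣ b * c := ⟨d, by linarith⟩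
    exact hab.dvd_of_dvd_mul_left this
  have hca : c ∣ a := by
    have : c ∣ a * d := ⟨b, by linarith⟩
    exact hcd.dvd_of_dvd_mul_right this
  have hn : a.natAbs = c.natAbs :=
    Nat.dvd_antisymm (Int.natAbs_dvd_natAbs.2 hac) (Int.natAbs_dvd_natAbs.2 hca)
  rcases eq_or_ne c 0 with hc | hc
  · subst hc
    have ha : a = 0 := by simpa using hn
    subst ha
    rw [Int.gcd_zero_left] at h1 h2
    have hbd : b.natAbs = d.natAbs := h1.trans h2.symm
    rcases Int.natAbs_eq_natAbs_iff.1 hbd with h3 | h3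
    · exact Or.inl ⟨rfl, h3⟩
    · exact Or.inr ⟨by simp, h3⟩
  · rcases Int.natAbs_eq_natAbs_iff.1 hn with h3 | h3
    · refine Or.inl ⟨h3, ?_⟩
      have : c * (d - b) = 0 := by rw [h3] at h; linarith
      rcases mul_eq_zero.1 this with h4 | h4
      · exact absurd h4 hc
      · linarith
    · refine Or.inr ⟨h3, ?_⟩
      have : c * (d + b) = 0 := by rw [h3] at h; linarith
      rcases mul_eq_zero.1 this with h4 | h4
      · exact absurd h4 hc
      · linarith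

theorem sieve_form : ∃ C : ℝ, 1 ≤ C ∧ ∀ (c : Fin 5 → ℤ) (Δ : ℕ), 1 ≤ Δ →
    (∀ p : ℕ, p.Prime → 1600 ≤ p → ¬ p ∣ Δ → Squarefree (fp c p) ∧ 1 ≤ (fp c p).natDegree) →
    ∀ B : ℝ, 1 ≤ B → ∀ S : Finset (ℤ × ℤ),
      (∀ s ∈ S, Int.gcd s.1 s.2 = 1 ∧ |(s.1 : ℝ)| ≤ B ∧ |(s.2 : ℝ)| ≤ B ∧ IsSquare (fv c s.1 s.2)) →
      (S.card : ℝ) ≤ C * B * (1 + Real.log Δ) := by
  obtain ⟨C, hC, hmain⟩ := prime_sum
  refine ⟨2 * C, by linarith, ?_⟩
  intro c Δ hΔ hc B hB S hS
  obtain ⟨Ps, hPs, hsum, htot⟩ := hmain B Δ hB hΔ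
  have key : ∀ T : Finset (ℤ × ℤ), T ⊆ S → (∀ s ∈ T, (-s.1, -s.2) ∉ T) →
      (T.card : ℝ) ≤ C * B * (1 + Real.log Δ) := by
    intro T hTS hneg
    refine le_trans (larger T B hB (fun s hs => ⟨(hS s (hTS hs)).2.1, (hS s (hTS hs)).2.2.1⟩) ?_ Ps
      (fun p hp => (hPs p hp).1) (fun p => (p : ℝ) / 2 + 22 * √(p : ℝ) + 3) ?_ ?_ hsum) htot
    · intro s hs t ht hst h0
      rcases SieveForm_prop s.1 s.2 t.1 t.2 (hS s (hTS hs)).1 (hS t (hTS ht)).1 h0 with h | h
      · exact hst (Prod.ext h.1 h.2)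
      · apply hneg t ht
        have : (-t.1, -t.2) = s := Prod.ext h.1.symm h.2.symm
        rw [this]
        exact hs
    · intro p _
      positivity
    · intro p hp
      obtain ⟨h1, h2, h3⟩ := hPs p hp
      obtain ⟨h4, h5⟩ := hc p h1 h2 h3
      exact classes c p h1 h2 h4 h5 T (fun s hs => (hS s (hTS hs)).2.2.2)
  have h1 : ((S.filter fun s : ℤ × ℤ => 0 < s.1 ∨ (s.1 = 0 ∧ 0 < s.2)).card : ℝ)
      ≤ C * B * (1 + Real.log Δ) := by
    apply key _ (filter_subset _ _)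
    intro s hs h
    rw [mem_filter] at hs h
    rcases hs.2 with h2 | h2 <;> rcases h.2 with h3 | h3
    · have h4 : 0 < -s.1 := h3
      omega
    · have h4 : -s.1 = 0 := h3.1
      omega
    · have h4 : 0 < -s.1 := h3
      omega
    · have h4 : 0 < -s.2 := h3.2
      omega
  have h2 : ((S.filter fun s : ℤ × ℤ => ¬ (0 < s.1 ∨ (s.1 = 0 ∧ 0 < s.2))).card : ℝ)
      ≤ C * B * (1 + Real.log Δ) := by
    apply key _ (filter_subset _ _)
    intro s hs h
    rw [mem_filter] at hs h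
    have h3 : ¬ (0 < s.1 ∨ (s.1 = 0 ∧ 0 < s.2)) := hs.2
    have h4 : ¬ (0 < -s.1 ∨ (-s.1 = 0 ∧ 0 < -s.2)) := h.2
    have h5 := (hS s hs.1).1
    have h6 : s.1 = 0 := by
      rcases lt_trichotomy s.1 0 with h | h | h
      · exact absurd (Or.inl (by omega)) h4
      · exact h
      · exact absurd (Or.inl h) h3
    have h7 : s.2 = 0 := by
      rcases lt_trichotomy s.2 0 with h | h | h
      · exact absurd (Or.inr ⟨by omega, by omega⟩) h4
      · exact h
      · exact absurd (Or.inr ⟨h6, h⟩) h3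
    rw [h6, h7] at h5
    simp at h5
  have h3 := card_filter_add_card_filter_not (s := S) (fun s : ℤ × ℤ => 0 < s.1 ∨ (s.1 = 0 ∧ 0 < s.2))
  have h4 : (S.card : ℝ) = ((S.filter fun s : ℤ × ℤ => 0 < s.1 ∨ (s.1 = 0 ∧ 0 < s.2)).card : ℝ)
      + ((S.filter fun s : ℤ × ℤ => ¬ (0 < s.1 ∨ (s.1 = 0 ∧ 0 < s.2))).card : ℝ) := by
    rw [← h3]
    push_cast
    rfl
  rw [h4]
  linarith

end Pool.Agent.H60.FS
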