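import Pool.Agent.H60.FS.Defs

/-!
# SumInv: `∑ 1/N(z)`

PROOF.  For `z = x + i y ≠ 0`: `x² + y² ≥ max(1,|x|) max(1,|y|)` (if `x, y ≠ 0`: `x² + y² ≥ 2|x||y|`; if one is `0`, the square of
the other is at least its absolute value).  So the sum is at most `(∑_{|x| ≤ X} 1/max(1,|x|))² = (1 + 2 H_X)² ≤ (3 (1 + log X))²`,
`harmonic_le_one_add_log`.  About 60 lines.  (For `z = 0` the term is `1/0 = 0`.)
-/

set_option autoImplicit false

namespace Pool.Agent.H60.FS

open Finset

private noncomputable def SumInv_m (x : ℤ) : ℝ := 1 / max 1 |(x : ℝ)|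

private theorem SumInv_m_nonneg (x : ℤ) : 0 ≤ SumInv_m x := by
  unfold SumInv_m
  positivity

private theorem SumInv_m_pos {x : ℤ} {n : ℕ} (hn : 1 ≤ n) (hx : |x| = n) : SumInv_m x = 1 / (n : ℝ) := by
  unfold SumInv_m
  have h1 : |(x : ℝ)| = n := by
    have : ((|x| : ℤ) : ℝ) = ((n : ℤ) : ℝ) := by rw [hx]
    rw [Int.cast_abs] at this
    simpa using this
  rw [h1, max_eq_right (by exact_mod_cast hn)]

private theorem SumInv_S (X : ℕ) :
    ∑ x ∈ Icc (-(X : ℤ)) X, SumInv_m x = 1 + 2 * ((harmonic X : ℚ) : ℝ) := by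
  induction X with
  | zero =>
    simp [SumInv_m]
  | succ X ih =>
    have h1 : Icc (-((X + 1 : ℕ) : ℤ)) ((X + 1 : ℕ) : ℤ) =
        insert ((X : ℤ) + 1) (insert (-((X : ℤ) + 1)) (Icc (-(X : ℤ)) X)) := by
      ext a
      simp only [mem_Icc, mem_insert]
      push_cast
      omega
    rw [h1, sum_insert, sum_insert, ih, SumInv_m_pos (n := X + 1) (by omega),
      SumInv_m_pos (n := X + 1) (by omega), harmonic_succ]
    · push_cast
      rw [one_div]
      ring
    · rw [abs_neg]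
      push_cast
      exact abs_of_nonneg (by positivity)
    · push_cast
      exact abs_of_nonneg (by positivity)
    · rw [mem_Icc]
      omega
    · rw [mem_insert, mem_Icc]
      omega

private theorem SumInv_pt (z : G) : 1 / (nn z : ℝ) ≤ SumInv_m z.re * SumInv_m z.im := by
  by_cases hz : z = 0
  · subst hz
    have : nn (0 : G) = 0 := nn_eq_zero.2 rfl
    rw [this]
    simp only [Nat.cast_zero, div_zero]
    exact mul_nonneg (SumInv_m_nonneg _) (SumInv_m_nonneg _)
  · have h0 : (nn z : ℝ) = (z.re : ℝ) ^ 2 + (z.im : ℝ) ^ 2 := by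
      have h := nn_eq z
      have h' : (((nn z : ℕ) : ℤ) : ℝ) = ((z.re ^ 2 + z.im ^ 2 : ℤ) : ℝ) := by rw [h]
      push_cast at h'
      exact h'
    unfold SumInv_m
    rw [one_div_mul_one_div, h0]
    refine one_div_le_one_div_of_le (by positivity) ?_
    have ha : z.re = 0 ∨ 1 ≤ |(z.re : ℝ)| := by
      by_cases h : z.re = 0
      · exact Or.inl h
      · right
        have h2 := Int.one_le_abs h
        have h3 : ((1 : ℤ) : ℝ) ≤ ((|z.re| : ℤ) : ℝ) := by exact_mod_cast h2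
        rw [Int.cast_abs] at h3
        simpa using h3
    have hb : z.im = 0 ∨ 1 ≤ |(z.im : ℝ)| := by
      by_cases h : z.im = 0
      · exact Or.inl h
      · right
        have h2 := Int.one_le_abs h
        have h3 : ((1 : ℤ) : ℝ) ≤ ((|z.im| : ℤ) : ℝ) := by exact_mod_cast h2
        rw [Int.cast_abs] at h3
        simpa using h3
    rw [← sq_abs (z.re : ℝ), ← sq_abs (z.im : ℝ)]
    rcases ha with ha | ha <;> rcases hb with hb | hb
    · exact absurd (Zsqrtd.ext ha hb) hz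
    · rw [ha, max_eq_right hb]
      simp only [Int.cast_zero, abs_zero]
      rw [max_eq_left (by norm_num : (0:ℝ) ≤ 1)]
      nlinarith
    · rw [hb, max_eq_right ha]
      simp only [Int.cast_zero, abs_zero]
      rw [max_eq_left (by norm_num : (0:ℝ) ≤ 1)]
      nlinarith
    · rw [max_eq_right ha, max_eq_right hb]
      nlinarith [sq_nonneg (|(z.re : ℝ)| - |(z.im : ℝ)|), sq_nonneg (|(z.re : ℝ)|),
        sq_nonneg (|(z.im : ℝ)|)]

theorem sum_inv (X : ℕ) (hX : 1 ≤ X) :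
    ∑ z ∈ Gb X, 1 / (nn z : ℝ) ≤ 9 * (1 + Real.log X) ^ 2 := by
  have h1 : ∑ z ∈ Gb X, 1 / (nn z : ℝ) ≤ ∑ z ∈ Gb X, SumInv_m z.re * SumInv_m z.im :=
    sum_le_sum (fun z _ => SumInv_pt z)
  have h2 : ∑ z ∈ Gb X, SumInv_m z.re * SumInv_m z.im =
      (∑ x ∈ Icc (-(X : ℤ)) X, SumInv_m x) * ∑ x ∈ Icc (-(X : ℤ)) X, SumInv_m x := by
    unfold Gb
    rw [sum_image, sum_mul_sum, ← sum_product']
    intro p _ q _ hpq
    have e1 := congrArg Zsqrtd.re hpq
    have e2 := congrArg Zsqrtd.im hpq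
    exact Prod.ext e1 e2
  rw [SumInv_S] at h2
  have h3 := harmonic_le_one_add_log X
  have h4 : 0 ≤ Real.log X := Real.log_nonneg (by exact_mod_cast hX)
  have h5 : (0 : ℝ) ≤ ((harmonic X : ℚ) : ℝ) := by
    rw [harmonic_eq_sum_Icc]
    push_cast
    exact sum_nonneg (fun i _ => by positivity)
  rw [h2] at h1
  refine h1.trans ?_
  nlinarith

theorem sum_inv_nat (X : ℕ) (hX : 1 ≤ X) :
    ∑ l ∈ Icc 1 X, 1 / (l : ℝ) ≤ 1 + Real.log X := by
  have h3 := harmonic_le_one_add_log X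
  rw [harmonic_eq_sum_Icc] at h3
  push_cast at h3
  simpa [one_div] using h3

end Pool.Agent.H60.FS
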