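import Pool.Agent.H60.FS.TupAll
import Pool.Agent.H60.FS.Pyth
import Pool.Agent.H60.FS.GcdDec
import Pool.Agent.H60.FS.PhiSq
import Pool.Agent.H60.FS.Lcm3

/-!
# Trip: the pairs with their `d`

`Rec r s (P,M,I,J,l)` = `(|nn J l Re(r (PMI)²)|, |nn I l Re(s (P M̄ J)²)|, nn P nn M nn I nn J l)`.
-/

set_option autoImplicit false

namespace Pool.Agent.H60.FS

open Finset

/-- the triple `(x, y, d)` belonging to a tuple -/
def Rec (r s : G) (t : G × G × G × G × ℕ) : ℕ × ℕ × ℕ :=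
  ((nn t.2.2.2.1 * t.2.2.2.2 * (r * (t.1 * t.2.1 * t.2.2.1) ^ 2).re : ℤ).natAbs,
   (nn t.2.2.1 * t.2.2.2.2 * (s * (t.1 * star t.2.1 * t.2.2.2.1) ^ 2).re : ℤ).natAbs,
   nn t.1 * nn t.2.1 * nn t.2.2.1 * nn t.2.2.2.1 * t.2.2.2.2)

/-- `(x, y, d)` comes from a good tuple -/
def IsTrip (X : ℕ) (q : ℕ × ℕ × ℕ) : Prop :=
  ∃ r s : G, (r = 1 ∨ r = ⟨0, -1⟩) ∧ (s = 1 ∨ s = ⟨0, -1⟩) ∧
    ∃ t, Good X (r * s) (r * star s) t ∧ Rec r s t = q

theorem nn_one : nn (1 : G) = 1 := by simp [nn]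

theorem nn_mi : nn (⟨0, -1⟩ : G) = 1 := by simp [nn, Zsqrtd.norm_def]

theorem card_trip : ∃ C : ℝ, 1 ≤ C ∧ ∀ (X : ℕ), 1 ≤ X → ∀ S : Finset (ℕ × ℕ × ℕ), (∀ q ∈ S, IsTrip X q) →
    (S.card : ℝ) ≤ C * (X : ℝ) ^ (9 / 10 : ℝ) * (1 + Real.log X) ^ 8 := by
  classical
  obtain ⟨C, hC, h⟩ := tup_all
  refine ⟨4 * C, by linarith, fun X hX S hS => ?_⟩
  have key : ∀ r s : G, nn r = 1 → nn s = 1 →
      ((S.filter fun q => ∃ t, Good X (r * s) (r * star s) t ∧ Rec r s t = q).card : ℝ) ≤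
        C * (X : ℝ) ^ (9 / 10 : ℝ) * (1 + Real.log X) ^ 8 := by
    intro r s hr hs
    set S' := S.filter fun q => ∃ t, Good X (r * s) (r * star s) t ∧ Rec r s t = q with hS'
    have hex : ∀ q ∈ S', ∃ t, Good X (r * s) (r * star s) t ∧ Rec r s t = q := fun q hq =>
      (Finset.mem_filter.1 hq).2
    choose! f hf using hex
    have hinj : Set.InjOn f (S' : Set (ℕ × ℕ × ℕ)) := by
      intro q hq q' hq' hqq
      have h1 := (hf q hq).2
      have h2 := (hf q' hq').2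
      rw [hqq, h2] at h1
      exact h1.symm
    rw [← Finset.card_image_of_injOn hinj]
    refine h X (r * s) (r * star s) hX (by rw [nn_mul, hr, hs]) (by rw [nn_mul, nn_star, hr, hs]) _ ?_
    intro t ht
    obtain ⟨q, hq, rfl⟩ := Finset.mem_image.1 ht
    exact (hf q hq).1
  set B : ℝ := C * (X : ℝ) ^ (9 / 10 : ℝ) * (1 + Real.log X) ^ 8 with hB
  let F : G → G → Finset (ℕ × ℕ × ℕ) := fun r s =>
    S.filter fun q => ∃ t, Good X (r * s) (r * star s) t ∧ Rec r s t = q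
  have hsub : S ⊆ (F 1 1 ∪ F 1 ⟨0, -1⟩) ∪ (F ⟨0, -1⟩ 1 ∪ F ⟨0, -1⟩ ⟨0, -1⟩) := by
    intro q hq
    obtain ⟨r, s, hr, hs, ht⟩ := hS q hq
    simp only [F, Finset.mem_union, Finset.mem_filter]
    rcases hr with rfl | rfl <;> rcases hs with rfl | rfl
    · exact Or.inl (Or.inl ⟨hq, ht⟩)
    · exact Or.inl (Or.inr ⟨hq, ht⟩)
    · exact Or.inr (Or.inl ⟨hq, ht⟩)
    · exact Or.inr (Or.inr ⟨hq, ht⟩)
  have hc : S.card ≤ ((F 1 1).card + (F 1 ⟨0, -1⟩).card) + ((F ⟨0, -1⟩ 1).card + (F ⟨0, -1⟩ ⟨0, -1⟩).card) :=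
    (Finset.card_le_card hsub).trans ((Finset.card_union_le _ _).trans
      (Nat.add_le_add (Finset.card_union_le _ _) (Finset.card_union_le _ _)))
  have hc' : (S.card : ℝ) ≤ ((F 1 1).card + (F 1 ⟨0, -1⟩).card) + ((F ⟨0, -1⟩ 1).card + (F ⟨0, -1⟩ ⟨0, -1⟩).card) := by
    exact_mod_cast hc
  have k1 := key 1 1 nn_one nn_one
  have k2 := key 1 ⟨0, -1⟩ nn_one nn_mi
  have k3 := key ⟨0, -1⟩ 1 nn_mi nn_one
  have k4 := key ⟨0, -1⟩ ⟨0, -1⟩ nn_mi nn_mi
  change (((F 1 1).card : ℕ) : ℝ) ≤ B at k1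
  change (((F 1 ⟨0, -1⟩).card : ℕ) : ℝ) ≤ B at k2
  change (((F ⟨0, -1⟩ 1).card : ℕ) : ℝ) ≤ B at k3
  change (((F ⟨0, -1⟩ ⟨0, -1⟩).card : ℕ) : ℝ) ≤ B at k4
  have e : 4 * C * (X : ℝ) ^ (9 / 10 : ℝ) * (1 + Real.log X) ^ 8 = 4 * B := by rw [hB]; ring
  rw [e]
  linarith

/-- a pair of a primitive quadruple with small cofactor is a trip -/
theorem trip_of (X x y d wx wy t g h l : ℕ) (hd : d ≤ X) (hx : 0 < x) (hxy : x < y) (hyd : y < d)
    (hwx : x ^ 2 + wx ^ 2 = d ^ 2) (hwy : y ^ 2 + wy ^ 2 = d ^ 2) (ht : y ^ 2 = x ^ 2 + t ^ 2)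
    (hg : g = Nat.gcd x wx) (hh : h = Nat.gcd y wy) (hl : l * Nat.lcm (d / g) (d / h) = d)
    (hl2 : l * Nat.gcd (d / g) (d / h) ≤ d / g) : IsTrip X (x, y, d) := by
  have hd0 : 0 < d := by omega
  have hwx0 : 0 < wx := by
    rcases Nat.eq_zero_or_pos wx with h0 | h0
    · subst h0
      have : x = d := by
        have : x ^ 2 = d ^ 2 := by simpa using hwx
        exact Nat.pow_left_injective (n := 2) (by norm_num) this
      omega
    · exact h0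
  have hwy0 : 0 < wy := by
    rcases Nat.eq_zero_or_pos wy with h0 | h0
    · subst h0
      have : y = d := by
        have : y ^ 2 = d ^ 2 := by simpa using hwy
        exact Nat.pow_left_injective (n := 2) (by norm_num) this
      omega
    · exact h0
  obtain ⟨ζ, r, z1, z2, z3, z4, z5, z6⟩ := pyth x wx d hx hwx0 hwx
  obtain ⟨ξ, s, y1, y2, y3, y4, y5, y6⟩ := pyth y wy d (by omega) hwy0 hwy
  rw [← hg] at z5 z6
  rw [← hh] at y5 y6
  obtain ⟨P, M, I, J, p1, p2, p3, p4, p5, p6, p7⟩ := gcd_dec ζ ξ z1 y1 z2 y2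
  obtain ⟨f1, f2, f3, f4⟩ := phi_sq x y d g h t hx hxy hyd ζ ξ r s P M I J z3 y3 z5 y5 z6 y6 p5 p6 ht
  have hg0 : 0 < g := by rw [hg]; exact Nat.gcd_pos_of_pos_left _ hx
  have hh0 : 0 < h := by rw [hh]; exact Nat.gcd_pos_of_pos_left _ (by omega)
  have e1 : d / g = nn ζ := by rw [← z5]; exact Nat.mul_div_cancel_left _ hg0
  have e2 : d / h = nn ξ := by rw [← y5]; exact Nat.mul_div_cancel_left _ hh0
  rw [e1, e2] at hl hl2
  have n1 : nn ζ = nn P * nn M * nn I := by rw [p5, nn_mul, nn_mul]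
  have n2 : nn ξ = nn P * nn M * nn J := by rw [p6, nn_mul, nn_mul, nn_star]
  have hP := p1.nn_pos
  have hM := p2.nn_pos
  have hI := p3.nn_pos
  have hJ := p4.nn_pos
  have n3 : Nat.lcm (nn ζ) (nn ξ) = nn P * nn M * nn I * nn J := by
    rw [n1, n2, Nat.lcm_mul_left, Nat.Coprime.lcm_eq_mul p7]
    ring
  have n4 : Nat.gcd (nn ζ) (nn ξ) = nn P * nn M := by
    rw [n1, n2, Nat.gcd_mul_left, p7.gcd_eq_one, mul_one]
  rw [n3] at hl
  rw [n4, n1] at hl2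
  have hl0 : 1 ≤ l := by
    rcases Nat.eq_zero_or_pos l with h0 | h0
    · rw [h0] at hl
      omega
    · exact h0
  have hlI : l ≤ nn I := by
    have h1 : (nn P * nn M) * l ≤ (nn P * nn M) * nn I := by
      calc (nn P * nn M) * l = l * (nn P * nn M) := by ring
        _ ≤ _ := hl2
    exact Nat.le_of_mul_le_mul_left h1 (by positivity)
  have hprod : nn P * nn M * nn I * nn J * l = d := by rw [← hl]; ring
  have hgv : g = nn J * l := by
    have h1 : nn ζ * g = nn ζ * (nn J * l) := by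
      rw [mul_comm, z5, n1, ← hprod]
      ring
    exact Nat.eq_of_mul_eq_mul_left (by rw [n1]; positivity) h1
  have hhv : h = nn I * l := by
    have h1 : nn ξ * h = nn ξ * (nn I * l) := by
      rw [mul_comm, y5, n2, ← hprod]
      ring
    exact Nat.eq_of_mul_eq_mul_left (by rw [n2]; positivity) h1
  refine ⟨r, s, z4, y4, (P, M, I, J, l), ⟨p1, p2, p3, p4, hl0, ?_, hlI, f1, f2, f3, f4⟩, ?_⟩
  · change nn P * nn M * nn I * nn J * l ≤ X
    rw [hprod]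
    exact hd
  · unfold Rec
    simp only [Prod.mk.injEq]
    refine ⟨?_, ?_, hprod⟩
    · have : ((nn J : ℤ) * l * (r * (P * M * I) ^ 2).re) = x := by
        rw [z6, hgv, p5]
        push_cast
        ring
      rw [this]
      simp
    · have : ((nn I : ℤ) * l * (s * (P * star M * J) ^ 2).re) = y := by
        rw [y6, hhv, p6]
        push_cast
        ring
      rw [this]
      simp

end Pool.Agent.H60.FS
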