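import Pool.Agent.H60.FS.TupP
import Pool.Agent.H60.FS.TupI

/-!
# TupAll: all tuples

PROOF.  Split `T` by the variable of largest norm among `P, M, I, J` (`l ≤ nn I`, so `l` is at most the largest norm).
`P`: `tup_P`.  `M`: `tup_P` for the image of the subset under the injection `(P,M,I,J,l) ↦ (M,P,I,J̄,l)` and `(v, u)`:
`Phi v u M P I J̄ = Phi u v P M I J`.  `I`: `tup_I`.  `J`: `tup_I` for the image under `(P,M,I,J,l) ↦ (P,M̄,J,I,l)` and `(u, v̄)`: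
`Phi u v̄ P M̄ J I = -Phi u v P M I J` (`im (star z) = -im z`), and its hypothesis
`((u P⁴ I²) * star (v̄ M̄⁴ Ī²)).im = (u v P⁴ M⁴ I⁴).im`.  `prim_star`, `nn_star`.  About 110 lines.
-/

set_option autoImplicit false

namespace Pool.Agent.H60.FS

open Finset

/-- the conditions on a tuple `(P, M, I, J, l)` -/
def Good (X : ℕ) (u v : G) (t : G × G × G × G × ℕ) : Prop :=
  Prim t.1 ∧ Prim t.2.1 ∧ Prim t.2.2.1 ∧ Prim t.2.2.2.1 ∧ 1 ≤ t.2.2.2.2 ∧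
    nn t.1 * nn t.2.1 * nn t.2.2.1 * nn t.2.2.2.1 * t.2.2.2.2 ≤ X ∧ t.2.2.2.2 ≤ nn t.2.2.1 ∧
    ((u * t.1 ^ 4 * t.2.2.2.1 ^ 2) * star (v * t.2.1 ^ 4 * (star t.2.2.2.1) ^ 2)).im ≠ 0 ∧
    (u * v * t.1 ^ 4 * t.2.1 ^ 4 * t.2.2.1 ^ 4).im ≠ 0 ∧
    Phi u v t.1 t.2.1 t.2.2.1 t.2.2.2.1 ≠ 0 ∧ IsSquare (Phi u v t.1 t.2.1 t.2.2.1 t.2.2.2.1).natAbs

private theorem TupAll_phiM (u v P M I J : G) : Phi v u M P I (star J) = Phi u v P M I J := by
  unfold Phi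
  rw [star_star, mul_comm]

private theorem TupAll_starim (z : G) : (star z).im = -z.im := rfl

private theorem TupAll_phiJ (u v P M I J : G) :
    Phi u (star v) P (star M) J I = -Phi u v P M I J := by
  unfold Phi
  have h1 : star v * star M ^ 4 * J ^ 2 * star I ^ 2 = star (v * M ^ 4 * I ^ 2 * star J ^ 2) := by
    simp only [star_mul', star_pow, star_star]
    ring
  have h2 : u * P ^ 4 * J ^ 2 * I ^ 2 = u * P ^ 4 * I ^ 2 * J ^ 2 := by ring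
  rw [h1, h2, TupAll_starim]
  ring

private theorem TupAll_imJ (u v P M I : G) :
    (u * P ^ 4 * I ^ 2) * star (star v * star M ^ 4 * star I ^ 2) =
      u * v * P ^ 4 * M ^ 4 * I ^ 4 := by
  simp only [star_mul', star_pow, star_star]
  ring

theorem tup_all : ∃ C : ℝ, 1 ≤ C ∧ ∀ (X : ℕ) (u v : G), 1 ≤ X → nn u = 1 → nn v = 1 →
    ∀ T : Finset (G × G × G × G × ℕ), (∀ t ∈ T, Good X u v t) →
    (T.card : ℝ) ≤ C * (X : ℝ) ^ (9 / 10 : ℝ) * (1 + Real.log X) ^ 8 := by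
  classical
  obtain ⟨C₁, hC₁, hP⟩ := tup_P
  obtain ⟨C₂, hC₂, hI⟩ := tup_I
  refine ⟨2 * C₁ + 2 * C₂, by linarith, fun X u v hX hu hv T hT => ?_⟩
  set R : ℝ := (X : ℝ) ^ (9 / 10 : ℝ) * (1 + Real.log X) ^ 8 with hR
  -- the four parts
  set TP := T.filter (fun t => nn t.2.1 ≤ nn t.1 ∧ nn t.2.2.1 ≤ nn t.1 ∧ nn t.2.2.2.1 ≤ nn t.1)
    with hTP
  set TM := T.filter (fun t => nn t.1 ≤ nn t.2.1 ∧ nn t.2.2.1 ≤ nn t.2.1 ∧
    nn t.2.2.2.1 ≤ nn t.2.1) with hTM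
  set TI := T.filter (fun t => nn t.1 ≤ nn t.2.2.1 ∧ nn t.2.1 ≤ nn t.2.2.1 ∧
    nn t.2.2.2.1 ≤ nn t.2.2.1) with hTI
  set TJ := T.filter (fun t => nn t.1 ≤ nn t.2.2.2.1 ∧ nn t.2.1 ≤ nn t.2.2.2.1 ∧
    nn t.2.2.1 ≤ nn t.2.2.2.1) with hTJ
  have hcover : T ⊆ (TP ∪ TM) ∪ (TI ∪ TJ) := by
    intro t ht
    rw [mem_union, mem_union, mem_union, hTP, hTM, hTI, hTJ, mem_filter, mem_filter, mem_filter,
      mem_filter]
    rcases le_total (nn t.1) (nn t.2.1) with h1 | h1 <;>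
      rcases le_total (nn t.2.2.1) (nn t.2.2.2.1) with h2 | h2
    · rcases le_total (nn t.2.1) (nn t.2.2.2.1) with h3 | h3
      · exact Or.inr (Or.inr ⟨ht, h1.trans h3, h3, h2⟩)
      · exact Or.inl (Or.inr ⟨ht, h1, h2.trans h3, h3⟩)
    · rcases le_total (nn t.2.1) (nn t.2.2.1) with h3 | h3
      · exact Or.inr (Or.inl ⟨ht, h1.trans h3, h3, h2⟩)
      · exact Or.inl (Or.inr ⟨ht, h1, h3, h2.trans h3⟩)
    · rcases le_total (nn t.1) (nn t.2.2.2.1) with h3 | h3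
      · exact Or.inr (Or.inr ⟨ht, h3, h1.trans h3, h2⟩)
      · exact Or.inl (Or.inl ⟨ht, h1, h2.trans h3, h3⟩)
    · rcases le_total (nn t.1) (nn t.2.2.1) with h3 | h3
      · exact Or.inr (Or.inl ⟨ht, h3, h1.trans h3, h2⟩)
      · exact Or.inl (Or.inl ⟨ht, h1, h3, h2.trans h3⟩)
  have bP : (TP.card : ℝ) ≤ C₁ * R := by
    rw [hR, ← mul_assoc]
    refine hP X u v hX hu hv TP fun t ht => ?_
    rw [hTP, mem_filter] at ht
    obtain ⟨h1, h2, h3, h4, h5, h6, h7, _, _, h10, h11⟩ := hT t ht.1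
    exact ⟨h1, h2, h3, h4, h5, h6, ht.2.1, ht.2.2.1, ht.2.2.2, h7.trans ht.2.2.1, h10, h11⟩
  have bI : (TI.card : ℝ) ≤ C₂ * R := by
    rw [hR, ← mul_assoc]
    refine hI X u v hX hu hv TI fun t ht => ?_
    rw [hTI, mem_filter] at ht
    obtain ⟨h1, h2, h3, h4, h5, h6, h7, h8, _, h10, h11⟩ := hT t ht.1
    exact ⟨h1, h2, h3, h4, h5, h6, ht.2.1, ht.2.2.1, ht.2.2.2, h7, h8, h10, h11⟩
  have bM : (TM.card : ℝ) ≤ C₁ * R := by
    set g : G × G × G × G × ℕ → G × G × G × G × ℕ :=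
      fun t => (t.2.1, t.1, t.2.2.1, star t.2.2.2.1, t.2.2.2.2) with hg
    have hinj : Function.Injective g := by
      rintro ⟨P, M, I, J, l⟩ ⟨P', M', I', J', l'⟩ h
      simp only [hg, Prod.mk.injEq, star_inj] at h
      obtain ⟨h1, h2, h3, h4, h5⟩ := h
      subst h1 h2 h3 h4 h5
      rfl
    rw [← card_image_of_injective TM hinj, hR, ← mul_assoc]
    refine hP X v u hX hv hu (TM.image g) fun s hs => ?_
    obtain ⟨t, ht, rfl⟩ := mem_image.1 hs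
    rw [hTM, mem_filter] at ht
    obtain ⟨h1, h2, h3, h4, h5, h6, h7, _, _, h10, h11⟩ := hT t ht.1
    simp only [hg]
    rw [nn_star, TupAll_phiM]
    refine ⟨h2, h1, h3, prim_star.2 h4, h5, ?_, ht.2.1, ht.2.2.1, ht.2.2.2, h7.trans ht.2.2.1,
      h10, h11⟩
    rw [mul_comm (nn t.2.1) (nn t.1)]
    exact h6
  have bJ : (TJ.card : ℝ) ≤ C₂ * R := by
    set g : G × G × G × G × ℕ → G × G × G × G × ℕ :=
      fun t => (t.1, star t.2.1, t.2.2.2.1, t.2.2.1, t.2.2.2.2) with hg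
    have hinj : Function.Injective g := by
      rintro ⟨P, M, I, J, l⟩ ⟨P', M', I', J', l'⟩ h
      simp only [hg, Prod.mk.injEq, star_inj] at h
      obtain ⟨h1, h2, h3, h4, h5⟩ := h
      subst h1 h2 h3 h4 h5
      rfl
    rw [← card_image_of_injective TJ hinj, hR, ← mul_assoc]
    refine hI X u (star v) hX hu (by rw [nn_star, hv]) (TJ.image g) fun s hs => ?_
    obtain ⟨t, ht, rfl⟩ := mem_image.1 hs
    rw [hTJ, mem_filter] at ht
    obtain ⟨h1, h2, h3, h4, h5, h6, h7, _, h9, h10, h11⟩ := hT t ht.1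
    simp only [hg]
    rw [nn_star, TupAll_phiJ, TupAll_imJ, Int.natAbs_neg]
    refine ⟨h1, prim_star.2 h2, h4, h3, h5, ?_, ht.2.1, ht.2.2.1, ht.2.2.2, h7.trans ht.2.2.2,
      h9, neg_ne_zero.2 h10, h11⟩
    have e : nn t.1 * nn t.2.1 * nn t.2.2.2.1 * nn t.2.2.1 =
        nn t.1 * nn t.2.1 * nn t.2.2.1 * nn t.2.2.2.1 := by ring
    rw [e]
    exact h6
  have hc : (T.card : ℝ) ≤ ((TP.card : ℝ) + TM.card) + (TI.card + TJ.card) := by
    have h1 := card_le_card hcover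
    have h2 := card_union_le (TP ∪ TM) (TI ∪ TJ)
    have h3 := card_union_le TP TM
    have h4 := card_union_le TI TJ
    have h5 : T.card ≤ (TP.card + TM.card) + (TI.card + TJ.card) := by omega
    exact_mod_cast h5
  calc (T.card : ℝ) ≤ ((TP.card : ℝ) + TM.card) + (TI.card + TJ.card) := hc
    _ ≤ (C₁ * R + C₁ * R) + (C₂ * R + C₂ * R) := by linarith
    _ = (2 * C₁ + 2 * C₂) * (X : ℝ) ^ (9 / 10 : ℝ) * (1 + Real.log X) ^ 8 := by
      rw [hR]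
      ring

end Pool.Agent.H60.FS
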