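import Pool.Agent.H60.FS.CountP
import Pool.Agent.H60.FS.SumInv

/-!
# TupP: tuples in which `P` has the largest norm

PROOF.  Fix `(M, I, J, l)`, `m = nn M nn I nn J l ≥ 1`.  If some `P` is admissible then `m ≤ (nn P)^4` and `m nn P ≤ X`, so
`m^5 ≤ X^4` (`m^5 = m^4 m ≤ m^4 (nn P)^4 ≤ X^4`), and `|P.re|, |P.im| ≤ B := √(X/m)`, `B ≥ 1`.  With `A = u I² J²`,
`k = (v M⁴ I² J̄²).im` we have `Phi = k (A P⁴).im` (ring), `A ≠ 0` (norm), `k ≠ 0` as `Phi ≠ 0`.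
`count_P`: at most `C B (1 + log(|k| nn A))` of the `P`; `|k| ≤ nn(v M⁴ I² J̄²)` (`|im| ≤ norm` for Gaussian integers) `≤ X^8`,
`nn A = nn(I)² nn(J)² ≤ X^4`, so `1 + log (...) ≤ 12 (1 + log X)`.
Number of tuples `≤ ∑_{(M,I,J,l)} 12 C √X m^(-1/2) (1 + log X)` over those with `m^5 ≤ X^4`, and `m^(-1/2) = m^(1/2)/m ≤ X^(2/5)/m`,
`∑ 1/m ≤ (9 L²)³ L`, `L = 1 + log X` (`sum_inv`, `sum_inv_nat`; product of sums, `Finset.sum_product'`, `M, I, J ∈ Gb X`).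
Total `≤ 12 * 729 C X^(9/10) L^8`.  About 130 lines.
-/

set_option autoImplicit false

namespace Pool.Agent.H60.FS

open Finset

private theorem TupP_prod2 {α β : Type*} (s : Finset α) (t : Finset β) (f : α → ℝ) (g : β → ℝ) :
    ∑ p ∈ s ×ˢ t, f p.1 * g p.2 = (∑ i ∈ s, f i) * ∑ j ∈ t, g j := by
  rw [Finset.sum_product, Finset.sum_mul_sum]

private theorem TupP_im_le (z : G) : z.im.natAbs ≤ nn z := by
  have h1 := nn_eq z
  have h3 : |z.im| ≤ z.im ^ 2 := by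
    rw [← sq_abs]
    exact Int.le_self_sq |z.im|
  have h4 : ((z.im.natAbs : ℕ) : ℤ) ≤ (nn z : ℤ) := by
    rw [h1, Int.natCast_natAbs]
    nlinarith [sq_nonneg z.re]
  exact_mod_cast h4

/-- the bound for one fibre -/
private theorem TupP_fib {C : ℝ} (hC : 1 ≤ C)
    (hcount : ∀ (A : G) (k : ℤ), A ≠ 0 → k ≠ 0 → ∀ B : ℝ, 1 ≤ B → ∀ S : Finset G,
      (∀ z ∈ S, Prim z ∧ |(z.re : ℝ)| ≤ B ∧ |(z.im : ℝ)| ≤ B ∧ IsSquare (k * (A * z ^ 4).im).natAbs) →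
      (S.card : ℝ) ≤ C * B * (1 + Real.log (k.natAbs * nn A : ℕ)))
    (X : ℕ) (u v : G) (hX : 1 ≤ X) (hu : nn u = 1) (hv : nn v = 1) (M I J : G) (l : ℕ) (S : Finset G)
    (hS : ∀ z ∈ S, Prim z ∧ Prim M ∧ Prim I ∧ Prim J ∧ 1 ≤ l ∧
      nn z * nn M * nn I * nn J * l ≤ X ∧
      nn M ≤ nn z ∧ nn I ≤ nn z ∧ nn J ≤ nn z ∧ l ≤ nn z ∧
      Phi u v z M I J ≠ 0 ∧ IsSquare (Phi u v z M I J).natAbs) :
    (S.card : ℝ) ≤ (12 * C * (X : ℝ) ^ (9 / 10 : ℝ) * (1 + Real.log X)) *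
      (1 / (nn M : ℝ) * (1 / (nn I : ℝ) * (1 / (nn J : ℝ) * (1 / (l : ℝ))))) := by
  have hX0 : (0 : ℝ) < X := by exact_mod_cast hX
  have hL : 0 ≤ Real.log X := Real.log_nonneg (by exact_mod_cast hX)
  rcases S.eq_empty_or_nonempty with h0 | ⟨z0, hz0⟩
  · subst h0
    simp only [card_empty, Nat.cast_zero]
    positivity
  obtain ⟨hz, hM, hI, hJ, hl, hm, h1, h2, h3, h4, hne, -⟩ := hS z0 hz0
  have hIp := hI.nn_pos
  have hMp := hM.nn_pos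
  have hJp := hJ.nn_pos
  have hzp := hz.nn_pos
  set m : ℕ := nn M * nn I * nn J * l with hmdef
  have hm1 : 1 ≤ m := Nat.pos_of_ne_zero (by positivity)
  have hmX : m * nn z0 ≤ X := by
    calc m * nn z0 = nn z0 * nn M * nn I * nn J * l := by rw [hmdef]; ring
      _ ≤ X := hm
  have hm4 : m ≤ nn z0 ^ 4 := by
    calc m = nn M * nn I * nn J * l := hmdef
      _ ≤ nn z0 * nn z0 * nn z0 * nn z0 := by gcongr
      _ = nn z0 ^ 4 := by ring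
  have hm5 : m ^ 5 ≤ X ^ 4 := by
    calc m ^ 5 = m ^ 4 * m := by ring
      _ ≤ m ^ 4 * nn z0 ^ 4 := by gcongr
      _ = (m * nn z0) ^ 4 := by ring
      _ ≤ X ^ 4 := by gcongr
  have hmR : (0 : ℝ) < m := by exact_mod_cast hm1
  have hmleX : m ≤ X := by
    calc m = m * 1 := by ring
      _ ≤ m * nn z0 := by gcongr; exact hzp
      _ ≤ X := hmX
  have hle : ∀ a b c d : ℕ, 0 < b → 0 < c → 0 < d → a * b * c * d ≤ X → a ≤ X := by
    intro a b c d hb hc hd h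
    have : 1 ≤ b * c * d := Nat.pos_of_ne_zero (by positivity)
    nlinarith
  have hMX : nn M ≤ X := hle _ _ _ _ hIp hJp hl hmleX
  have hIX : nn I ≤ X := hle (nn I) (nn M) (nn J) l hMp hJp hl (by rw [show nn I * nn M * nn J * l = m by rw [hmdef]; ring]; exact hmleX)
  have hJX : nn J ≤ X := hle (nn J) (nn M) (nn I) l hMp hIp hl (by rw [show nn J * nn M * nn I * l = m by rw [hmdef]; ring]; exact hmleX)
  -- the two coefficients
  set A : G := u * I ^ 2 * J ^ 2 with hA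
  set D : G := v * M ^ 4 * I ^ 2 * (star J) ^ 2 with hD
  have hPhi : ∀ z : G, D.im * (A * z ^ 4).im = Phi u v z M I J := by
    intro z
    unfold Phi
    rw [hA, hD, mul_comm]
    congr 2
    ring
  have hnA : nn A = nn I ^ 2 * nn J ^ 2 := by
    rw [hA, nn_mul, nn_mul, nn_pow, nn_pow, hu, one_mul]
  have hnD : nn D = nn M ^ 4 * nn I ^ 2 * nn J ^ 2 := by
    rw [hD, nn_mul, nn_mul, nn_mul, nn_pow, nn_pow, nn_pow, nn_star, hv, one_mul]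
  have hA0 : A ≠ 0 := by
    intro h
    have : nn A = 0 := nn_eq_zero.2 h
    rw [hnA] at this
    have : 0 < nn I ^ 2 * nn J ^ 2 := by positivity
    omega
  have hD0 : D.im ≠ 0 := by
    intro h
    apply hne
    rw [← hPhi z0, h, zero_mul]
  have hAX : nn A ≤ X ^ 4 := by
    rw [hnA]
    calc nn I ^ 2 * nn J ^ 2 ≤ X ^ 2 * X ^ 2 := by gcongr
      _ = X ^ 4 := by ring
  have hDX : D.im.natAbs ≤ X ^ 8 := by
    calc D.im.natAbs ≤ nn D := TupP_im_le _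
      _ = nn M ^ 4 * nn I ^ 2 * nn J ^ 2 := hnD
      _ ≤ X ^ 4 * X ^ 2 * X ^ 2 := by gcongr
      _ = X ^ 8 := by ring
  have hB1 : (1 : ℝ) ≤ (X : ℝ) / m := by
    rw [le_div_iff₀ hmR, one_mul]
    exact_mod_cast hmleX
  have hcard := hcount A D.im hA0 hD0 (Real.sqrt ((X : ℝ) / m)) (Real.one_le_sqrt.2 hB1) S (by
    intro z hzS
    obtain ⟨hz', -, -, -, -, hm', -, -, -, -, -, hsq⟩ := hS z hzS
    have hb : (nn z : ℝ) ≤ (X : ℝ) / m := by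
      rw [le_div_iff₀ hmR]
      have : nn z * m ≤ X := by
        calc nn z * m = nn z * nn M * nn I * nn J * l := by rw [hmdef]; ring
          _ ≤ X := hm'
      exact_mod_cast this
    have hnn : ((nn z : ℕ) : ℝ) = (z.re : ℝ) ^ 2 + (z.im : ℝ) ^ 2 := by
      have := nn_eq z
      exact_mod_cast this
    refine ⟨hz', Real.abs_le_sqrt ?_, Real.abs_le_sqrt ?_, ?_⟩
    · nlinarith [sq_nonneg (z.im : ℝ)]
    · nlinarith [sq_nonneg (z.re : ℝ)]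
    · rw [hPhi z]
      exact hsq)
  -- the logarithm
  have hN1 : 0 < D.im.natAbs * nn A := by
    have h5 : 0 < nn A := Nat.pos_of_ne_zero fun h => hA0 (nn_eq_zero.1 h)
    have h7 : 0 < D.im.natAbs := Int.natAbs_pos.2 hD0
    positivity
  have hN2 : D.im.natAbs * nn A ≤ X ^ 12 := by
    calc D.im.natAbs * nn A ≤ X ^ 8 * X ^ 4 := by gcongr
      _ = X ^ 12 := by ring
  have hlog : Real.log (D.im.natAbs * nn A : ℕ) ≤ 12 * Real.log X := by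
    calc Real.log ((D.im.natAbs * nn A : ℕ) : ℝ) ≤ Real.log ((X : ℝ) ^ 12) := by
          apply Real.log_le_log (by exact_mod_cast hN1)
          exact_mod_cast hN2
      _ = 12 * Real.log X := by rw [Real.log_pow]; norm_num
  -- the square root
  have hsqrt : Real.sqrt ((X : ℝ) / m) ≤ (X : ℝ) ^ (9 / 10 : ℝ) * (1 / (m : ℝ)) := by
    have e1 : (m : ℝ) ≤ (X : ℝ) ^ (4 / 5 : ℝ) := by
      have h5 : ((m : ℝ) ^ 5) ≤ (X : ℝ) ^ 4 := by exact_mod_cast hm5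
      have h6 : (m : ℝ) = ((m : ℝ) ^ (5 : ℕ)) ^ (1 / 5 : ℝ) := by
        rw [← Real.rpow_natCast, ← Real.rpow_mul hmR.le]
        norm_num
      rw [h6]
      calc ((m : ℝ) ^ (5 : ℕ)) ^ (1 / 5 : ℝ) ≤ ((X : ℝ) ^ 4) ^ (1 / 5 : ℝ) :=
            Real.rpow_le_rpow (by positivity) h5 (by norm_num)
        _ = (X : ℝ) ^ (4 / 5 : ℝ) := by
            rw [← Real.rpow_natCast, ← Real.rpow_mul hX0.le]
            norm_num
    apply Real.sqrt_le_iff.2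
    refine ⟨by positivity, ?_⟩
    have e2 : ((X : ℝ) ^ (9 / 10 : ℝ) * (1 / (m : ℝ))) ^ 2 = (X : ℝ) * (X : ℝ) ^ (4 / 5 : ℝ) / m ^ 2 := by
      have e3 : ((X : ℝ) ^ (9 / 10 : ℝ)) ^ 2 = (X : ℝ) * (X : ℝ) ^ (4 / 5 : ℝ) := by
        rw [← Real.rpow_natCast, ← Real.rpow_mul hX0.le]
        have : (X : ℝ) * (X : ℝ) ^ (4 / 5 : ℝ) = (X : ℝ) ^ (1 + 4 / 5 : ℝ) := by
          rw [Real.rpow_add hX0, Real.rpow_one]
        rw [this]
        norm_num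
      rw [mul_pow, e3]
      field_simp
    rw [e2, div_le_div_iff₀ hmR (by positivity)]
    nlinarith [mul_le_mul_of_nonneg_left e1 (mul_nonneg hX0.le hmR.le)]
  have hmc : (1 / (m : ℝ)) = 1 / (nn M : ℝ) * (1 / (nn I : ℝ) * (1 / (nn J : ℝ) * (1 / (l : ℝ)))) := by
    rw [hmdef]
    push_cast
    rw [one_div_mul_one_div, one_div_mul_one_div, one_div_mul_one_div]
    congr 1
    ring
  calc (S.card : ℝ) ≤ C * Real.sqrt ((X : ℝ) / m) *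
        (1 + Real.log (D.im.natAbs * nn A : ℕ)) := hcard
    _ ≤ C * ((X : ℝ) ^ (9 / 10 : ℝ) * (1 / (m : ℝ))) * (12 * (1 + Real.log X)) := by
        gcongr
        linarith
    _ = (12 * C * (X : ℝ) ^ (9 / 10 : ℝ) * (1 + Real.log X)) * (1 / (m : ℝ)) := by ring
    _ = _ := by rw [hmc]

theorem tup_P : ∃ C : ℝ, 1 ≤ C ∧ ∀ (X : ℕ) (u v : G), 1 ≤ X → nn u = 1 → nn v = 1 →
    ∀ T : Finset (G × G × G × G × ℕ),
    (∀ t ∈ T, Prim t.1 ∧ Prim t.2.1 ∧ Prim t.2.2.1 ∧ Prim t.2.2.2.1 ∧ 1 ≤ t.2.2.2.2 ∧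
      nn t.1 * nn t.2.1 * nn t.2.2.1 * nn t.2.2.2.1 * t.2.2.2.2 ≤ X ∧
      nn t.2.1 ≤ nn t.1 ∧ nn t.2.2.1 ≤ nn t.1 ∧ nn t.2.2.2.1 ≤ nn t.1 ∧ t.2.2.2.2 ≤ nn t.1 ∧
      Phi u v t.1 t.2.1 t.2.2.1 t.2.2.2.1 ≠ 0 ∧ IsSquare (Phi u v t.1 t.2.1 t.2.2.1 t.2.2.2.1).natAbs) →
    (T.card : ℝ) ≤ C * (X : ℝ) ^ (9 / 10 : ℝ) * (1 + Real.log X) ^ 8 := by
  obtain ⟨C, hC, hcount⟩ := count_P
  refine ⟨12 * 729 * C, by linarith, ?_⟩
  intro X u v hX hu hv T hT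
  have hX0 : (0 : ℝ) < X := by exact_mod_cast hX
  have hL : 0 ≤ Real.log X := Real.log_nonneg (by exact_mod_cast hX)
  set g : G × G × G × G × ℕ → G × G × G × ℕ := fun t => (t.2.1, t.2.2.1, t.2.2.2.1, t.2.2.2.2) with hg
  set R : Finset (G × G × G × ℕ) := Gb X ×ˢ Gb X ×ˢ Gb X ×ˢ Icc 1 X with hR
  have hmaps : ∀ t ∈ T, g t ∈ R := by
    intro t ht
    obtain ⟨hP, hM, hz, hJ, hl, hm, -⟩ := hT t ht
    have hPp := hP.nn_pos
    have hMp := hM.nn_pos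
    have hJp := hJ.nn_pos
    have hzp := hz.nn_pos
    have key : ∀ a b : ℕ, 0 < b → a * b ≤ X → a ≤ X := fun a b hb h => (Nat.le_mul_of_pos_right a hb).trans h
    rw [hR, hg]
    simp only [mem_product, mem_Icc]
    refine ⟨mem_Gb_of_nn (key _ (nn t.1 * nn t.2.2.1 * nn t.2.2.2.1 * t.2.2.2.2) (by positivity) ?_),
      mem_Gb_of_nn (key _ (nn t.1 * nn t.2.1 * nn t.2.2.2.1 * t.2.2.2.2) (by positivity) ?_),
      mem_Gb_of_nn (key _ (nn t.1 * nn t.2.1 * nn t.2.2.1 * t.2.2.2.2) (by positivity) ?_), hl,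
      key _ (nn t.1 * nn t.2.1 * nn t.2.2.1 * nn t.2.2.2.1) (by positivity) ?_⟩ <;>
    · refine le_trans (le_of_eq ?_) hm
      ring
  have hcard := card_eq_sum_card_fiberwise hmaps
  have hfib : ∀ r ∈ R, ((T.filter fun t => g t = r).card : ℝ) ≤
      (12 * C * (X : ℝ) ^ (9 / 10 : ℝ) * (1 + Real.log X)) *
      (1 / (nn r.1 : ℝ) * (1 / (nn r.2.1 : ℝ) * (1 / (nn r.2.2.1 : ℝ) * (1 / (r.2.2.2 : ℝ))))) := by
    intro r _
    have hinj : Set.InjOn (fun t : G × G × G × G × ℕ => t.1) (T.filter fun t => g t = r : Finset _) := by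
      rintro ⟨P, M, I, J, l⟩ h ⟨P', M', I', J', l'⟩ h' e
      simp only [coe_filter, Set.mem_ofPred_eq] at h h'
      have h1 := h.2.trans h'.2.symm
      simp only [hg, Prod.mk.injEq] at h1 e
      obtain ⟨rfl, rfl, rfl, rfl⟩ := h1
      subst e
      rfl
    rw [← card_image_of_injOn hinj]
    apply TupP_fib hC hcount X u v hX hu hv
    intro z hz
    rw [mem_image] at hz
    obtain ⟨t, ht, rfl⟩ := hz
    rw [mem_filter] at ht
    obtain ⟨ht1, ht2⟩ := ht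
    have := hT t ht1
    rw [← ht2]
    exact this
  calc (T.card : ℝ) = ∑ r ∈ R, ((T.filter fun t => g t = r).card : ℝ) := by
        rw [hcard]
        push_cast
        rfl
    _ ≤ ∑ r ∈ R, (12 * C * (X : ℝ) ^ (9 / 10 : ℝ) * (1 + Real.log X)) *
      (1 / (nn r.1 : ℝ) * (1 / (nn r.2.1 : ℝ) * (1 / (nn r.2.2.1 : ℝ) * (1 / (r.2.2.2 : ℝ))))) :=
        sum_le_sum hfib
    _ = (12 * C * (X : ℝ) ^ (9 / 10 : ℝ) * (1 + Real.log X)) *
      ((∑ z ∈ Gb X, 1 / (nn z : ℝ)) * ((∑ z ∈ Gb X, 1 / (nn z : ℝ)) * ((∑ z ∈ Gb X, 1 / (nn z : ℝ)) *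
        ∑ l ∈ Icc 1 X, 1 / (l : ℝ)))) := by
        rw [← mul_sum, hR]
        congr 1
        rw [TupP_prod2 (Gb X) (Gb X ×ˢ Gb X ×ˢ Icc 1 X) (fun z => 1 / (nn z : ℝ))
          (fun q => 1 / (nn q.1 : ℝ) * (1 / (nn q.2.1 : ℝ) * (1 / (q.2.2 : ℝ)))),
          TupP_prod2 (Gb X) (Gb X ×ˢ Icc 1 X) (fun z => 1 / (nn z : ℝ))
          (fun q => 1 / (nn q.1 : ℝ) * (1 / (q.2 : ℝ))),
          TupP_prod2 (Gb X) (Icc 1 X) (fun z => 1 / (nn z : ℝ)) (fun q => 1 / (q : ℝ))]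
    _ ≤ (12 * C * (X : ℝ) ^ (9 / 10 : ℝ) * (1 + Real.log X)) *
      ((9 * (1 + Real.log X) ^ 2) * ((9 * (1 + Real.log X) ^ 2) * ((9 * (1 + Real.log X) ^ 2) *
        (1 + Real.log X)))) := by
        have h1 := sum_inv X hX
        have h2 := sum_inv_nat X hX
        have h3 : 0 ≤ ∑ z ∈ Gb X, 1 / (nn z : ℝ) := sum_nonneg fun _ _ => by positivity
        have h4 : 0 ≤ ∑ l ∈ Icc 1 X, 1 / (l : ℝ) := sum_nonneg fun _ _ => by positivity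
        gcongr
    _ = 12 * 729 * C * (X : ℝ) ^ (9 / 10 : ℝ) * (1 + Real.log X) ^ 8 := by ring

end Pool.Agent.H60.FS
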